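import Pool.Agent.J4H11.SC.AbsL

/-!
# Points without a root in a coset: the count from the correlations of two covers
-/

set_option autoImplicit false

open Finset

namespace Pool.Agent.J4H11.GN

section
variable {E : Type} [AddCommGroup E] [Fintype E] [DecidableEq E]

/-- the number of roots, `0` at the point at infinity -/
noncomputable def M0 (N : E → ℕ) (R : E) : ℝ := if R ≠ 0 then ((N R : ℕ) : ℝ) else 0

/-- the sum over a coset -/
theorem coset_sum (N : E → ℕ) (D : ℕ) (hD : 1 ≤ D) (hN : ∀ R, N R ≤ D) (p ε β : ℝ)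
    (Bad : Finset E) (hBad : (Bad.card : ℝ) ≤ β)
    (h1 : ∀ h, h ∉ Bad → |∑ R, M0 N R * M0 N (R + h) - p| ≤ ε)
    (h2 : |∑ R, M0 N R - p| ≤ ε) (h3 : |(Fintype.card E : ℝ) - p| ≤ ε)
    (H : AddSubgroup E) [DecidablePred (· ∈ H)] (P0 : E) :
    |∑ h ∈ univ.filter (· ∈ H), M0 N (P0 + h) - (univ.filter (· ∈ H)).card| ≤
      √(β * (D : ℝ) ^ 2 * Fintype.card E + (univ.filter (· ∈ H)).card * (4 * ε)) := by
  set HH := univ.filter (· ∈ H) with hHH
  set q : ℝ := (HH.card : ℝ) with hq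
  have hε : 0 ≤ ε := (abs_nonneg _).trans h3
  have hD1 : (1 : ℝ) ≤ D := by exact_mod_cast hD
  have hM0 : ∀ R, 0 ≤ M0 N R := by
    intro R
    unfold M0
    split_ifs
    · positivity
    · exact le_rfl
  have hMd : ∀ R, M0 N R ≤ D := by
    intro R
    unfold M0
    split_ifs
    · exact_mod_cast hN R
    · positivity
  have hgb : ∀ R, |M0 N R - 1| ≤ (D : ℝ) := by
    intro R
    rw [abs_le]
    have := hM0 R
    have := hMd R
    constructor <;> linarith
  set g : E → ℝ := fun R => M0 N R - 1 with hg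
  have e1 : ∑ h ∈ HH, M0 N (P0 + h) - q = ∑ h ∈ HH, g (P0 + h) := by
    rw [hg, sum_sub_distrib, sum_const, nsmul_eq_mul, mul_one]
  rw [e1]
  apply Real.abs_le_sqrt
  refine (Pool.Agent.J4H11.SC.coset_var g H P0).trans ?_
  have e2 : ∀ h, h ∉ Bad → ∑ R, g R * g (R + h) ≤ 4 * ε := by
    intro h hh
    have e3 : ∑ R, g R * g (R + h) = (∑ R, M0 N R * M0 N (R + h) - p) -
        2 * (∑ R, M0 N R - p) + ((Fintype.card E : ℝ) - p) := by
      have e4 : ∑ R, M0 N (R + h) = ∑ R, M0 N R :=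
        Equiv.sum_comp (Equiv.addRight h) (fun R => M0 N R)
      have e5 : ∑ R, g R * g (R + h) = ∑ R, (M0 N R * M0 N (R + h) -
          M0 N R - M0 N (R + h) + 1) := by
        refine sum_congr rfl fun R _ => ?_
        rw [hg]
        ring
      rw [e5, sum_add_distrib, sum_sub_distrib, sum_sub_distrib, e4, sum_const, card_univ,
        nsmul_eq_mul, mul_one]
      ring
    have f1 := abs_le.1 (h1 h hh)
    have f2 := abs_le.1 h2
    have f3 := abs_le.1 h3
    rw [e3]
    linarith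
  have e6 : ∀ h, ∑ R, g R * g (R + h) ≤ (D : ℝ) ^ 2 * Fintype.card E := by
    intro h
    refine (sum_le_card_nsmul _ _ ((D : ℝ) ^ 2) fun R _ => ?_).trans ?_
    · refine (le_abs_self _).trans ?_
      rw [abs_mul]
      calc |g R| * |g (R + h)| ≤ (D : ℝ) * D :=
            mul_le_mul (hgb R) (hgb (R + h)) (abs_nonneg _) (by positivity)
        _ = (D : ℝ) ^ 2 := by ring
    · rw [card_univ, nsmul_eq_mul, mul_comm]
  rw [← hHH, ← sum_filter_add_sum_filter_not HH (fun h => h ∈ Bad)]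
  apply add_le_add
  · refine (sum_le_card_nsmul _ _ _ fun h _ => e6 h).trans ?_
    rw [nsmul_eq_mul, mul_assoc]
    apply mul_le_mul_of_nonneg_right _ (by positivity)
    refine le_trans ?_ hBad
    exact_mod_cast card_le_card (fun h hh => (mem_filter.1 hh).2)
  · refine (sum_le_card_nsmul _ _ (4 * ε) fun h hh => e2 h (mem_filter.1 hh).2).trans ?_
    rw [nsmul_eq_mul]
    apply mul_le_mul_of_nonneg_right _ (by positivity)
    rw [hq]
    exact_mod_cast card_le_card (filter_subset _ _)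

/-- the points without a root -/
theorem loc_two (N1 N2 : E → ℕ) (good : E → Prop) [DecidablePred good] (n ν : ℕ) (hn : 1 ≤ n)
    (hν : 2 ≤ ν) (hn2 : ∀ R, N2 R ≤ n) (hg0 : ∀ R, good R → R ≠ 0)
    (hpair : ∀ R, good R → 1 ≤ N2 R → ν ≤ N1 R) (δ1 δ2 Z : ℝ)
    (hZ : ((univ.filter (fun R => ¬ good R)).card : ℝ) ≤ Z)
    (H : AddSubgroup E) [DecidablePred (· ∈ H)] (P0 : E)
    (h1 : |∑ h ∈ univ.filter (· ∈ H), M0 N1 (P0 + h) - (univ.filter (· ∈ H)).card| ≤ δ1)
    (h2 : |∑ h ∈ univ.filter (· ∈ H), M0 N2 (P0 + h) - (univ.filter (· ∈ H)).card| ≤ δ2) :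
    (n : ℝ) * ((univ.filter (fun h => h ∈ H ∧ (¬ good (P0 + h) ∨ 1 ≤ N1 (P0 + h)))).card : ℝ) ≤
      (n - (ν - 1)) * (univ.filter (· ∈ H)).card + (n * δ1 + (ν - 1) * δ2) + ν * n * Z := by
  set HH := univ.filter (· ∈ H) with hHH
  set q : ℝ := (HH.card : ℝ) with hq
  have hn1 : (1 : ℝ) ≤ n := by exact_mod_cast hn
  have hν1 : (2 : ℝ) ≤ ν := by exact_mod_cast hν
  set T := HH.filter (fun h => ¬ good (P0 + h) ∨ 1 ≤ N1 (P0 + h)) with hT
  set B := HH.filter (fun h => ¬ good (P0 + h)) with hB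
  have hTeq : univ.filter (fun h => h ∈ H ∧ (¬ good (P0 + h) ∨ 1 ≤ N1 (P0 + h))) = T := by
    rw [hT, hHH, filter_filter]
  rw [hTeq]
  have hBZ : (B.card : ℝ) ≤ Z := by
    refine le_trans ?_ hZ
    have h3 : B.card ≤ (univ.filter (fun R => ¬ good R)).card := by
      refine card_le_card_of_injOn (fun h => P0 + h) ?_ ?_
      · intro h hh
        rw [mem_coe, hB, mem_filter] at hh
        rw [mem_coe, mem_filter]
        exact ⟨mem_univ _, hh.2⟩
      · intro x _ y _ h
        exact add_left_cancel h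
    exact_mod_cast h3
  have hM : ∀ (N : E → ℕ) R, 0 ≤ M0 N R := by
    intro N R
    unfold M0
    split_ifs
    · positivity
    · exact le_rfl
  have key : ∑ h ∈ HH, (n - n * M0 N1 (P0 + h) + (ν - 1) * M0 N2 (P0 + h)) ≤
      ∑ h ∈ HH, (n * (1 - (if (¬ good (P0 + h) ∨ 1 ≤ N1 (P0 + h)) then (1 : ℝ) else 0)) +
        ν * n * (if ¬ good (P0 + h) then (1 : ℝ) else 0)) := by
    refine sum_le_sum fun h _ => ?_
    have a1 := hM N1 (P0 + h)
    have a2 := hM N2 (P0 + h)
    have a3 : M0 N2 (P0 + h) ≤ n := by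
      unfold M0
      split_ifs
      · exact_mod_cast hn2 _
      · positivity
    have a4 : (ν - 1) * M0 N2 (P0 + h) ≤ (ν - 1) * n :=
      mul_le_mul_of_nonneg_left a3 (by linarith)
    by_cases hg : good (P0 + h)
    · have hne := hg0 _ hg
      rw [if_neg (not_not.2 hg)]
      have b1 : M0 N1 (P0 + h) = N1 (P0 + h) := if_pos hne
      have b2 : M0 N2 (P0 + h) = N2 (P0 + h) := if_pos hne
      by_cases h1n : 1 ≤ N1 (P0 + h)
      · rw [if_pos (Or.inr h1n)]
        have c1 : (1 : ℝ) ≤ N1 (P0 + h) := by exact_mod_cast h1n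
        by_cases h2n : 1 ≤ N2 (P0 + h)
        · have c2 : (ν : ℝ) ≤ N1 (P0 + h) := by exact_mod_cast hpair _ hg h2n
          rw [b1]
          have c3 : n * (ν : ℝ) ≤ n * N1 (P0 + h) := mul_le_mul_of_nonneg_left c2 (by linarith)
          linarith
        · have c3 : N2 (P0 + h) = 0 := by omega
          rw [b1, b2, c3, Nat.cast_zero]
          nlinarith
      · rw [if_neg (by
          rintro (h | h)
          · exact h hg
          · exact h1n h)]
        have c3 : N1 (P0 + h) = 0 := by omega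
        have c4 : N2 (P0 + h) = 0 := by
          by_contra h4
          have := hpair _ hg (by omega)
          omega
        rw [b1, b2, c3, c4, Nat.cast_zero]
        linarith
    · rw [if_pos (Or.inl hg), if_pos hg]
      have : 0 ≤ n * M0 N1 (P0 + h) := mul_nonneg (by linarith) a1
      linarith
  have hleft : ∑ h ∈ HH, (n - n * M0 N1 (P0 + h) + (ν - 1) * M0 N2 (P0 + h)) =
      n * q - n * ∑ h ∈ HH, M0 N1 (P0 + h) + (ν - 1) * ∑ h ∈ HH, M0 N2 (P0 + h) := by
    rw [sum_add_distrib, sum_sub_distrib, ← mul_sum, ← mul_sum, sum_const, nsmul_eq_mul]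
    ring
  have hright : ∑ h ∈ HH, (n * (1 - (if (¬ good (P0 + h) ∨ 1 ≤ N1 (P0 + h)) then (1 : ℝ) else 0)) +
        ν * n * (if ¬ good (P0 + h) then (1 : ℝ) else 0)) = n * (q - T.card) + ν * n * B.card := by
    rw [sum_add_distrib, ← mul_sum, ← mul_sum, sum_sub_distrib, sum_const, nsmul_eq_mul, mul_one,
      ← sum_filter, ← sum_filter, sum_const, nsmul_eq_mul, mul_one, sum_const, nsmul_eq_mul,
      mul_one]
  rw [hleft, hright] at key
  have g1 := abs_le.1 h1
  have g2 := abs_le.1 h2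
  have k1 : n * ∑ h ∈ HH, M0 N1 (P0 + h) ≤ n * (q + δ1) :=
    mul_le_mul_of_nonneg_left (by linarith [g1.2]) (by linarith)
  have k3 : (ν - 1) * (q - δ2) ≤ (ν - 1) * ∑ h ∈ HH, M0 N2 (P0 + h) :=
    mul_le_mul_of_nonneg_left (by linarith [g2.1]) (by linarith)
  have k2 : ν * n * (B.card : ℝ) ≤ ν * n * Z :=
    mul_le_mul_of_nonneg_left hBZ (by positivity)
  linarith

end

end Pool.Agent.J4H11.GN
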