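import Mathlib

/-!
# The ring of functions of a curve over a ring
-/

set_option autoImplicit false

open Polynomial

namespace Pool.Agent.J4H11.GN

section
variable (A : Type) [CommRing A] (a b : ℤ)

/-- `x³ + a x + b` -/
noncomputable def cub : A[X] := X ^ 3 + (C ((a : ℤ) : A) * X + C ((b : ℤ) : A))

/-- `y² - (x³ + a x + b)` -/
noncomputable def crv : A[X][X] := X ^ 2 - C (cub A a b)

theorem crv_monic : (crv A a b).Monic := by
  unfold crv
  rw [sub_eq_add_neg, ← C_neg]
  apply monic_X_pow_add_C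
  norm_num

theorem crv_deg [Nontrivial A] : (crv A a b).natDegree = 2 := by
  unfold crv
  rw [sub_eq_add_neg, ← C_neg]
  exact natDegree_X_pow_add_C

/-- the ring of functions of the curve -/
abbrev A1 : Type := AdjoinRoot (crv A a b)

/-- the constants -/
noncomputable def c1 : A →+* A1 A a b := (AdjoinRoot.of (crv A a b)).comp C

/-- the function `x` -/
noncomputable def x1 : A1 A a b := AdjoinRoot.of (crv A a b) X

/-- the function `y` -/
noncomputable def y1 : A1 A a b := AdjoinRoot.root (crv A a b)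

variable {A} {a b}

theorem hom1_aux {S : Type} [CommRing S] (ψ : A →+* S) (x0 y0 : S)
    (h : y0 ^ 2 = x0 ^ 3 + (a : S) * x0 + (b : S)) :
    (crv A a b).eval₂ (eval₂RingHom ψ x0) y0 = 0 := by
  unfold crv cub
  rw [eval₂_sub, eval₂_pow, eval₂_X, eval₂_C, coe_eval₂RingHom, eval₂_add, eval₂_pow, eval₂_X,
    eval₂_add, eval₂_mul, eval₂_C, eval₂_X, eval₂_C, map_intCast, map_intCast, h]
  ring

/-- the homomorphism given by a point of the curve -/
noncomputable def hom1 {S : Type} [CommRing S] (ψ : A →+* S) (x0 y0 : S)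
    (h : y0 ^ 2 = x0 ^ 3 + (a : S) * x0 + (b : S)) : A1 A a b →+* S :=
  AdjoinRoot.lift (eval₂RingHom ψ x0) y0 (hom1_aux ψ x0 y0 h)

section
variable {S : Type} [CommRing S] (ψ : A →+* S) (x0 y0 : S)
    (h : y0 ^ 2 = x0 ^ 3 + (a : S) * x0 + (b : S))

theorem hom1_of (p : A[X]) : hom1 ψ x0 y0 h (AdjoinRoot.of (crv A a b) p) = eval₂ ψ x0 p :=
  AdjoinRoot.lift_of (hom1_aux ψ x0 y0 h)

theorem hom1_c (c : A) : hom1 ψ x0 y0 h (c1 A a b c) = ψ c := by
  unfold c1
  rw [RingHom.comp_apply, hom1_of, eval₂_C]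

theorem hom1_x : hom1 ψ x0 y0 h (x1 A a b) = x0 := by
  unfold x1
  rw [hom1_of, eval₂_X]

theorem hom1_y : hom1 ψ x0 y0 h (y1 A a b) = y0 := AdjoinRoot.lift_root (hom1_aux ψ x0 y0 h)

end

theorem y1_sq : y1 A a b ^ 2 = AdjoinRoot.of (crv A a b) (cub A a b) := by
  have h := AdjoinRoot.eval₂_root (crv A a b)
  unfold crv at h
  rw [eval₂_sub, eval₂_pow, eval₂_X, eval₂_C, sub_eq_zero] at h
  exact h

theorem a1_form [Nontrivial A] (s : A1 A a b) : ∃ u v : A[X],
    s = AdjoinRoot.of (crv A a b) u + AdjoinRoot.of (crv A a b) v * y1 A a b := by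
  obtain ⟨f, rfl⟩ := AdjoinRoot.mk_surjective s
  have h1 := modByMonic_add_div f (crv A a b)
  set g := f %ₘ crv A a b with hg
  have hgd : g.degree < 2 := by
    have h2 := degree_modByMonic_lt f (crv_monic A a b)
    rwa [degree_eq_natDegree (crv_monic A a b).ne_zero, crv_deg] at h2
  have h3 : AdjoinRoot.mk (crv A a b) f = AdjoinRoot.mk (crv A a b) g := by
    rw [← h1, map_add, map_mul, AdjoinRoot.mk_self, zero_mul, add_zero]
  refine ⟨g.coeff 0, g.coeff 1, ?_⟩
  rw [h3]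
  have h4 : g = C (g.coeff 0) + C (g.coeff 1) * X := by
    have h5 : g.degree ≤ 1 := by
      have h6 : g.natDegree < 2 := by
        by_cases hg0 : g = 0
        · rw [hg0, natDegree_zero]
          norm_num
        · rw [natDegree_lt_iff_degree_lt hg0]
          exact hgd
      have h7 : g.natDegree ≤ 1 := by omega
      exact degree_le_of_natDegree_le h7
    conv_lhs => rw [eq_X_add_C_of_degree_le_one h5]
    ring
  conv_lhs => rw [h4]
  rw [map_add, map_mul, AdjoinRoot.mk_C, AdjoinRoot.mk_C, AdjoinRoot.mk_X]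
  rfl

variable [IsDomain A]

theorem norm_ne {Q : A[X]} (hQ : Q.natDegree = 3) {u v : A[X]} (h : u ^ 2 = v ^ 2 * Q) :
    u = 0 ∧ v = 0 := by
  by_cases hv : v = 0
  · subst hv
    refine ⟨?_, rfl⟩
    rw [zero_pow two_ne_zero, zero_mul] at h
    exact pow_eq_zero_iff (two_ne_zero) |>.1 h
  · exfalso
    have hQ0 : Q ≠ 0 := by
      rintro rfl
      simp at hQ
    have hu : u ≠ 0 := by
      rintro rfl
      rw [zero_pow two_ne_zero] at h
      exact (mul_ne_zero (pow_ne_zero 2 hv) hQ0) h.symm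
    have h1 := congrArg natDegree h
    rw [natDegree_pow, natDegree_mul (pow_ne_zero 2 hv) hQ0, natDegree_pow, hQ] at h1
    omega

theorem cub_deg : (cub A a b).natDegree = 3 := by
  unfold cub
  have h1 : (C ((a : ℤ) : A) * X + C ((b : ℤ) : A)).degree < ((3 : ℕ) : WithBot ℕ) :=
    lt_of_le_of_lt degree_linear_le (by norm_num)
  rw [natDegree_add_eq_left_of_degree_lt]
  · exact natDegree_X_pow 3
  · rw [degree_X_pow]
    exact h1

section
variable {Ω : Type} [Field Ω] (ι : A →+* Ω) (hι : Function.Injective ι) (xh yh : Ω)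
  (hx : ∀ p : A[X], p.eval₂ ι xh = 0 → p = 0)
  (hy : yh ^ 2 = xh ^ 3 + (a : Ω) * xh + (b : Ω))

include hx in
theorem hom1_inj : Function.Injective (hom1 ι xh yh hy) := by
  rw [injective_iff_map_eq_zero]
  intro s hs
  obtain ⟨u, v, rfl⟩ := a1_form s
  rw [map_add, map_mul, hom1_of, hom1_of, hom1_y] at hs
  have h1 : u.eval₂ ι xh = - (v.eval₂ ι xh * yh) := eq_neg_of_add_eq_zero_left hs
  have h2 : (u ^ 2 - v ^ 2 * cub A a b).eval₂ ι xh = 0 := by
    rw [eval₂_sub, eval₂_mul, eval₂_pow, eval₂_pow, h1]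
    unfold cub
    rw [eval₂_add, eval₂_pow, eval₂_X, eval₂_add, eval₂_mul, eval₂_C, eval₂_X, eval₂_C,
      map_intCast, map_intCast]
    linear_combination (v.eval₂ ι xh) ^ 2 * hy
  obtain ⟨hu, hv⟩ := norm_ne cub_deg (sub_eq_zero.1 (hx _ h2))
  rw [hu, hv, map_zero, zero_mul, add_zero]

include hx hy in
theorem a1_domain : IsDomain (A1 A a b) :=
  (hom1_inj ι xh yh hx hy).isDomain _

end

/-- an element which is not zero is not zero at almost all points -/
theorem elim1 (s : A1 A a b) (hs : s ≠ 0) : ∃ (s0 : A) (m : ℕ), s0 ≠ 0 ∧ ∀ (K : Type) [Field K]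
    (ψ0 : A →+* K), ψ0 s0 ≠ 0 → ∃ S : Finset K, S.card ≤ m ∧ ∀ (x0 : K), x0 ∉ S →
      ∀ ψ : A1 A a b →+* K, (∀ c, ψ (c1 A a b c) = ψ0 c) → ψ (x1 A a b) = x0 → ψ s ≠ 0 := by
  classical
  obtain ⟨u, v, rfl⟩ := a1_form s
  set n : A[X] := u ^ 2 - v ^ 2 * cub A a b with hn
  have hn0 : n ≠ 0 := by
    intro h0
    obtain ⟨hu, hv⟩ := norm_ne cub_deg (sub_eq_zero.1 h0)
    apply hs
    rw [hu, hv, map_zero, zero_mul, add_zero]
  have hmul : (AdjoinRoot.of (crv A a b) u + AdjoinRoot.of (crv A a b) v * y1 A a b) *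
      (AdjoinRoot.of (crv A a b) u - AdjoinRoot.of (crv A a b) v * y1 A a b) =
      AdjoinRoot.of (crv A a b) n := by
    rw [hn, map_sub, map_mul, map_pow, map_pow]
    linear_combination -(AdjoinRoot.of (crv A a b) v) ^ 2 * y1_sq (A := A) (a := a) (b := b)
  refine ⟨n.leadingCoeff, n.natDegree, leadingCoeff_ne_zero.2 hn0, fun K _ ψ0 h0 => ?_⟩
  have hnm : n.map ψ0 ≠ 0 := by
    intro h1
    apply h0
    have h2 := congrArg (fun q => q.coeff n.natDegree) h1
    simp only [coeff_map, coeff_zero] at h2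
    exact h2
  refine ⟨(n.map ψ0).roots.toFinset, ?_, fun x0 hx0 ψ hψ hψx hψs => ?_⟩
  · refine (Multiset.toFinset_card_le _).trans ((card_roots' _).trans ?_)
    exact natDegree_map_le
  · apply hx0
    rw [Multiset.mem_toFinset, mem_roots hnm, IsRoot.def, eval_map]
    have h1 : ψ.comp (AdjoinRoot.of (crv A a b)) = eval₂RingHom ψ0 x0 := by
      apply Polynomial.ringHom_ext
      · intro c
        rw [coe_eval₂RingHom, eval₂_C, ← hψ c]
        rfl
      · rw [coe_eval₂RingHom, eval₂_X, ← hψx]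
        rfl
    have h2 : eval₂ ψ0 x0 n = ψ (AdjoinRoot.of (crv A a b) n) := by
      have h3 := DFunLike.congr_fun h1 n
      exact h3.symm
    rw [h2, ← hmul, map_mul, hψs, zero_mul]

end

end Pool.Agent.J4H11.GN
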