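import Pool.Agent.J4H11.SC.Tow

/-!
# A family of curves and the roots of two polynomials, one irreducible over the other
-/

set_option autoImplicit false

open Polynomial Module Pool.Agent.J4H11.SC

namespace Pool.Agent.J4H11.GN

section
variable {A kb K1 F B0 : Type} [CommRing A] [IsDomain A] [CharZero A] [Field kb] [IsAlgClosed kb]
  (ι : A →+* kb) (hι : Function.Injective ι) [Field K1] [Algebra kb[X] K1] [IsFractionRing kb[X] K1]
  [Field F] [Algebra K1 F] [CommRing B0] (β : A[X] →+* B0) (m : ℕ) (hm : 0 < m)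
  (hfree : FreeRk β m)
  (j : B0 →+* F) (hj : ∀ p, j (β p) = algebraMap K1 F (algebraMap kb[X] K1 (p.map ι)))
  (hgen : Algebra.adjoin K1 (Set.range j) = ⊤) (hrk : m ≤ finrank K1 F)
  (g1 g2 : B0[X]) (hg1 : g1.Monic) (hg2 : g2.Monic)
  (hirr1 : Irreducible (g1.map j))
  (hirr2 : Irreducible ((g2.map j).map (AdjoinRoot.of (g1.map j))))

theorem adjE_aux {R k : Type} [CommRing R] [CommRing k] (g : R[X]) (φ : R →+* k) (w : k)
    (hw : (g.map φ).IsRoot w) : eval₂ φ w g = 0 := by
  rw [← eval_map]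
  exact hw

/-- homomorphisms of an extension by a root -/
noncomputable def adjE {R k : Type} [CommRing R] [CommRing k] (g : R[X]) (φ : R →+* k) :
    {φ' : AdjoinRoot g →+* k // φ'.comp (AdjoinRoot.of g) = φ} ≃ {w : k // (g.map φ).IsRoot w} where
  toFun := fun φ' => ⟨φ'.1 (AdjoinRoot.root g), by
    have h1 : eval₂ (AdjoinRoot.of g) (AdjoinRoot.root g) g = 0 := AdjoinRoot.eval₂_root g
    have h2 := congrArg φ'.1 h1
    rw [hom_eval₂, map_zero, φ'.2] at h2
    rw [IsRoot.def, eval_map]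
    exact h2⟩
  invFun := fun w => ⟨AdjoinRoot.lift φ w.1 (adjE_aux g φ w.1 w.2),
    RingHom.ext fun x => AdjoinRoot.lift_of (adjE_aux g φ w.1 w.2)⟩
  left_inv := fun φ' => by
    apply Subtype.ext
    apply AdjoinRoot.ringHom_ext
    · refine RingHom.ext fun x => ?_
      rw [RingHom.comp_apply, AdjoinRoot.lift_of]
      exact (DFunLike.congr_fun φ'.2 x).symm
    · rw [AdjoinRoot.lift_root]
  right_inv := fun w => by
    apply Subtype.ext
    exact AdjoinRoot.lift_root (adjE_aux g φ w.1 w.2)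

include hι hm hfree hj hgen hrk hg1 hg2 hirr1 hirr2 in
theorem tower2 : ∃ (B : Type) (_ : CommRing B) (i : B0 →+* B) (s : A) (Cst : ℝ),
    FreeRk i (g1.natDegree * g2.natDegree) ∧
    (∀ (k : Type) [Field k] [Finite k] (φ : B0 →+* k),
      Nat.card {φ' : B →+* k // φ'.comp i = φ} =
        Nat.card {w : k // (g1.map φ).IsRoot w} * Nat.card {w : k // (g2.map φ).IsRoot w}) ∧
    s ≠ 0 ∧ 0 ≤ Cst ∧ ∀ (k : Type) [Field k] [Finite k]
    (ψ : A →+* k), ψ s ≠ 0 →
    |(Nat.card {φ : B →+* k // φ.comp ((i.comp β).comp Polynomial.C) = ψ} : ℝ) - Nat.card k| ≤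
      Cst * √(Nat.card k : ℝ) := by
  classical
  have hB0 : Nontrivial B0 := nontriv β hfree hm
  set p := g1.map j with hp
  set q := g2.map j with hq
  have hpm : p.Monic := hg1.map _
  have hqm : q.Monic := hg2.map _
  have hd1 : 0 < g1.natDegree := by
    rw [← hg1.natDegree_map j]
    exact hirr1.natDegree_pos
  let _ : Fact (Irreducible p) := ⟨hirr1⟩
  have hd2 : 0 < g2.natDegree := by
    rw [← hg2.natDegree_map j, ← hqm.natDegree_map (AdjoinRoot.of p)]
    exact hirr2.natDegree_pos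
  let i1 := AdjoinRoot.of g1
  have hf1 : FreeRk i1 g1.natDegree := freeRk_adj g1 hg1 _ rfl
  have hS1 : Nontrivial (AdjoinRoot g1) := nontriv i1 hf1 hd1
  have hg2' : (g2.map i1).Monic := hg2.map _
  let i2 := AdjoinRoot.of (g2.map i1)
  have hf2 : FreeRk i2 g2.natDegree := freeRk_adj _ hg2' _ (hg2.natDegree_map _)
  set i : B0 →+* AdjoinRoot (g2.map i1) := i2.comp i1 with hi
  have hfi : FreeRk i (g1.natDegree * g2.natDegree) := freeRk_comp hf1 hf2
  have hcount : ∀ (k : Type) [Field k] [Finite k] (φ : B0 →+* k),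
      Nat.card {φ' : AdjoinRoot (g2.map i1) →+* k // φ'.comp i = φ} =
        Nat.card {w : k // (g1.map φ).IsRoot w} * Nat.card {w : k // (g2.map φ).IsRoot w} := by
    intro k _ _ φ
    have hfin1 := (hom_le i1 _ hf1 φ).1
    let _ := Fintype.ofFinite {φ1 : AdjoinRoot g1 →+* k // φ1.comp i1 = φ}
    have hfin2 : ∀ φ1 : {φ1 : AdjoinRoot g1 →+* k // φ1.comp i1 = φ},
        Finite {φ' : AdjoinRoot (g2.map i1) →+* k // φ'.comp i2 = φ1.1} :=
      fun φ1 => (hom_le i2 _ hf2 φ1.1).1
    rw [hi, Nat.card_congr (sigE i1 i2 φ), Nat.card_sigma]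
    have hc : ∀ φ1 : {φ1 : AdjoinRoot g1 →+* k // φ1.comp i1 = φ},
        Nat.card {φ' : AdjoinRoot (g2.map i1) →+* k // φ'.comp i2 = φ1.1} =
        Nat.card {w : k // (g2.map φ).IsRoot w} := by
      intro φ1
      have h1 : (g2.map i1).map φ1.1 = g2.map φ := by rw [Polynomial.map_map, φ1.2]
      rw [Nat.card_congr (adjE (g2.map i1) φ1.1), h1]
    rw [Finset.sum_congr rfl fun φ1 _ => hc φ1, Finset.sum_const, Finset.card_univ, smul_eq_mul,
      ← Nat.card_eq_fintype_card, Nat.card_congr (adjE g1 φ)]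
  -- the field
  let M := AdjoinRoot p
  set q' : M[X] := q.map (AdjoinRoot.of p) with hq'
  have hqm' : q'.Monic := hqm.map _
  let _ : Fact (Irreducible q') := ⟨hirr2⟩
  let L := AdjoinRoot q'
  have hst : IsScalarTower F M L := inferInstance
  let jL : B0 →+* L := (algebraMap F L).comp j
  let j1 : AdjoinRoot g1 →+* M := AdjoinRoot.lift ((AdjoinRoot.of p).comp j) (AdjoinRoot.root p) (by
    rw [← eval₂_map]
    exact AdjoinRoot.eval₂_root p)
  have hj1o : ∀ x, j1 (i1 x) = AdjoinRoot.of p (j x) := fun x => AdjoinRoot.lift_of _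
  have hj1r : j1 (AdjoinRoot.root g1) = AdjoinRoot.root p := AdjoinRoot.lift_root _
  have hmap : (g2.map i1).map j1 = q' := by
    rw [hq', hq, Polynomial.map_map, Polynomial.map_map]
    congr 1
    exact RingHom.ext fun x => hj1o x
  let j2 : AdjoinRoot (g2.map i1) →+* L := AdjoinRoot.lift ((AdjoinRoot.of q').comp j1)
    (AdjoinRoot.root q') (by
      rw [← eval₂_map, hmap]
      exact AdjoinRoot.eval₂_root q')
  have hj2o : ∀ x, j2 (i2 x) = AdjoinRoot.of q' (j1 x) := fun x => AdjoinRoot.lift_of _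
  have hj2r : j2 (AdjoinRoot.root (g2.map i1)) = AdjoinRoot.root q' := AdjoinRoot.lift_root _
  have hcomp : j2.comp i = (algebraMap F L).comp j := by
    refine RingHom.ext fun x => ?_
    change j2 (i2 (i1 x)) = AdjoinRoot.of q' (AdjoinRoot.of p (j x))
    rw [hj2o, hj1o]
  let S : Set L := {AdjoinRoot.of q' (AdjoinRoot.root p), AdjoinRoot.root q'}
  have hSr : S ⊆ Set.range j2 := by
    rintro x (rfl | rfl)
    · exact ⟨i2 (AdjoinRoot.root g1), by rw [hj2o, hj1r]⟩
    · exact ⟨_, hj2r⟩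
  have htop : Algebra.adjoin F S = ⊤ := by
    rw [eq_top_iff]
    have h1 : ∀ y : M, AdjoinRoot.of q' y ∈ Algebra.adjoin F S := by
      intro y
      obtain ⟨f, rfl⟩ := AdjoinRoot.mk_surjective y
      induction f using Polynomial.induction_on' with
      | add f g hf hg => rw [map_add, map_add]; exact Subalgebra.add_mem _ hf hg
      | monomial n c =>
        rw [← C_mul_X_pow_eq_monomial, map_mul, map_pow, map_mul, map_pow]
        refine Subalgebra.mul_mem _ ?_ (Subalgebra.pow_mem _ ?_ n)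
        · exact Subalgebra.algebraMap_mem (Algebra.adjoin F S) c
        · exact Algebra.subset_adjoin (Or.inl rfl)
    rintro x -
    obtain ⟨f, rfl⟩ := AdjoinRoot.mk_surjective x
    induction f using Polynomial.induction_on' with
    | add f g hf hg => rw [map_add]; exact Subalgebra.add_mem _ hf hg
    | monomial n c =>
      rw [← C_mul_X_pow_eq_monomial, map_mul, map_pow]
      refine Subalgebra.mul_mem _ (h1 c) (Subalgebra.pow_mem _ ?_ n)
      exact Algebra.subset_adjoin (Or.inr rfl)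
  have hdeg : g1.natDegree * g2.natDegree ≤ finrank F L := by
    rw [← Module.finrank_mul_finrank F M L]
    have e1 : finrank F M = g1.natDegree := by
      rw [(AdjoinRoot.powerBasis hpm.ne_zero).finrank, AdjoinRoot.powerBasis_dim, hp,
        hg1.natDegree_map]
    have e2 : finrank M L = g2.natDegree := by
      have e3 := (AdjoinRoot.powerBasis hqm'.ne_zero).finrank
      rw [AdjoinRoot.powerBasis_dim] at e3
      have e4 : q'.natDegree = g2.natDegree := by
        rw [hq', hqm.natDegree_map, hq, hg2.natDegree_map]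
      rw [← e4, ← e3]
    rw [e1, e2]
  obtain ⟨s, Cst, hs, hC, hmain⟩ := flw2 (K1 := K1) (L := L) ι hι β m hm hfree j hj hgen hrk i _
    (Nat.mul_pos hd1 hd2) hfi j2 hcomp S htop hSr hdeg
  exact ⟨_, inferInstance, i, s, Cst, hfi, hcount, hs, hC, hmain⟩

include hι hm hfree hj hgen hrk hg1 hg2 hirr1 hirr2 in
/-- the mean value of the numbers of pairs of roots in the family -/
theorem tower_sum2 : ∃ (s : A) (Cst : ℝ), s ≠ 0 ∧ 0 ≤ Cst ∧ ∀ (k : Type) [Field k] [Finite k]
    (ψ : A →+* k), ψ s ≠ 0 → ∀ (I : Type) [Fintype I]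
    (e : I ≃ {φ : B0 →+* k // φ.comp (β.comp Polynomial.C) = ψ}),
    |∑ x, ((Nat.card {w : k // (g1.map (e x).1).IsRoot w} *
      Nat.card {w : k // (g2.map (e x).1).IsRoot w} : ℕ) : ℝ) - Nat.card k| ≤
        Cst * √(Nat.card k : ℝ) := by
  classical
  obtain ⟨B, _, i, s, Cst, hfi, hcount, hs, hC, hmain⟩ := tower2 ι hι β m hm hfree j hj hgen hrk
    g1 g2 hg1 hg2 hirr1 hirr2
  refine ⟨s, Cst, hs, hC, ?_⟩
  intro k _ _ ψ hψ I _ e
  have h1 := hmain k ψ hψ
  set N := Nat.card {φ : B →+* k // φ.comp ((i.comp β).comp Polynomial.C) = ψ} with hN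
  have hN' : N = ∑ x, Nat.card {φ : B →+* k // φ.comp i = (e x).1} := by
    have hfin2 : Finite {φ : B0 →+* k // φ.comp (β.comp Polynomial.C) = ψ} := Finite.of_equiv I e
    let _ := Fintype.ofFinite {φ : B0 →+* k // φ.comp (β.comp Polynomial.C) = ψ}
    have e1 : N = Nat.card (Σ φ1 : {φ : B0 →+* k // φ.comp (β.comp Polynomial.C) = ψ},
        {φ' : B →+* k // φ'.comp i = φ1.1}) := Nat.card_congr (sigE (β.comp Polynomial.C) i ψ)
    have hfin3 : ∀ φ1 : {φ : B0 →+* k // φ.comp (β.comp Polynomial.C) = ψ},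
        Finite {φ' : B →+* k // φ'.comp i = φ1.1} := fun φ1 => (hom_le i _ hfi _).1
    rw [e1, Nat.card_sigma]
    exact (Equiv.sum_comp e (fun φ1 => Nat.card {φ' : B →+* k // φ'.comp i = φ1.1})).symm
  rw [hN'] at h1
  simp only [hcount] at h1
  push_cast at h1 ⊢
  exact h1

end

end Pool.Agent.J4H11.GN
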