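import Pool.Agent.J4H11.SC.Fam2
import Pool.Agent.J4H11.GN.T2
import Pool.Agent.J4H11.GN.Gen1

/-!
# The mean values of the numbers of roots of two polynomials over a point and its translate,
for a family of covers of a curve
-/

set_option autoImplicit false

open Polynomial Module Pool.Agent.J4H11.RC Pool.Agent.J4H11.SC Pool.Agent.H901R3.MS
  WeierstrassCurve

namespace Pool.Agent.J4H11.GN

section
variable {A0 : Type} [CommRing A0]

/-- the evaluation at a point of a curve over `A0` -/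
noncomputable def ev {S : Type} [CommRing S] (ψ : A0 →+* S) (x y : S) :
    MvPolynomial (Fin 2) A0 →+* S :=
  MvPolynomial.eval₂Hom ψ ![x, y]

theorem ev_comp {S T : Type} [CommRing S] [CommRing T] (g : S →+* T) (ψ : A0 →+* S) (x y : S) :
    g.comp (ev ψ x y) = ev (g.comp ψ) (g x) (g y) := by
  apply MvPolynomial.ringHom_ext
  · intro n
    simp [ev]
  · intro e
    rcases fin2 e with rfl | rfl <;> simp [ev]

/-- the number of the roots over a point -/
noncomputable def NE {k : Type} [Field k] (φ : (MvPolynomial (Fin 2) A0)[X]) (ψ0 : A0 →+* k)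
    {a' b' : k} (R : Pt a' b') : ℕ :=
  Nat.card {w : k // (φ.map (ev ψ0 (crd R).1 (crd R).2)).IsRoot w}

end

theorem famA {A0 kb F : Type} [CommRing A0] [IsDomain A0] [Field kb] [IsAlgClosed kb]
    [CharZero kb] [Field F] [Algebra kb F] (ι0 : A0 →+* kb) (a b : ℤ) (xh yh : kb)
    (hxh : ∀ p : A0[X], p.eval₂ ι0 xh = 0 → p = 0)
    (hyn : yh ^ 2 = xh ^ 3 + (a : kb) * xh + (b : kb)) (hyh : yh ≠ 0)
    (X Y : F) (hE : OnE (a : kb) (b : kb) X Y) (hX : Transcendental kb X)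
    (hG : Gen kb X Y) (l X2 Y2 : F)
    (hl : l * (X - algebraMap kb F xh) = Y - algebraMap kb F yh)
    (hX2 : X2 = l ^ 2 - X - algebraMap kb F xh)
    (hY2 : Y2 = -(algebraMap kb F yh + l * (X2 - algebraMap kb F xh)))
    (φ1 φ2 : (MvPolynomial (Fin 2) A0)[X]) (hφ1 : φ1.Monic) (hφ2 : φ2.Monic)
    (hirr1 : Irreducible (φ1.map (ev ((algebraMap kb F).comp ι0) X Y)))
    (hirr2 : Irreducible ((φ2.map (ev ((algebraMap kb F).comp ι0) X2 Y2)).map
      (AdjoinRoot.of (φ1.map (ev ((algebraMap kb F).comp ι0) X Y))))) :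
    ∃ (s0 : A0) (m : ℕ) (Cst : ℝ), s0 ≠ 0 ∧ 0 ≤ Cst ∧
    ∀ (k : Type) [Field k] [Finite k] [DecidableEq k] (ψ0 : A0 →+* k), ψ0 s0 ≠ 0 →
    Disc (a : k) (b : k) → ∃ S : Finset k, S.card ≤ m ∧
    ∀ (h : Pt (a : k) (b : k)), h ≠ 0 → (crd h).1 ∉ S → (crd h).2 ≠ 0 →
    ∀ [Fintype {R : Pt (a : k) (b : k) // R ≠ 0 ∧ R + h ≠ 0}],
    |∑ R : {R : Pt (a : k) (b : k) // R ≠ 0 ∧ R + h ≠ 0},
      ((NE φ1 ψ0 R.1 * NE φ2 ψ0 (R.1 + h) : ℕ) : ℝ) - Nat.card k| ≤
        Cst * √(Nat.card k : ℝ) := by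
  classical
  set ι : A1 A0 a b →+* kb := hom1 ι0 xh yh hyn with hι
  have hιinj : Function.Injective ι := hom1_inj ι0 xh yh hxh hyn
  have hdom : IsDomain (A1 A0 a b) := hιinj.isDomain _
  set xA : A1 A0 a b := x1 A0 a b with hxA
  set yA : A1 A0 a b := y1 A0 a b with hyA
  set cA : A0 →+* A1 A0 a b := c1 A0 a b with hcA
  have hxv : ι xA = xh := hom1_x ι0 xh yh hyn
  have hyv : ι yA = yh := hom1_y ι0 xh yh hyn
  have hcv : ∀ c, ι (cA c) = ι0 c := hom1_c ι0 xh yh hyn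
  set aA : A1 A0 a b := ((a : ℤ) : A1 A0 a b) with haA
  have hcz : CharZero (A1 A0 a b) := by
    refine ⟨fun m n h => ?_⟩
    have h1 := congrArg ι h
    rw [map_natCast, map_natCast] at h1
    exact_mod_cast h1
  -- the slope
  have hne := ne_of_trans hX xh
  have hq := lam_quad (a : kb) (b : kb) xh yh hE hyn hne hl
  obtain ⟨eF, heF, hst⟩ := lam_struct (a : kb) (b : kb) X Y hE hX hG xh yh hyn hyh
    l hl
  let _ : Algebra (FractionRing kb[X]) F := eF.toAlgebra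
  obtain ⟨hrk, htop⟩ := hst
  -- the homomorphism to the field
  obtain ⟨j, hj1, hj2, hj3, hj4⟩ := bb_hom aA xA yA ((algebraMap kb F).comp ι) l X (by
    have e1 : ((algebraMap kb F).comp ι) xA = algebraMap kb F xh :=
      congrArg (algebraMap kb F) hxv
    have e2 : ((algebraMap kb F).comp ι) yA = algebraMap kb F yh :=
      congrArg (algebraMap kb F) hyv
    have e3 : ((algebraMap kb F).comp ι) aA = algebraMap kb F (a : kb) := by
      rw [haA, map_intCast, map_intCast]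
    rw [e1, e2, e3]
    exact hq)
  have hjc : ∀ c, j (bc aA xA yA c) = algebraMap kb F (ι c) := fun c =>
    DFunLike.congr_fun hj1 c
  have hjx : j (bc aA xA yA xA) = algebraMap kb F xh :=
    (hjc _).trans (congrArg (algebraMap kb F) hxv)
  have hjy : j (bc aA xA yA yA) = algebraMap kb F yh :=
    (hjc _).trans (congrArg (algebraMap kb F) hyv)
  have hjY : j (bY aA xA yA) = Y := by
    rw [bY, map_add, map_mul, map_sub, hj2, hj3, hjx, hjy]
    linear_combination hl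
  have hjX2 : j (bX2 aA xA yA) = X2 := by
    rw [bX2, map_sub, map_sub, map_pow, hj2, hj3, hjx, hX2]
  have hjY2 : j (bY2 aA xA yA) = Y2 := by
    rw [bY2, map_neg, map_add, map_mul, map_sub, hj2, hjX2, hjx, hjy, hY2]
  have hnt : Nontrivial (BB aA xA yA) := nontriv _ (bb_free aA xA yA) two_pos
  set g1 : (BB aA xA yA)[X] := φ1.map (ev ((bc aA xA yA).comp cA) (bX aA xA yA) (bY aA xA yA))
    with hg1
  set g2 : (BB aA xA yA)[X] := φ2.map (ev ((bc aA xA yA).comp cA) (bX2 aA xA yA) (bY2 aA xA yA))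
    with hg2
  have hjcc : j.comp ((bc aA xA yA).comp cA) = (algebraMap kb F).comp ι0 := by
    refine RingHom.ext fun c => ?_
    change j (bc aA xA yA (cA c)) = algebraMap kb F (ι0 c)
    rw [hjc, hcv]
  have hg1j : g1.map j = φ1.map (ev ((algebraMap kb F).comp ι0) X Y) := by
    rw [hg1, Polynomial.map_map, ev_comp, hjcc, hj3, hjY]
  have hg2j : g2.map j = φ2.map (ev ((algebraMap kb F).comp ι0) X2 Y2) := by
    rw [hg2, Polynomial.map_map, ev_comp, hjcc, hjX2, hjY2]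
  obtain ⟨s, Cst, hs, hC, hmain⟩ := tower_sum2 (K1 := FractionRing kb[X]) ι hιinj
    (AdjoinRoot.of (quad aA xA yA)) 2 two_pos (bb_free aA xA yA) j
    (by
      intro p
      have h1 := DFunLike.congr_fun hj4 p
      change j (AdjoinRoot.of _ p) = eval₂ ((algebraMap kb F).comp ι) l p at h1
      rw [h1]
      change _ = eF (algebraMap kb[X] _ (p.map ι))
      rw [heF, aeval_def, eval₂_map])
    (by
      rw [eq_top_iff, ← htop]
      apply Algebra.adjoin_mono
      rintro z hz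
      rw [Set.mem_singleton_iff.1 hz]
      exact ⟨_, hj3⟩)
    hrk g1 g2 (hφ1.map _) (hφ2.map _) (by rw [hg1j]; exact hirr1)
    (by rw [hg2j, hg1j]; exact hirr2)
  obtain ⟨s0, m, hs0, helim⟩ := elim1 s hs
  refine ⟨s0, m, Cst, hs0, hC, ?_⟩
  intro k _ _ _ ψ0 hψ0 hD
  obtain ⟨S, hS, hS2⟩ := helim k ψ0 hψ0
  refine ⟨S, hS, ?_⟩
  intro h h0 hxS hy0 inst
  rcases h with _ | ⟨x0, y0, hns0⟩
  · exact absurd rfl h0
  change x0 ∉ S at hxS
  change y0 ≠ 0 at hy0
  set ψ : A1 A0 a b →+* k := hom1 ψ0 x0 y0 (eqn_of hns0) with hψ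
  have hψx : ψ xA = x0 := hom1_x ψ0 x0 y0 _
  have hψy : ψ yA = y0 := hom1_y ψ0 x0 y0 _
  have hψc : ∀ c, ψ (cA c) = ψ0 c := hom1_c ψ0 x0 y0 _
  have hψs : ψ s ≠ 0 := hS2 x0 hxS ψ hψc hψx
  obtain ⟨e, he⟩ := base_pts aA xA yA ψ (a : k) (b : k) x0 y0
    (by rw [haA, map_intCast]) hψx hψy hD hy0 hns0
  have hec : ∀ R, ((e R).1).comp ((bc aA xA yA).comp cA) = ψ0 := by
    intro R
    refine RingHom.ext fun c => ?_
    have h1 := DFunLike.congr_fun (e R).2 (cA c)
    rw [hψc] at h1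
    exact h1
  have hm1 : ∀ R, g1.map (e R).1 = φ1.map (ev ψ0 (crd R.1).1 (crd R.1).2) := by
    intro R
    obtain ⟨e1, e2, e3, e4⟩ := he R
    rw [hg1, Polynomial.map_map, ev_comp, hec, e1, e2]
  have hm2 : ∀ R, g2.map (e R).1 = φ2.map (ev ψ0
          (crd (R.1 + Affine.Point.some x0 y0 hns0)).1
          (crd (R.1 + Affine.Point.some x0 y0 hns0)).2) := by
    intro R
    obtain ⟨e1, e2, e3, e4⟩ := he R
    rw [hg2, Polynomial.map_map, ev_comp, hec, e3, e4]
  let e' : {R : Pt (a : k) (b : k) // R ≠ 0 ∧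
      R + Affine.Point.some x0 y0 hns0 ≠ 0} ≃
      {φ : BB aA xA yA →+* k //
        φ.comp ((AdjoinRoot.of (quad aA xA yA)).comp Polynomial.C) = ψ} := e
  have hm1' : ∀ R, g1.map (e' R).1 = φ1.map (ev ψ0 (crd R.1).1 (crd R.1).2) := hm1
  have hm2' : ∀ R, g2.map (e' R).1 = φ2.map (ev ψ0
          (crd (R.1 + Affine.Point.some x0 y0 hns0)).1
          (crd (R.1 + Affine.Point.some x0 y0 hns0)).2) := hm2
  have key := hmain k ψ hψs _ e'
  simp only [hm1', hm2'] at key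
  exact key

end Pool.Agent.J4H11.GN
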