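import Pool.Agent.H484R2.Pit

/-!
# Many primes modulo which a polynomial splits
-/

set_option autoImplicit false

open Polynomial Filter Topology NumberField Finset

namespace Pool.Agent.J4H11.GN

theorem splits_of_hom (f : ℤ[X]) (hf : f.Monic) (K : Type) [Field K] [NumberField K]
    (hK : (f.map (algebraMap ℤ K)).Splits) (k : Type) [Field k] (φ : 𝓞 K →+* k) :
    (f.map (Int.castRingHom k)).Splits := by
  have hm : (f.map (algebraMap ℤ K)).Monic := hf.map _
  have hint : ∀ x ∈ (f.map (algebraMap ℤ K)).roots, IsIntegral ℤ x := by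
    intro x hx
    rw [mem_roots hm.ne_zero, IsRoot.def, eval_map] at hx
    exact ⟨f, hf, hx⟩
  -- the polynomial splits over the ring of integers
  have h1 : (f.map (algebraMap ℤ (𝓞 K))).Splits := by
    apply Splits.of_splits_map_of_injective (i := algebraMap (𝓞 K) K)
      (RingOfIntegers.coe_injective) 
    · rw [Polynomial.map_map, ← IsScalarTower.algebraMap_eq]
      exact hK
    · intro x hx
      rw [Polynomial.map_map, ← IsScalarTower.algebraMap_eq] at hx
      exact ⟨⟨x, hint x hx⟩, rfl⟩
  have h2 := h1.map φ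
  rw [Polynomial.map_map] at h2
  have h3 : φ.comp (algebraMap ℤ (𝓞 K)) = Int.castRingHom k := RingHom.ext_int _ _
  rwa [h3] at h2

open Classical in
/-- the number of the primes modulo which the polynomial splits -/
theorem many_primes (f : ℤ[X]) (hf : f.Monic) : ∃ (c : ℝ) (T : ℕ), 0 < c ∧ ∀ y : ℕ, T ≤ y →
    c * ((y : ℝ) / Real.log y) ≤ (((Icc 1 y).filter (fun p => p.Prime ∧
      (f.map (Int.castRingHom (ZMod p))).Splits)).card : ℝ) := by
  set fq : ℚ[X] := f.map (algebraMap ℤ ℚ) with hfq
  let K := SplittingField fq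
  have hNF : NumberField K := { to_charZero := inferInstance, to_finiteDimensional := inferInstance }
  have hK : (f.map (algebraMap ℤ K)).Splits := by
    have h1 := SplittingField.splits fq
    rw [hfq, Polynomial.map_map, ← IsScalarTower.algebraMap_eq] at h1
    exact h1
  have hpit := Pool.Agent.H484R2.pit K
  have hpi : Tendsto (fun N : ℕ => (Nat.primeCounting N : ℝ) * Real.log N / N) atTop (𝓝 1) := by
    have := Pool.Agent.Helper923.PNT.pi_tendsto.comp (tendsto_natCast_atTop_atTop (R := ℝ))
    refine this.congr fun N => ?_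
    simp only [Function.comp, Nat.floor_natCast]
  set D : ℝ := (Module.finrank ℚ K : ℝ) with hD
  have hD0 : 0 < D := by
    have h0 : 0 < Module.finrank ℚ K := Module.finrank_pos
    exact Nat.cast_pos.2 h0
  have e1 := hpit.eventually (lt_mem_nhds (show (1 / 2 : ℝ) < 1 by norm_num))
  have e2 := hpi.eventually (lt_mem_nhds (show (1 / 2 : ℝ) < 1 by norm_num))
  obtain ⟨T, hT⟩ := eventually_atTop.1 ((e1.and e2).and (eventually_ge_atTop 3))
  refine ⟨1 / (4 * D), T, by positivity, fun y hy => ?_⟩
  obtain ⟨⟨h1, h2⟩, h3⟩ := hT y hy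
  have hy3 : (3 : ℝ) ≤ y := by exact_mod_cast h3
  have hlog : 0 < Real.log y := Real.log_pos (by linarith)
  have hpc : (0 : ℝ) < Nat.primeCounting y := by
    have : Nat.primeCounting y ≠ 0 := by
      rw [Ne, Nat.primeCounting_eq_zero_iff]
      omega
    positivity
  rw [lt_div_iff₀ hpc] at h1
  have h4 : (1 / 2 : ℝ) * (y / Real.log y) ≤ Nat.primeCounting y := by
    rw [lt_div_iff₀ (by linarith)] at h2
    rw [← mul_div_assoc, div_le_iff₀ hlog]
    linarith
  set PP := (Finset.range (y + 1)).filter Nat.Prime with hPP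
  set G := (Icc 1 y).filter (fun p => p.Prime ∧ (f.map (Int.castRingHom (ZMod p))).Splits) with hG
  have h5 : ∑ p ∈ PP, (Nat.card (𝓞 K →+* ZMod p) : ℝ) ≤ G.card * D := by
    have h6 : ∑ p ∈ PP, (Nat.card (𝓞 K →+* ZMod p) : ℝ) ≤ ∑ p ∈ PP, (if p ∈ G then D else 0) := by
      refine sum_le_sum fun p hp => ?_
      rw [hPP, mem_filter, mem_range] at hp
      split_ifs with hpG
      · exact H332.PIT.hc_cast_le hp.2
      · have : IsEmpty (𝓞 K →+* ZMod p) := by
          rw [← not_nonempty_iff]
          rintro ⟨φ⟩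
          apply hpG
          have : Fact p.Prime := ⟨hp.2⟩
          rw [hG, mem_filter, mem_Icc]
          exact ⟨⟨hp.2.one_lt.le, by omega⟩, hp.2, splits_of_hom f hf K hK (ZMod p) φ⟩
        rw [Nat.card_of_isEmpty, Nat.cast_zero]
    refine h6.trans ?_
    rw [← sum_filter, sum_const, nsmul_eq_mul]
    apply mul_le_mul_of_nonneg_right _ hD0.le
    exact_mod_cast card_le_card (fun p hp => (mem_filter.1 hp).2)
  have h7 : (1 / 4 : ℝ) * (y / Real.log y) ≤ G.card * D := by linarith
  rw [div_mul_eq_mul_div, one_mul, div_le_iff₀ (by positivity)]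
  linarith

end Pool.Agent.J4H11.GN
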