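import Pool.Agent.J4H11.GN.Tow5
import Pool.Agent.J4H11.GC.FinC

/-!
# The tower of primes and the count of the box
-/

set_option autoImplicit false

namespace Pool.Agent.J4H11.GN

open Finset MvPolynomial WeierstrassCurve Pool.Agent.H901R3.MS Pool.Agent.J4H11.RC Module
  Pool.Agent.J4H11.GC

section
variable {r : ℕ} (i : Fin r) {a b : Fin r → ℤ}

theorem tower_primes2 (sp : ℕ → Prop) [DecidablePred sp] (cc : ℝ) (TT : ℕ) (hcc : 0 < cc)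
    (hTT : ∀ y : ℕ, TT ≤ y → cc * ((y : ℝ) / Real.log y) ≤
      (((Icc 1 y).filter (fun p => p.Prime ∧ sp p)).card : ℝ))
    (hD : ∀ j, Disc (a j : ℚ) (b j : ℚ))
    (f : Fin 3 → Pt (a i : ℚ) (b i : ℚ)) (hf : ∀ m : Fin 3 → ℤ, m ≠ 0 → ∑ t, m t • f t ≠ 0)
    (R : (j : Fin r) → Pt (a j : ℚ) (b j : ℚ)) (hR : ∀ j, ∀ n : ℕ, 0 < n → n • R j ≠ 0)
    (N1 : ℕ)
    (hN1 : ∀ p : ℕ, N1 < p → ∀ [Fact p.Prime], Disc (a i : ZMod p) (b i : ZMod p) ∧ p ≠ 2) :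
    ∃ B0 : ℕ, ∀ B : ℕ, B0 ≤ B → ∃ (pr : ℕ → ℕ) (_ : ∀ m, Fact (pr m).Prime),
      ∀ m, GoodP i sp f R N1 (B ^ 1000 ^ m)
        (∏ j ∈ range m, Nat.card (Pt (a i : ZMod (pr j)) (b i : ZMod (pr j)))) (pr m) ∧
        ∏ j ∈ range m, Nat.card (Pt (a i : ZMod (pr j)) (b i : ZMod (pr j))) ≤ B ^ EE m := by
  classical
  obtain ⟨Y, hY⟩ := good_towerP i sp cc TT hcc hTT hD f hf R hR N1
  refine ⟨max Y 4, fun B hB => ?_⟩
  have hBY : Y ≤ B := (le_max_left _ _).trans hB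
  have hB4 : 4 ≤ B := (le_max_right _ _).trans hB
  have hB1 : 1 ≤ B := by omega
  have hnx : ∀ y M : ℕ, ∃ p : ℕ, (∃ p' : ℕ, GoodP i sp f R N1 y M p') →
      GoodP i sp f R N1 y M p := by
    intro y M
    by_cases h : ∃ p' : ℕ, GoodP i sp f R N1 y M p'
    · obtain ⟨p, hp⟩ := h
      exact ⟨p, fun _ => hp⟩
    · exact ⟨0, fun h' => absurd h' h⟩
  choose nx hnx using hnx
  obtain ⟨Mq, hMq0, hMqS⟩ : ∃ Mq : ℕ → ℕ, Mq 0 = 1 ∧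
      ∀ m, Mq (m + 1) = Mq m * cnt (a i) (b i) (nx (B ^ 1000 ^ m) (Mq m)) :=
    ⟨fun m => Nat.rec 1 (fun m M => M * cnt (a i) (b i) (nx (B ^ 1000 ^ m) M)) m, rfl,
      fun _ => rfl⟩
  have hgood : ∀ m, 1 ≤ Mq m → Mq m ≤ B ^ EE m →
      GoodP i sp f R N1 (B ^ 1000 ^ m) (Mq m) (nx (B ^ 1000 ^ m) (Mq m)) := by
    intro m h1 h2
    have hpw : B ≤ B ^ 1000 ^ m := by
      calc B = B ^ 1 := (pow_one B).symm
        _ ≤ B ^ 1000 ^ m := Nat.pow_le_pow_right hB1 (Nat.one_le_pow _ _ (by norm_num))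
    refine hnx _ _ (hY _ (hBY.trans hpw) _ h1 ?_)
    have h3 : (Mq m) ^ 100 ≤ B ^ 1000 ^ m := by
      calc (Mq m) ^ 100 ≤ (B ^ EE m) ^ 100 := Nat.pow_le_pow_left h2 100
        _ = B ^ (100 * EE m) := by rw [← pow_mul, mul_comm]
        _ ≤ B ^ 1000 ^ m := Nat.pow_le_pow_right hB1 (ee_le m)
    have h4 : ((Mq m : ℝ)) ^ 100 ≤ ((B ^ 1000 ^ m : ℕ) : ℝ) := by exact_mod_cast h3
    have h5 : ((Mq m : ℝ) ^ 100) ^ (1 / 100 : ℝ) = Mq m := by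
      rw [← Real.rpow_natCast, ← Real.rpow_mul (Nat.cast_nonneg _)]
      norm_num
    rw [← h5]
    exact Real.rpow_le_rpow (by positivity) h4 (by norm_num)
  have main : ∀ m, 1 ≤ Mq m ∧ Mq m ≤ B ^ EE m := by
    intro m
    induction m with
    | zero => rw [hMq0]; exact ⟨le_refl _, by simp [EE]⟩
    | succ m ih =>
      obtain ⟨ih1, ih2⟩ := ih
      have hg := hgood m ih1 ih2
      have : Fact (nx (B ^ 1000 ^ m) (Mq m)).Prime := ⟨hg.1⟩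
      have hN := hN1 (nx (B ^ 1000 ^ m) (Mq m)) hg.2.2.1
      rw [hMqS]
      constructor
      · have h1 : 1 ≤ cnt (a i) (b i) (nx (B ^ 1000 ^ m) (Mq m)) := by
          rw [cnt_eq]
          have := finite_pt ((a i : ℤ) : ZMod (nx (B ^ 1000 ^ m) (Mq m)))
            ((b i : ℤ) : ZMod (nx (B ^ 1000 ^ m) (Mq m)))
          exact Nat.card_pos
        exact Nat.one_le_iff_ne_zero.2 (Nat.mul_ne_zero (by omega) (by omega))
      · have h1 := cnt_le (a i) (b i) _ hN.1 hN.2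
        have h2 : cnt (a i) (b i) (nx (B ^ 1000 ^ m) (Mq m)) ≤ B * B ^ 1000 ^ m :=
          h1.trans (Nat.mul_le_mul hB4 hg.2.1)
        calc Mq m * cnt (a i) (b i) (nx (B ^ 1000 ^ m) (Mq m))
            ≤ B ^ EE m * (B * B ^ 1000 ^ m) := Nat.mul_le_mul ih2 h2
          _ = B ^ EE (m + 1) := by
            have : EE (m + 1) = EE m + 1 + 1000 ^ m := rfl
            rw [this, pow_add, pow_add, pow_one]
            ring
  have hG := fun m => hgood m (main m).1 (main m).2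
  refine ⟨fun m => nx (B ^ 1000 ^ m) (Mq m), fun m => ⟨(hG m).1⟩, fun m => ?_⟩
  have hprod : ∀ m, (∏ j ∈ range m, (haveI : Fact (nx (B ^ 1000 ^ j) (Mq j)).Prime := ⟨(hG j).1⟩
      Nat.card (Pt ((a i : ℤ) : ZMod (nx (B ^ 1000 ^ j) (Mq j))) 
        ((b i : ℤ) : ZMod (nx (B ^ 1000 ^ j) (Mq j)))))) = Mq m := by
    intro m
    induction m with
    | zero => rw [hMq0]; simp
    | succ m ih =>
      have : Fact (nx (B ^ 1000 ^ m) (Mq m)).Prime := ⟨(hG m).1⟩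
      rw [prod_range_succ, ih, hMqS, cnt_eq]
  rw [hprod m]
  exact ⟨hG m, (main m).2⟩

open Classical in
theorem tower_count2 (sp : ℕ → Prop) (cc : ℝ) (TT : ℕ) (hcc : 0 < cc)
    (hTT : ∀ y : ℕ, TT ≤ y → cc * ((y : ℝ) / Real.log y) ≤
      (((Icc 1 y).filter (fun p => p.Prime ∧ sp p)).card : ℝ))
    (hD : ∀ j, Disc (a j : ℚ) (b j : ℚ))
    (f : Fin 3 → Pt (a i : ℚ) (b i : ℚ)) (hf : ∀ m : Fin 3 → ℤ, m ≠ 0 → ∑ t, m t • f t ≠ 0)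
    (R : (j : Fin r) → Pt (a j : ℚ) (b j : ℚ)) (hR : ∀ j, ∀ n : ℕ, 0 < n → n • R j ≠ 0)
    {ι : Type}
    (Ψ : MvPolynomial (Bi i) ℤ) (hΨ0 : Ψ ≠ 0) (N : ℕ) (hN : 1 ≤ N)
    (Lf0 : ((j : Fin r) → Pt (a j : ℚ) (b j : ℚ)) → Prop)
    (Lf : ι → ((j : Fin r) → Pt (a j : ℚ) (b j : ℚ)) → Prop) (hOb : ObstP i a b sp Ψ N Lf)
    (e0 : ℕ) (hFin : Fin1 i Lf0 Lf e0)
    (γ : ℝ) (hγ : 0 ≤ γ) (hγ1 : γ ≤ 1) (hγN : (1 - 1 / (N : ℝ)) * (1000 : ℝ) ^ (2 * γ) ≤ 1) :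
    ∃ C : ℝ, 0 ≤ C ∧ ∃ L0 : ℕ, 3 ≤ L0 ∧ ∀ L : ℕ, L0 ≤ L → ∀
      (c : (j : Fin r) → Pt (a j : ℚ) (b j : ℚ)),
      ((((Fintype.piFinset (fun _ : Fin r => range L)) ×ˢ
        (Fintype.piFinset (fun _ : Fin 3 => range L))).filter
      (fun nz => Lf0 (bp i c R f nz.1 nz.2))).card : ℝ) ≤
        C * (L : ℝ) ^ r * (L : ℝ) ^ 3 * Real.log L ^ (-γ) := by
  have hm0 : ∃ m0, Ψ.coeff m0 ≠ 0 := by
    by_contra h
    push Not at h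
    exact hΨ0 (MvPolynomial.ext _ _ (fun m => by rw [h m, coeff_zero]))
  obtain ⟨m0, hm0⟩ := hm0
  obtain ⟨N0, hN0⟩ := exists_large i hD Ψ m0 hm0
  obtain ⟨T0, hT0⟩ := hOb (1 / 20) (by norm_num)
  set N1 : ℕ := max N0 T0 with hN1
  obtain ⟨B0, hB0⟩ := tower_primes2 i sp cc TT hcc hTT hD f hf R hR N1 (by
    intro p hp _
    have := hN0 p (lt_of_le_of_lt (le_max_left _ _) hp)

    exact ⟨this.1 i, this.2.1⟩)
  have hNR : (1 : ℝ) ≤ N := by exact_mod_cast hN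
  have hθ0 : 0 ≤ 1 - 1 / (N : ℝ) := by
    rw [sub_nonneg, div_le_one (by linarith)]
    exact hNR
  obtain ⟨L0, hL03, hL0⟩ := asy_tower (1 - 1 / (N : ℝ)) γ hθ0 hγ hγ1 hγN B0
  set D : ℝ := ((2 * r + 6 * Ψ.totalDegree : ℕ) : ℝ) with hDD
  have hD0 : 0 ≤ D := Nat.cast_nonneg _
  refine ⟨8 * e0 * (1000 : ℝ) ^ (2 * γ) + 500 * D, by positivity, L0, hL03, fun L hL c => ?_⟩
  obtain ⟨B, K, hBB0, hB1, hBL, hθK, hKB⟩ := hL0 L hL
  obtain ⟨pr, hp, hpr⟩ := hB0 B hBB0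
  have hL1R : (1 : ℝ) ≤ L := by
    have : 3 ≤ L := hL03.trans hL
    exact_mod_cast (by omega : 1 ≤ L)
  have hlarge : ∀ m, (∀ j, Disc (a j : ZMod (pr m)) (b j : ZMod (pr m))) ∧ pr m ≠ 2 ∧
    ((Ψ.coeff m0 : ℤ) : ZMod (pr m)) ≠ 0 := by
    intro m
    have h1 := (hpr m).1.2.2.1
    have := hN0 (pr m) (lt_of_le_of_lt (le_max_left _ _) h1)

    exact ⟨this.1, this.2.1, this.2.2.1⟩
  have hldm : ∀ m, Nonempty (LD a b (pr m)) := fun m => exists_LD (pr m) (hlarge m).1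
  obtain ⟨ld⟩ : Nonempty (∀ m, LD a b (pr m)) := ⟨fun m => (hldm m).some⟩
  have hS : ∀ (δ : ι) m, ∃ S : Set ((j : Fin r) → Pt (a j : ZMod (pr m)) (b j : ZMod (pr m))),
      (∀ P, Lf δ P → (∀ j, (ld m).red j (P j) ≠ 0) → (fun j => (ld m).red j (P j)) ∈ S) ∧
      LocOK i a b Ψ N (1 / 20) (pr m) S := by
    intro δ m
    refine hT0 (pr m) ?_ (hp m) (hpr m).1.2.2.2.1 (ld m) δ
    exact (le_max_right _ _).trans (hpr m).1.2.2.1.le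
  choose S hS1 hS2 using hS
  have hs := fun m => (hpr m).1.2.2.2.2
  choose sz hsz1 hsz2 using hs
  have hy1 : ∀ m, (1 : ℝ) ≤ ((B ^ 1000 ^ m : ℕ) : ℝ) := by
    intro m
    exact_mod_cast Nat.one_le_pow _ _ (by omega)
  set z : ℕ → ℕ := fun m => ⌈((B ^ 1000 ^ m : ℕ) : ℝ) ^ (3 / 10 : ℝ)⌉₊ with hz
  have hmono : ∀ m < K, B ^ 1000 ^ m ≤ L := by
    intro m hm
    refine le_trans ?_ hBL
    exact Nat.pow_le_pow_right hB1 (Nat.pow_le_pow_right (by norm_num) hm.le)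
  have hz1 : ∀ m, 1 ≤ z m := by
    intro m
    rw [hz]
    simp only
    rw [Nat.one_le_ceil_iff]
    have := hy1 m
    positivity
  have hzL : ∀ m < K, z m ≤ L := by
    intro m hm
    refine le_trans ?_ (hmono m hm)
    rw [hz]
    simp only
    rw [Nat.ceil_le]
    calc ((B ^ 1000 ^ m : ℕ) : ℝ) ^ (3 / 10 : ℝ) ≤ ((B ^ 1000 ^ m : ℕ) : ℝ) ^ (1 : ℝ) :=
          Real.rpow_le_rpow_of_exponent_le (hy1 m) (by norm_num)
      _ = _ := Real.rpow_one _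
  have key := tower_box2 i Ψ m0 N hN (1 / 20) Lf0 Lf e0 hFin c R f K L pr hp ld S
    (fun δ m _ P hP hne => hS1 δ m P hP hne) (fun δ m _ => hS2 δ m) sz
    (fun m _ => by
      refine le_trans ?_ (hsz1 m)
      apply Real.rpow_le_rpow (Nat.cast_nonneg _) _ (by norm_num)
      exact_mod_cast (hpr m).1.2.1)
    (fun m _ v hv hv0 => (hsz2 m (hp m) (ld m)).2 v hv hv0)
    (fun m _ => (hlarge m).2.2) z (fun m _ => hz1 m) hzL
    (fun m _ j => ((hsz2 m (hp m) (ld m)).1 j).le)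
  refine key.trans ?_
  have hlogL : 0 ≤ Real.log L ^ (-γ) := Real.rpow_nonneg (Real.log_nonneg hL1R) _
  have hprod : ((∏ j ∈ range K, (Nat.card (Pt (a i : ZMod (pr j)) (b i : ZMod (pr j))) : ℝ))) ≤ L := by
    have h1 := (hpr K).2
    have h2 : B ^ EE K ≤ L := by
      refine le_trans (Nat.pow_le_pow_right hB1 ?_) hBL
      have := ee_le K
      omega
    have h3 := h1.trans h2
    exact_mod_cast h3
  have hprod0 : (0 : ℝ) ≤ ∏ j ∈ range K, (Nat.card (Pt (a i : ZMod (pr j)) (b i : ZMod (pr j))) : ℝ) :=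
    prod_nonneg fun _ _ => Nat.cast_nonneg _
  have e1 : (1 - 1 / (N : ℝ)) ^ K *
        ((L : ℝ) + ∏ j ∈ range K, (Nat.card (Pt (a i : ZMod (pr j)) (b i : ZMod (pr j))) : ℝ)) ^ 3 ≤
      ((1000 : ℝ) ^ (2 * γ) * Real.log L ^ (-γ)) * (8 * (L : ℝ) ^ 3) := by
    apply mul_le_mul hθK _ (by positivity) (by positivity)
    calc ((L : ℝ) + ∏ j ∈ range K, (Nat.card (Pt (a i : ZMod (pr j)) (b i : ZMod (pr j))) : ℝ)) ^ 3
        ≤ ((L : ℝ) + L) ^ 3 := by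
          apply pow_le_pow_left₀ (by positivity)
          linarith
      _ = 8 * (L : ℝ) ^ 3 := by ring
  have e2 : ∑ m ∈ range K, D / z m ≤ D * (500 * Real.log L ^ (-γ)) := by
    have h1 : ∀ m ∈ range K, D / (z m : ℝ) ≤ D / (B : ℝ) ^ (3 / 10 : ℝ) := by
      intro m _
      have hB0' : (0 : ℝ) < (B : ℝ) := by exact_mod_cast hB1
      apply div_le_div_of_nonneg_left hD0 (by positivity)
      have h2 : ((B ^ 1000 ^ m : ℕ) : ℝ) ^ (3 / 10 : ℝ) ≤ z m := Nat.le_ceil _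
      refine le_trans ?_ h2
      apply Real.rpow_le_rpow hB0'.le _ (by norm_num)
      have h3 : B ≤ B ^ 1000 ^ m := by
        calc B = B ^ 1 := (pow_one B).symm
          _ ≤ B ^ 1000 ^ m := Nat.pow_le_pow_right hB1 (Nat.one_le_pow _ _ (by norm_num))
      exact_mod_cast h3
    refine (sum_le_sum h1).trans ?_
    rw [sum_const, card_range, nsmul_eq_mul]
    calc (K : ℝ) * (D / (B : ℝ) ^ (3 / 10 : ℝ)) = D * ((K : ℝ) / (B : ℝ) ^ (3 / 10 : ℝ)) := by ring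
      _ ≤ _ := mul_le_mul_of_nonneg_left hKB hD0
  have hLr : (0 : ℝ) ≤ (L : ℝ) ^ r := by positivity
  have hL3 : (0 : ℝ) ≤ (L : ℝ) ^ 3 := by positivity
  have he0 : (0 : ℝ) ≤ e0 := Nat.cast_nonneg _
  calc (L : ℝ) ^ r * (e0 * ((1 - 1 / (N : ℝ)) ^ K *
        ((L : ℝ) + ∏ j ∈ range K, (Nat.card (Pt (a i : ZMod (pr j)) (b i : ZMod (pr j))) : ℝ)) ^ 3)) +
        (∑ m ∈ range K, D / z m) * (L : ℝ) ^ r * (L : ℝ) ^ 3
      ≤ (L : ℝ) ^ r * (e0 * (((1000 : ℝ) ^ (2 * γ) * Real.log L ^ (-γ)) * (8 * (L : ℝ) ^ 3))) +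
        (D * (500 * Real.log L ^ (-γ))) * (L : ℝ) ^ r * (L : ℝ) ^ 3 := by
        apply add_le_add (mul_le_mul_of_nonneg_left (mul_le_mul_of_nonneg_left e1 he0) hLr)
        exact mul_le_mul_of_nonneg_right (mul_le_mul_of_nonneg_right e2 hLr) hL3
    _ = _ := by ring

open Classical in
theorem ball2 (sp : ℕ → Prop) (cc : ℝ) (TT : ℕ) (hcc : 0 < cc)
    (hTT : ∀ y : ℕ, TT ≤ y → cc * ((y : ℝ) / Real.log y) ≤
      (((Icc 1 y).filter (fun p => p.Prime ∧ sp p)).card : ℝ))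
    (hD : ∀ j, Disc (a j : ℚ) (b j : ℚ))
    (hinf : ∀ j, Infinite (Pt (a j : ℚ) (b j : ℚ)))
    (hrk : 3 ≤ finrank ℤ (Pt (a i : ℚ) (b i : ℚ))) {ι : Type}
    (Ψ : MvPolynomial (Bi i) ℤ) (hΨ0 : Ψ ≠ 0) (N : ℕ) (hN : 1 ≤ N)
    (Lf0 : ((j : Fin r) → Pt (a j : ℚ) (b j : ℚ)) → Prop)
    (Lf : ι → ((j : Fin r) → Pt (a j : ℚ) (b j : ℚ)) → Prop) (hOb : ObstP i a b sp Ψ N Lf)
    (e0 : ℕ) (hFin : Fin1 i Lf0 Lf e0)
    (γ : ℝ) (hγ : 0 ≤ γ) (hγ1 : γ ≤ 1) (hγN : (1 - 1 / (N : ℝ)) * (1000 : ℝ) ^ (2 * γ) ≤ 1) :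
    ∃ C : ℝ, 0 ≤ C ∧ ∀ (T : ℝ), 2 ≤ T → ∀ c : (j : Fin r) → Pt (a j : ℚ) (b j : ℚ),
      {P : (j : Fin r) → Pt (a j : ℚ) (b j : ℚ) | (∀ j, hx (P j - c j) ≤ T ^ 2) ∧ Lf0 P}.Finite ∧
      ({P : (j : Fin r) → Pt (a j : ℚ) (b j : ℚ) |
        (∀ j, hx (P j - c j) ≤ T ^ 2) ∧ Lf0 P}.ncard : ℝ) ≤
        C * T ^ (∑ j, finrank ℤ (Pt (a j : ℚ) (b j : ℚ))) * Real.log T ^ (-γ) := by
  choose R hR using inf_points hD hinf
  obtain ⟨f, hf⟩ := exists_linearIndependent_of_le_finrank hrk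
  have hf' : ∀ m : Fin 3 → ℤ, m ≠ 0 → ∑ t, m t • f t ≠ 0 := by
    intro m hm h0
    rw [linearIndependent_iff'] at hf
    apply hm
    funext t
    exact hf univ m h0 t (mem_univ t)
  obtain ⟨Cb, hCb, L0, hL03, hbox⟩ := tower_count2 i sp cc TT hcc hTT hD f hf' R hR Ψ hΨ0 N hN
    Lf0 Lf hOb e0 hFin γ hγ hγ1 hγN
  obtain ⟨C, hC, h⟩ := avg2 i hD (fun (_ : Unit) => Lf0) R f γ hγ Cb hCb L0 hL03
    (fun L hL _ c => hbox L hL c)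
  exact ⟨C, hC, fun T hT c => h () T hT c⟩

end

end Pool.Agent.J4H11.GN
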