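import Pool.Agent.J4H11.GN.TrA
import Pool.Agent.J4H11.GN.Tow6
import Pool.Agent.J4H11.GN.Prm

/-!
# Covers of products of elliptic curves: assembly
-/

set_option autoImplicit false

open Polynomial Module Pool.Agent.J4H11.RC Pool.Agent.J4H11.GC Pool.Agent.J4H11.SC
  Pool.Agent.H901R3.MS WeierstrassCurve

namespace Pool.Agent.J4H11.GN

section
variable {r : ℕ} (i : Fin r) {a b : Fin r → ℤ} {s : ℕ}

/-- the coordinates `x_j`, `j ≠ i` -/
def bx {k : Type} [Field k] {a' b' : Fin r → k} (P : (j : Fin r) → Pt (a' j) (b' j)) :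
    Bi i → k := fun j => (crd (P j)).1

/-- the coordinates `y_j`, `j ≠ i` -/
def byy {k : Type} [Field k] {a' b' : Fin r → k} (P : (j : Fin r) → Pt (a' j) (b' j)) :
    Bi i → k := fun j => (crd (P j)).2

/-- `P` lifts to a rational point over the point `(P, z)` of the base, or is not affine -/
def LfZ (xb yb : Bi i → ℂ) (ζ : Fin s → ℂ) (Φ : (MvPolynomial ((Fin r × Fin 2) ⊕ Fin s) ℤ)[X])
    (z : Fin s → ℚ) (P : (j : Fin r) → Pt (a j : ℚ) (b j : ℚ)) : Prop :=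
  (∀ j, P j ≠ 0) → IsZ xb yb ζ (bx i P) (byy i P) z ∧
    ∃ w : ℚ, (Φ.map (zth (fun j => (crd (P j)).1) (fun j => (crd (P j)).2) z)).IsRoot w

/-- `P` lifts to a rational point, or is not affine -/
def Lf0Z (xb yb : Bi i → ℂ) (ζ : Fin s → ℂ) (Φ : (MvPolynomial ((Fin r × Fin 2) ⊕ Fin s) ℤ)[X])
    (P : (j : Fin r) → Pt (a j : ℚ) (b j : ℚ)) : Prop :=
  (∀ j, P j ≠ 0) → ∃ z : Fin s → ℚ, IsZ xb yb ζ (bx i P) (byy i P) z ∧
    ∃ w : ℚ, (Φ.map (zth (fun j => (crd (P j)).1) (fun j => (crd (P j)).2) z)).IsRoot w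

/-- the points modulo `p` which lift -/
def symZ (a b : Fin r → ℤ) (xb yb : Bi i → ℂ) (ζ : Fin s → ℂ)
    (Φ : (MvPolynomial ((Fin r × Fin 2) ⊕ Fin s) ℤ)[X])
    (p : ℕ) [Fact p.Prime] (z : Fin s → ZMod p) :
    Set ((j : Fin r) → Pt (a j : ZMod p) (b j : ZMod p)) :=
  {Q | IsZ xb yb ζ (bx i Q) (byy i Q) z ∧
    ∃ w : ZMod p, (Φ.map (zth (fun j => (crd (Q j)).1) (fun j => (crd (Q j)).2) z)).IsRoot w}

theorem fin1_z (xb yb : Bi i → ℂ) (ζ : Fin s → ℂ)
    (Φ : (MvPolynomial ((Fin r × Fin 2) ⊕ Fin s) ℤ)[X])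
    (M : Fin s → (MvPolynomial (Bi i × Fin 2) ℤ)[X])
    (hM : ∀ t, (M t).Monic) (hM0 : ∀ t, (M t).eval₂ (pth xb yb) (ζ t) = 0) :
    Fin1 i (a := a) (b := b) (Lf0Z i xb yb ζ Φ) (fun z => LfZ i xb yb ζ Φ z)
      (∏ t, (M t).natDegree + 1) := by
  classical
  intro P0
  obtain ⟨D, hD, hD2⟩ := isZ_fin xb yb ζ M hM hM0 (bx i P0) (byy i P0)
  refine ⟨insert 0 D, ?_, fun P hP h0 => ?_⟩
  · exact (Finset.card_insert_le _ _).trans (Nat.add_le_add_right hD 1)
  · have e1 : bx i P = bx i P0 := by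
      funext j
      unfold bx
      rw [hP j j.2]
    have e2 : byy i P = byy i P0 := by
      funext j
      unfold byy
      rw [hP j j.2]
    by_cases hne : ∀ j, P j ≠ 0
    · obtain ⟨z, hz, hw⟩ := h0 hne
      refine ⟨z, Finset.mem_insert_of_mem (hD2 z ?_), fun _ => ⟨hz, hw⟩⟩
      rw [e1, e2] at hz
      exact hz
    · exact ⟨0, Finset.mem_insert_self _ _, fun h => absurd h hne⟩

theorem lfz_red (xb yb : Bi i → ℂ) (ζ : Fin s → ℂ)
    (Φ : (MvPolynomial ((Fin r × Fin 2) ⊕ Fin s) ℤ)[X]) (hΦ : Φ.Monic)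
    (M : Fin s → (MvPolynomial (Bi i × Fin 2) ℤ)[X])
    (hM : ∀ t, (M t).Monic) (hM0 : ∀ t, (M t).eval₂ (pth xb yb) (ζ t) = 0)
    {p : ℕ} [Fact p.Prime] (v : Place ℚ (ZMod p))
    (red : (j : Fin r) → Pt (a j : ℚ) (b j : ℚ) → Pt (a j : ZMod p) (b j : ZMod p))
    (hred : ∀ j, IsRed v (a j) (b j) (red j)) (z : Fin s → ℚ)
    (P : (j : Fin r) → Pt (a j : ℚ) (b j : ℚ))
    (hP : LfZ i xb yb ζ Φ z P) (hne : ∀ j, red j (P j) ≠ 0) :
    (fun j => red j (P j)) ∈ symZ i a b xb yb ζ Φ p (fun t => v.r (z t)) := by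
  have h1 := fun F => red_eval F v red hred P hne
  have hne' := (h1 0).1
  obtain ⟨hZ, w, hw⟩ := hP hne'
  have hx : ∀ j, (crd (P j)).1 ∈ v.A ∧ v.r (crd (P j)).1 = (crd (red j (P j))).1 := by
    intro j
    obtain ⟨-, h2, h3⟩ := h1 (MvPolynomial.X (j, 0))
    rw [MvPolynomial.aeval_X] at h2 h3
    rw [MvPolynomial.aeval_X] at h3
    exact ⟨h2, h3⟩
  have hy : ∀ j, (crd (P j)).2 ∈ v.A ∧ v.r (crd (P j)).2 = (crd (red j (P j))).2 := by
    intro j
    obtain ⟨-, h2, h3⟩ := h1 (MvPolynomial.X (j, 1))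
    rw [MvPolynomial.aeval_X] at h2 h3
    rw [MvPolynomial.aeval_X] at h3
    exact ⟨h2, h3⟩
  obtain ⟨hzA, hZr⟩ := isZ_red xb yb ζ v M hM hM0 (bx i P) (byy i P) z hZ
    (fun j => (hx j).1) (fun j => (hy j).1)
  set xA : Fin r → v.A := fun j => ⟨(crd (P j)).1, (hx j).1⟩ with hxA
  set yA : Fin r → v.A := fun j => ⟨(crd (P j)).2, (hy j).1⟩ with hyA
  set zA : Fin s → v.A := fun t => ⟨z t, hzA t⟩ with hzA'
  set g : v.A[X] := Φ.map (zth xA yA zA) with hg
  have hg1 : g.map v.A.subtype =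
      Φ.map (zth (fun j => (crd (P j)).1) (fun j => (crd (P j)).2) z) := by
    rw [hg, Polynomial.map_map, zth_comp]
    rfl
  have e1 : (fun j => v.ρ (xA j)) = fun j => (crd (red j (P j))).1 := by
    funext j
    rw [← (hx j).2, v.r_of (hx j).1]
  have e2 : (fun j => v.ρ (yA j)) = fun j => (crd (red j (P j))).2 := by
    funext j
    rw [← (hy j).2, v.r_of (hy j).1]
  have e3 : (fun t => v.ρ (zA t)) = fun t => v.r (z t) := by
    funext t
    rw [v.r_of (hzA t)]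
  have hg2 : g.map v.ρ = Φ.map (zth (fun j => (crd (red j (P j))).1)
      (fun j => (crd (red j (P j))).2) (fun t => v.r (z t))) := by
    rw [hg, Polynomial.map_map, zth_comp, e1, e2, e3]
  obtain ⟨hw', hr⟩ := place_root v g (hΦ.map _) w (by
    rw [← eval_map, hg1]
    exact hw)
  refine ⟨?_, _, by rw [← hg2]; exact hr⟩
  have e4 : (fun j => v.r (bx i P j)) = bx i (fun j => red j (P j)) := by
    funext j
    exact (hx j).2
  have e5 : (fun j => v.r (byy i P j)) = byy i (fun j => red j (P j)) := by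
    funext j
    exact (hy j).2
  rw [e4, e5] at hZr
  exact hZr

theorem bx_update {p : ℕ} [Fact p.Prime] (Q : (j : Fin r) → Pt (a j : ZMod p) (b j : ZMod p))
    (R : Pt (a i : ZMod p) (b i : ZMod p)) : bx i (Function.update Q i R) = bx i Q := by
  funext j
  unfold bx
  rw [Function.update_of_ne j.2]

theorem byy_update {p : ℕ} [Fact p.Prime] (Q : (j : Fin r) → Pt (a j : ZMod p) (b j : ZMod p))
    (R : Pt (a i : ZMod p) (b i : ZMod p)) : byy i (Function.update Q i R) = byy i Q := by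
  funext j
  unfold byy
  rw [Function.update_of_ne j.2]

theorem crd_update {p : ℕ} [Fact p.Prime] (Q : (j : Fin r) → Pt (a j : ZMod p) (b j : ZMod p))
    (R : Pt (a i : ZMod p) (b i : ZMod p)) :
    (fun j => (crd (Function.update Q i R j)).1) = RC.ext i (bx i Q) (crd R).1 ∧
    (fun j => (crd (Function.update Q i R j)).2) = RC.ext i (byy i Q) (crd R).2 := by
  constructor <;>
  · funext j
    unfold RC.ext
    by_cases hj : j = i
    · subst hj
      rw [Function.update_self, dif_pos rfl]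
    · rw [Function.update_of_ne hj, dif_neg hj]
      rfl

end

end Pool.Agent.J4H11.GN
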