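import Pool.Agent.J4H11.GN.FinG

/-!
# Covers of products of elliptic curves: the main theorem
-/

set_option autoImplicit false

open Polynomial Module Pool.Agent.J4H11.RC Pool.Agent.J4H11.GC Pool.Agent.J4H11.SC
  Pool.Agent.H901R3.MS WeierstrassCurve

namespace Pool.Agent.J4H11.GN

section
variable {r : ℕ} (i : Fin r) {a b : Fin r → ℤ} {s : ℕ}

theorem obst_z (hDi : Disc (a i : ℚ) (b i : ℚ)) (xb yb : Bi i → ℂ)
    (hyb : ∀ j, yb j ^ 2 = xb j ^ 3 + ((a j : ℤ) : ℂ) * xb j + ((b j : ℤ) : ℂ))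
    (ζ : Fin s → ℂ) (hζ : ∀ t, IsIntegral (Algebra.adjoin ℤ (Set.range (pv xb yb))) (ζ t))
    (Φ : (MvPolynomial ((Fin r × Fin 2) ⊕ Fin s) ℤ)[X]) (hΦ : Φ.Monic)
    (M : Fin s → (MvPolynomial (Bi i × Fin 2) ℤ)[X])
    (hM : ∀ t, (M t).Monic) (hM0 : ∀ t, (M t).eval₂ (pth xb yb) (ζ t) = 0)
    (sp : ℕ → Prop) (N : ℕ) (hN2 : 2 ≤ N) (s0 : AZ xb yb ζ) (hs0 : s0 ≠ 0)
    (hloc : ∀ κ : ℝ, 0 < κ → ∃ T0 : ℕ, ∀ p : ℕ, T0 ≤ p → ∀ (_ : Fact p.Prime),
      Disc (a i : ZMod p) (b i : ZMod p) → sp p →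
      ∀ ψ0 : AZ xb yb ζ →+* ZMod p, ψ0 s0 ≠ 0 →
      ∀ (H : AddSubgroup (Pt (a i : ZMod p) (b i : ZMod p))) (P0 : Pt (a i : ZMod p) (b i : ZMod p)),
      (p : ℝ) ^ (1 / 2 + κ) ≤ (Nat.card H : ℝ) →
      N * {h : Pt (a i : ZMod p) (b i : ZMod p) | h ∈ H ∧
        (P0 + h = 0 ∨ 1 ≤ NE (Φ.map (part i xb yb ζ)) ψ0 (P0 + h))}.ncard ≤
          (N - 1) * Nat.card H) :
    ∃ Ψ : MvPolynomial (Bi i) ℤ, Ψ ≠ 0 ∧
      ObstP i a b sp Ψ N (fun z => LfZ i xb yb ζ Φ z) := by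
  classical
  obtain ⟨Ψ, hΨ0, hΨ⟩ := zelim xb yb ζ (fun j : Bi i => a j) (fun j : Bi i => b j) hyb hζ s0 hs0
  refine ⟨Ψ, hΨ0, fun κ hκ => ?_⟩
  obtain ⟨T0, hT0⟩ := hloc κ hκ
  refine ⟨max (max T0 4) ((2 * (4 * a i ^ 3 + 27 * b i ^ 2)).natAbs + 1),
    fun p hp hpp hsp ld z => ?_⟩
  have hpT : T0 ≤ p := (le_max_left _ _).trans ((le_max_left _ _).trans hp)
  have hp4 : 4 ≤ p := (le_max_right _ _).trans ((le_max_left _ _).trans hp)
  have hDp : Disc (a i : ZMod p) (b i : ZMod p) := by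
    apply disc_int (a i) (b i) hDi
    have := (le_max_right _ _).trans hp
    omega
  refine ⟨symZ i a b xb yb ζ Φ p (fun t => ld.v.r (z t)), ?_, ?_⟩
  · intro P hP hne
    exact lfz_red i xb yb ζ Φ hΦ M hM hM0 ld.v (fun j => ld.red j) ld.hred z P hP hne
  · intro Q hQ hQΨ H P0 hH
    set zz : Fin s → ZMod p := fun t => ld.v.r (z t) with hzz
    have hfinP : Finite (Pt (a i : ZMod p) (b i : ZMod p)) := finite_pt _ _
    by_cases hZ : IsZ xb yb ζ (bx i Q) (byy i Q) zz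
    · obtain ⟨ψ0, hψ0⟩ := zhom xb yb ζ (bx i Q) (byy i Q) zz hZ
      have hψs : ψ0 s0 ≠ 0 := hΨ (ZMod p) (bx i Q) (byy i Q) zz ψ0 hψ0 hQΨ
      refine le_trans (Nat.mul_le_mul_left _ ?_) (hT0 p hpT hpp hDp hsp ψ0 hψs H P0 hH)
      apply Set.ncard_le_ncard _ (Set.toFinite _)
      rintro h ⟨hh, h0⟩
      refine ⟨hh, ?_⟩
      rcases h0 with h0 | ⟨-, w, hw⟩
      · exact Or.inl h0
      · right
        obtain ⟨e1, e2⟩ := crd_update i Q (P0 + h)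
        rw [e1, e2] at hw
        have h3 : (Φ.map (part i xb yb ζ)).map (ev ψ0 (crd (P0 + h)).1 (crd (P0 + h)).2) =
            Φ.map (zth (RC.ext i (bx i Q) (crd (P0 + h)).1)
              (RC.ext i (byy i Q) (crd (P0 + h)).2) zz) := by
          rw [Polynomial.map_map, part_ev i xb yb ζ ψ0 (bx i Q) (byy i Q) zz hψ0]
        have h4 : Nonempty {w : ZMod p // ((Φ.map (part i xb yb ζ)).map
            (ev ψ0 (crd (P0 + h)).1 (crd (P0 + h)).2)).IsRoot w} := ⟨⟨w, by rw [h3]; exact hw⟩⟩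
        exact Nat.card_pos
    · have hsub : {h : Pt (a i : ZMod p) (b i : ZMod p) | h ∈ H ∧
          (P0 + h = 0 ∨ Function.update Q i (P0 + h) ∈ symZ i a b xb yb ζ Φ p zz)} ⊆ {-P0} := by
        rintro h ⟨-, h0⟩
        rcases h0 with h0 | ⟨h1, -⟩
        · rw [Set.mem_singleton_iff]
          exact (neg_eq_of_add_eq_zero_right h0).symm
        · exfalso
          apply hZ
          rw [bx_update, byy_update] at h1
          exact h1
      have h1 := Set.ncard_le_ncard hsub (Set.toFinite _)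
      rw [Set.ncard_singleton] at h1
      have h2 : (2 : ℝ) ≤ Nat.card H := by
        refine le_trans ?_ hH
        have hpR : (4 : ℝ) ≤ p := by exact_mod_cast hp4
        calc (2 : ℝ) = (4 : ℝ) ^ (1 / 2 : ℝ) := by
              rw [← Real.sqrt_eq_rpow]
              rw [show (4 : ℝ) = 2 ^ 2 by norm_num, Real.sqrt_sq (by norm_num)]
          _ ≤ (p : ℝ) ^ (1 / 2 : ℝ) := Real.rpow_le_rpow (by norm_num) hpR (by norm_num)
          _ ≤ (p : ℝ) ^ (1 / 2 + κ) :=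
              Real.rpow_le_rpow_of_exponent_le (by linarith) (by linarith)
      have h3 : 2 ≤ Nat.card H := by exact_mod_cast h2
      calc N * _ ≤ N * 1 := Nat.mul_le_mul_left _ h1
        _ ≤ (N - 1) * 2 := by omega
        _ ≤ (N - 1) * Nat.card H := Nat.mul_le_mul_left _ h3

theorem yh_ne {a' b' : ℤ} {xh yh : ℂ} (h : yh ^ 2 = xh ^ 3 + (a' : ℂ) * xh + (b' : ℂ))
    (ht : Transcendental ℚ xh) : yh ≠ 0 := by
  intro h0
  apply ht
  refine ⟨Polynomial.X ^ 3 + (Polynomial.C (a' : ℚ) * Polynomial.X + Polynomial.C (b' : ℚ)),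
    ?_, ?_⟩
  · refine (Polynomial.monic_X_pow_add ?_).ne_zero
    exact lt_of_le_of_lt Polynomial.degree_linear_le (by norm_num)
  · simp only [map_add, map_mul, map_pow, Polynomial.aeval_X, Polynomial.aeval_C]
    rw [h0] at h
    rw [eq_ratCast, eq_ratCast]
    push_cast
    linear_combination -h

theorem main_gen (hD : ∀ j, Disc (a j : ℚ) (b j : ℚ))
    (hinf : ∀ j, Infinite (Pt (a j : ℚ) (b j : ℚ)))
    (hrk : 3 ≤ finrank ℤ (Pt (a i : ℚ) (b i : ℚ)))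
    (xx yy : Fin r → ℂ) (hxx : AlgebraicIndependent ℚ xx)
    (hyy : ∀ j, yy j ^ 2 = xx j ^ 3 + ((a j : ℤ) : ℂ) * xx j + ((b j : ℤ) : ℂ))
    (xb yb : Bi i → ℂ) (hxb : xb = fun j : Bi i => xx j) (hyb : yb = fun j : Bi i => yy j)
    (ζ : Fin s → ℂ) (hζ : ∀ t, IsIntegral (Algebra.adjoin ℤ (Set.range (pv xb yb))) (ζ t))
    (Φ Θ : (MvPolynomial ((Fin r × Fin 2) ⊕ Fin s) ℤ)[X]) (hΦ : Φ.Monic) (hΘ : Θ.Monic)
    (hTΦ : TI (zth xb yb ζ).range.subtype (a i) (b i) (xx i) (yy i) (Φ.map (part i xb yb ζ)))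
    (hTΘ : TI (zth xb yb ζ).range.subtype (a i) (b i) (xx i) (yy i) (Θ.map (part i xb yb ζ)))
    (θ : ℂ) (hθ : (Θ.map (zth xx yy ζ)).IsRoot θ) (α : ℂ) (hα : IsIntegral ℤ α)
    {ν : ℕ} (hν : 2 ≤ ν) (w : Fin ν → ℂ) (hw : Function.Injective w)
    (hroot : ∀ t, (Φ.map (zth xx yy ζ)).IsRoot (w t))
    (hgen : ∀ t, w t ∈ Subfield.closure
      (Set.range xx ∪ Set.range yy ∪ Set.range ζ ∪ {θ, α}))
    (N : ℕ) (hN2 : 2 ≤ N) (hN : Θ.natDegree < N * (ν - 1))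
    (γ : ℝ) (hγ : 0 ≤ γ) (hγ1 : γ ≤ 1) (hγN : (1 - 1 / (N : ℝ)) * (1000 : ℝ) ^ (2 * γ) ≤ 1) :
    ∃ C : ℝ, 0 ≤ C ∧ ∀ (T : ℝ), 2 ≤ T → ∀ c : (j : Fin r) → Pt (a j : ℚ) (b j : ℚ),
      {P : (j : Fin r) → Pt (a j : ℚ) (b j : ℚ) | (∀ j, hx (P j - c j) ≤ T ^ 2) ∧
        Lf0Z i xb yb ζ Φ P}.Finite ∧
      ({P : (j : Fin r) → Pt (a j : ℚ) (b j : ℚ) | (∀ j, hx (P j - c j) ≤ T ^ 2) ∧
        Lf0Z i xb yb ζ Φ P}.ncard : ℝ) ≤
        C * T ^ (∑ j, finrank ℤ (Pt (a j : ℚ) (b j : ℚ))) * Real.log T ^ (-γ) := by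
  classical
  have hybc : ∀ j, yb j ^ 2 = xb j ^ 3 + ((a j : ℤ) : ℂ) * xb j + ((b j : ℤ) : ℂ) := by
    intro j
    rw [hxb, hyb]
    exact hyy j
  have htr : Transcendental (Algebra.adjoin ℚ (Set.range xb)) (xx i) := by
    rw [hxb]
    exact opt_trans i xx hxx
  have hxh := trans_z (fun j : Bi i => a j) (fun j : Bi i => b j) xb yb hybc (xx i) htr ζ hζ
  have hyi := hyy i
  have hyh : yy i ≠ 0 := yh_ne hyi (hxx.transcendental i)
  have hMex := fun t => exists_M xb yb ζ t (hζ t)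
  choose M hM hM0 using hMex
  obtain ⟨f, hf, hf0⟩ := hα
  set ι0 := (zth xb yb ζ).range.subtype with hι0
  have hι0inj : Function.Injective ι0 := Subtype.val_injective
  -- the evaluation at the very general point
  have hextx : RC.ext i xb (xx i) = xx := by
    funext j
    unfold RC.ext
    by_cases hj : j = i
    · rw [dif_pos hj, hj]
    · rw [dif_neg hj, hxb]
  have hexty : RC.ext i yb (yy i) = yy := by
    funext j
    unfold RC.ext
    by_cases hj : j = i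
    · rw [dif_pos hj, hj]
    · rw [dif_neg hj, hyb]
  have hev : (ev ι0 (xx i) (yy i)).comp (part i xb yb ζ) = zth xx yy ζ := by
    rw [part_ev i xb yb ζ ι0 xb yb ζ (fun G => rfl), hextx, hexty]
  -- the field generated by the coordinates
  have hle : Subfield.closure (Set.range xx ∪ Set.range yy ∪ Set.range ζ ∪ {θ, α}) ≤
      Subfield.closure (Set.range (hom1 ι0 (xx i) (yy i) hyi) ∪ {θ, α}) := by
    rw [Subfield.closure_le]
    have hc : ∀ c : AZ xb yb ζ, (c : ℂ) ∈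
        Subfield.closure (Set.range (hom1 ι0 (xx i) (yy i) hyi) ∪ {θ, α}) := by
      intro c
      apply Subfield.subset_closure
      left
      exact ⟨c1 _ _ _ c, hom1_c ι0 (xx i) (yy i) hyi c⟩
    rintro u (((⟨j, rfl⟩ | ⟨j, rfl⟩) | ⟨t, rfl⟩) | hu)
    · by_cases hj : j = i
      · rw [hj]
        apply Subfield.subset_closure
        left
        exact ⟨x1 _ _ _, hom1_x ι0 (xx i) (yy i) hyi⟩
      · have h1 := hc ((zth xb yb ζ).rangeRestrict (MvPolynomial.X (Sum.inl (⟨j, hj⟩, 0))))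
        have h2 : ((zth xb yb ζ).rangeRestrict (MvPolynomial.X (Sum.inl (⟨j, hj⟩, 0))) : ℂ) =
            xx j := by
          change zth xb yb ζ _ = _
          rw [zth_x, hxb]
        rwa [h2] at h1
    · by_cases hj : j = i
      · rw [hj]
        apply Subfield.subset_closure
        left
        exact ⟨y1 _ _ _, hom1_y ι0 (xx i) (yy i) hyi⟩
      · have h1 := hc ((zth xb yb ζ).rangeRestrict (MvPolynomial.X (Sum.inl (⟨j, hj⟩, 1))))
        have h2 : ((zth xb yb ζ).rangeRestrict (MvPolynomial.X (Sum.inl (⟨j, hj⟩, 1))) : ℂ) =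
            yy j := by
          change zth xb yb ζ _ = _
          rw [zth_y, hyb]
        rwa [h2] at h1
    · have h1 := hc ((zth xb yb ζ).rangeRestrict (MvPolynomial.X (Sum.inr t)))
      have h2 : ((zth xb yb ζ).rangeRestrict (MvPolynomial.X (Sum.inr t)) : ℂ) = ζ t := by
        change zth xb yb ζ _ = _
        rw [zth_z]
      rwa [h2] at h1
    · exact Subfield.subset_closure (Or.inr hu)
  have hΘd : (Θ.map (part i xb yb ζ)).natDegree < N * (ν - 1) :=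
    lt_of_le_of_lt natDegree_map_le hN
  obtain ⟨s0, hs0, hloc⟩ := locA ι0 (a i) (b i) hι0inj (xx i) (yy i) hxh hyi hyh
    (Φ.map (part i xb yb ζ)) (Θ.map (part i xb yb ζ)) (hΦ.map _) (hΘ.map _) hTΦ hTΘ θ
    (by rw [Polynomial.map_map, hev]; exact hθ) f hf α hf0 hν w hw
    (fun t => by rw [Polynomial.map_map, hev]; exact hroot t)
    (fun t => hle (hgen t)) N hΘd
  obtain ⟨Ψ, hΨ0, hOb⟩ := obst_z i (hD i) xb yb hybc ζ hζ Φ hΦ M hM hM0
    (fun p => (f.map (Int.castRingHom (ZMod p))).Splits) N hN2 s0 hs0 hloc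
  obtain ⟨cc, TT, hcc, hTT⟩ := many_primes f hf
  exact ball2 i (fun p => (f.map (Int.castRingHom (ZMod p))).Splits) cc TT hcc hTT hD hinf hrk
    Ψ hΨ0 N (by omega) (Lf0Z i xb yb ζ Φ) (fun z => LfZ i xb yb ζ Φ z) hOb _
    (fin1_z i xb yb ζ Φ M hM hM0) γ hγ hγ1 hγN

end

end Pool.Agent.J4H11.GN
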