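import Pool.Agent.J4H11.GC.Tow3
import Pool.Agent.J4H11.RC.Core2

/-!
# Good primes at every scale, in a set of primes
-/

set_option autoImplicit false

namespace Pool.Agent.J4H11.GN

open Finset MvPolynomial WeierstrassCurve Pool.Agent.H901R3.MS Pool.Agent.J4H11.RC
  Pool.Agent.J4H11.GC

section
variable {r : ℕ} (i : Fin r) {a b : Fin r → ℤ}

/-- a good prime for the tower sieve at the scale `y` -/
def GoodP (sp : ℕ → Prop) (f : Fin 3 → Pt (a i : ℚ) (b i : ℚ)) (R : (j : Fin r) → Pt (a j : ℚ) (b j : ℚ))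
    (N1 y M p : ℕ) : Prop :=
  p.Prime ∧ p ≤ y ∧ N1 < p ∧ sp p ∧ ∃ s : ℕ, (y : ℝ) ^ (1 / 2 + 1 / 20 : ℝ) ≤
    (((s + 1) ^ 3 : ℕ) : ℝ) ∧
    ∀ (_ : Fact p.Prime) (ld : LD a b p), (∀ j, ⌈(y : ℝ) ^ (3 / 10 : ℝ)⌉₊ < addOrderOf (ld.red j (R j))) ∧
      ∀ v : Fin 3 → ℤ, (∀ t, |v t| ≤ s) → v ≠ 0 → ∑ t, v t • (M • ld.red i (f t)) ≠ 0

theorem good_towerP (sp : ℕ → Prop) [DecidablePred sp] (c : ℝ) (T : ℕ) (hc : 0 < c)
    (hT : ∀ y : ℕ, T ≤ y → c * ((y : ℝ) / Real.log y) ≤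
      (((Icc 1 y).filter (fun p => p.Prime ∧ sp p)).card : ℝ))
    (hD : ∀ j, Disc (a j : ℚ) (b j : ℚ))
    (f : Fin 3 → Pt (a i : ℚ) (b i : ℚ)) (hf : ∀ m : Fin 3 → ℤ, m ≠ 0 → ∑ t, m t • f t ≠ 0)
    (R : (j : Fin r) → Pt (a j : ℚ) (b j : ℚ)) (hR : ∀ j, ∀ n : ℕ, 0 < n → n • R j ≠ 0)
    (N1 : ℕ) :
    ∃ Y : ℕ, ∀ y : ℕ, Y ≤ y → ∀ M : ℕ, 1 ≤ M → (M : ℝ) ≤ (y : ℝ) ^ (1 / 100 : ℝ) →
      ∃ p : ℕ, GoodP i sp f R N1 y M p := by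
  classical
  have hord := fun j => primes_ord (a j) (b j) (hD j) (R j) (hR j)
  choose C1 hC10 hC1 using hord
  obtain ⟨C2, hC20, hC2⟩ := primes_vec (a i) (b i) (hD i) f hf
  set A : ℝ := ((N1 : ℝ) + 1) + 8 * (∑ j, C1 j) + C2 with hA
  have hS0 : 0 ≤ ∑ j, C1 j := sum_nonneg fun j _ => hC10 j
  have hA0 : 0 ≤ A := by positivity
  obtain ⟨Y1, hY1⟩ := asyA A (c / 2) (1 / 20) (by linarith) (by norm_num)
  refine ⟨max T (max Y1 3), fun y hy M hM hMy => ?_⟩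
  have hyT : T ≤ y := (le_max_left _ _).trans hy
  have hyY1 : Y1 ≤ y := (le_max_left _ _).trans ((le_max_right _ _).trans hy)
  have hy3 : 3 ≤ y := (le_max_right _ _).trans ((le_max_right _ _).trans hy)
  have hyR : (3 : ℝ) ≤ y := by exact_mod_cast hy3
  have hy1 : (1 : ℝ) ≤ y := by linarith
  have hy0 : (0 : ℝ) < y := by linarith
  have hypow1 : ∀ e : ℝ, 0 ≤ e → 1 ≤ (y : ℝ) ^ e := fun e he => Real.one_le_rpow hy1 he
  set PF0 := (Icc 1 y).filter (fun p => p.Prime ∧ sp p) with hPF0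
  have hcardPF := hT y hyT
  have mem_PF0 : ∀ p, p ∈ PF0 → p ≤ y ∧ p.Prime ∧ sp p := by
    intro p hp
    rw [hPF0, mem_filter, mem_Icc] at hp
    exact ⟨hp.1.2, hp.2.1, hp.2.2⟩
  set z : ℕ := ⌈(y : ℝ) ^ (3 / 10 : ℝ)⌉₊ with hz
  have hz1 : 1 ≤ z := by
    rw [hz, Nat.one_le_ceil_iff]
    exact Real.rpow_pos_of_pos hy0 _
  have hz3 : (z : ℝ) ^ 3 ≤ 8 * (y : ℝ) ^ (9 / 10 : ℝ) := by
    have h1 : (z : ℝ) ≤ 2 * (y : ℝ) ^ (3 / 10 : ℝ) := by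
      have h2 := (Nat.ceil_lt_add_one (Real.rpow_nonneg hy0.le (3 / 10 : ℝ))).le
      have h4 := hypow1 (3 / 10) (by norm_num)
      rw [← hz] at h2
      linarith
    have h2 : (z : ℝ) ^ 3 ≤ (2 * (y : ℝ) ^ (3 / 10 : ℝ)) ^ 3 :=
      pow_le_pow_left₀ (Nat.cast_nonneg _) h1 3
    have h4 : ((y : ℝ) ^ (3 / 10 : ℝ)) ^ 3 = (y : ℝ) ^ (9 / 10 : ℝ) := by
      rw [← Real.rpow_natCast, ← Real.rpow_mul hy0.le]
      norm_num
    calc (z : ℝ) ^ 3 ≤ (2 * (y : ℝ) ^ (3 / 10 : ℝ)) ^ 3 := h2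
      _ = 8 * ((y : ℝ) ^ (3 / 10 : ℝ)) ^ 3 := by ring
      _ = _ := by rw [h4]
  set s : ℕ := ⌊(y : ℝ) ^ (37 / 200 : ℝ)⌋₊ with hs
  have hs1 : 1 ≤ s := by
    rw [hs, Nat.one_le_floor_iff]
    exact hypow1 _ (by norm_num)
  have hsle : (s : ℝ) ≤ (y : ℝ) ^ (37 / 200 : ℝ) := Nat.floor_le (Real.rpow_nonneg hy0.le _)
  have hs5 : (s : ℝ) ^ (3 + 2) ≤ (y : ℝ) ^ (37 / 40 : ℝ) := by
    have h1 : (s : ℝ) ^ (3 + 2) ≤ ((y : ℝ) ^ (37 / 200 : ℝ)) ^ (3 + 2) :=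
      pow_le_pow_left₀ (Nat.cast_nonneg _) hsle _
    have h2 : ((y : ℝ) ^ (37 / 200 : ℝ)) ^ (3 + 2) = (y : ℝ) ^ (37 / 40 : ℝ) := by
      rw [← Real.rpow_natCast, ← Real.rpow_mul hy0.le]
      norm_num
    rw [← h2]
    exact h1
  have hs3 : (y : ℝ) ^ (1 / 2 + 1 / 20 : ℝ) ≤ (((s + 1) ^ 3 : ℕ) : ℝ) := by
    have h1 : (y : ℝ) ^ (37 / 200 : ℝ) ≤ (s : ℝ) + 1 := (Nat.lt_floor_add_one _).le
    have h2 : ((y : ℝ) ^ (37 / 200 : ℝ)) ^ 3 ≤ ((s : ℝ) + 1) ^ 3 :=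
      pow_le_pow_left₀ (Real.rpow_nonneg hy0.le _) h1 _
    have h3 : ((y : ℝ) ^ (37 / 200 : ℝ)) ^ 3 = (y : ℝ) ^ (111 / 200 : ℝ) := by
      rw [← Real.rpow_natCast, ← Real.rpow_mul hy0.le]
      norm_num
    have h4 : (y : ℝ) ^ (1 / 2 + 1 / 20 : ℝ) ≤ (y : ℝ) ^ (111 / 200 : ℝ) := by
      apply Real.rpow_le_rpow_of_exponent_le hy1
      norm_num
    push_cast
    linarith
  -- the exceptional primes
  set E0 := PF0.filter (fun p => p ≤ N1) with hE0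
  set E1 : Fin r → Finset ℕ := fun j =>
    PF0.filter (fun p => ∃ n ∈ Icc 1 z, zr p (n • R j)) with hE1
  set E2 := PF0.filter (fun p => ∃ m : Fin 3 → ℤ, (∀ t, |m t| ≤ s) ∧ m ≠ 0 ∧
      zr p (M • ∑ t, m t • f t)) with hE2
  have hcE0 : (E0.card : ℝ) ≤ N1 + 1 := by
    have h1 : E0.card ≤ (range (N1 + 1)).card := by
      apply card_le_card
      intro p hp
      rw [hE0, mem_filter] at hp
      rw [mem_range]
      omega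
    rw [card_range] at h1
    exact_mod_cast h1
  have hcE1 : ∀ j, ((E1 j).card : ℝ) ≤ C1 j * (8 * (y : ℝ) ^ (9 / 10 : ℝ)) := by
    intro j
    refine (hC1 j z hz1 (E1 j) fun p hp => ?_).trans (mul_le_mul_of_nonneg_left hz3 (hC10 j))
    simp only [hE1, mem_filter] at hp
    exact ⟨(mem_PF0 p hp.1).2.1, hp.2⟩
  have hM2 : (M : ℝ) ^ 2 ≤ (y : ℝ) ^ (1 / 50 : ℝ) := by
    have h1 : (M : ℝ) ^ 2 ≤ ((y : ℝ) ^ (1 / 100 : ℝ)) ^ 2 :=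
      pow_le_pow_left₀ (Nat.cast_nonneg _) hMy 2
    have h2 : ((y : ℝ) ^ (1 / 100 : ℝ)) ^ 2 = (y : ℝ) ^ (1 / 50 : ℝ) := by
      rw [← Real.rpow_natCast, ← Real.rpow_mul hy0.le]
      norm_num
    rwa [h2] at h1
  have hcE2 : (E2.card : ℝ) ≤ C2 * (y : ℝ) ^ (19 / 20 : ℝ) := by
    refine (hC2 s M hs1 hM E2 fun p hp => ?_).trans ?_
    · rw [hE2, mem_filter] at hp
      exact ⟨(mem_PF0 p hp.1).2.1, hp.2⟩
    · rw [mul_assoc]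
      apply mul_le_mul_of_nonneg_left _ hC20
      calc (M : ℝ) ^ 2 * (s : ℝ) ^ (3 + 2) ≤ (y : ℝ) ^ (1 / 50 : ℝ) * (y : ℝ) ^ (37 / 40 : ℝ) :=
            mul_le_mul hM2 hs5 (by positivity) (Real.rpow_nonneg hy0.le _)
        _ = (y : ℝ) ^ (1 / 50 + 37 / 40 : ℝ) := (Real.rpow_add hy0 _ _).symm
        _ ≤ (y : ℝ) ^ (19 / 20 : ℝ) :=
            Real.rpow_le_rpow_of_exponent_le hy1 (by norm_num)
  by_contra hcon
  push Not at hcon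
  have hcover : PF0 ⊆ (E0 ∪ (univ.biUnion fun j => E1 j)) ∪ E2 := by
    intro p hp
    by_contra hne
    simp only [mem_union, mem_biUnion, mem_univ, true_and, not_or, not_exists] at hne
    obtain ⟨⟨hc0, hc1⟩, hc2⟩ := hne
    obtain ⟨hpy, hpp, hpr⟩ := mem_PF0 p hp
    apply hcon p
    refine ⟨hpp, hpy, ?_, hpr, s, hs3, ?_⟩
    · by_contra h
      exact hc0 (mem_filter.2 ⟨hp, by omega⟩)
    · intro hfact ld
      refine ⟨fun j => ord_gt ld j (R j) z (fun h => hc1 j ?_), fun v hv hv0 h0 => ?_⟩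
      · simp only [hE1, mem_filter]
        exact ⟨hp, h⟩
      · apply hc2
        rw [hE2, mem_filter]
        refine ⟨hp, v, hv, hv0, ?_⟩
        apply zr_of_red ld.v (a i) (b i) (ld.red i) (ld.hred i)
        rw [← h0, map_nsmul, map_sum, smul_sum]
        refine sum_congr rfl fun t _ => ?_
        rw [map_zsmul, smul_comm]
  have hcount : (PF0.card : ℝ) ≤ (E0.card + ∑ j, ((E1 j).card : ℝ)) + E2.card := by
    have h1 := card_le_card hcover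
    have h2 := card_union_le (E0 ∪ (univ.biUnion fun j => E1 j)) E2
    have h4 := card_union_le E0 (univ.biUnion fun j => E1 j)
    have h7 : (univ.biUnion fun j => E1 j).card ≤ ∑ j, (E1 j).card := card_biUnion_le
    have h8 : PF0.card ≤ (E0.card + ∑ j, (E1 j).card) + E2.card := by omega
    exact_mod_cast h8
  have hsum : ∑ j, ((E1 j).card : ℝ) ≤ (∑ j, C1 j) * (8 * (y : ℝ) ^ (9 / 10 : ℝ)) := by
    rw [sum_mul]
    exact sum_le_sum fun j _ => hcE1 j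
  have hpw1 : (y : ℝ) ^ (9 / 10 : ℝ) ≤ (y : ℝ) ^ (1 - 1 / 20 : ℝ) :=
    Real.rpow_le_rpow_of_exponent_le hy1 (by norm_num)
  have hpw2 : (y : ℝ) ^ (19 / 20 : ℝ) = (y : ℝ) ^ (1 - 1 / 20 : ℝ) := by norm_num
  have hpw3 : 1 ≤ (y : ℝ) ^ (1 - 1 / 20 : ℝ) := hypow1 _ (by norm_num)
  have hexc : (PF0.card : ℝ) ≤ A * (y : ℝ) ^ (1 - 1 / 20 : ℝ) := by
    refine hcount.trans ?_
    have e0 : (E0.card : ℝ) ≤ ((N1 : ℝ) + 1) * (y : ℝ) ^ (1 - 1 / 20 : ℝ) := by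
      refine hcE0.trans ?_
      have : (0 : ℝ) ≤ (N1 : ℝ) + 1 := by positivity
      nlinarith
    have e1 : ∑ j, ((E1 j).card : ℝ) ≤
        (8 * ∑ j, C1 j) * (y : ℝ) ^ (1 - 1 / 20 : ℝ) := by
      refine hsum.trans ?_
      have := mul_le_mul_of_nonneg_left hpw1 (mul_nonneg (by norm_num : (0 : ℝ) ≤ 8) hS0)
      linarith
    have e2 : (E2.card : ℝ) ≤ C2 * (y : ℝ) ^ (1 - 1 / 20 : ℝ) := by
      rw [← hpw2]
      exact hcE2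
    rw [hA]
    have e3 : ((N1 : ℝ) + 1 + 8 * (∑ j, C1 j) + C2) * (y : ℝ) ^ (1 - 1 / 20 : ℝ) =
        ((N1 : ℝ) + 1) * (y : ℝ) ^ (1 - 1 / 20 : ℝ) +
          (8 * ∑ j, C1 j) * (y : ℝ) ^ (1 - 1 / 20 : ℝ) +
        C2 * (y : ℝ) ^ (1 - 1 / 20 : ℝ) := by ring
    rw [e3]
    linarith
  have hfin := hY1 y hyY1
  have hlog : 0 < Real.log y := Real.log_pos (by linarith)
  have hpos : 0 < c * (y / Real.log y) := by positivity
  have h9 : c * ((y : ℝ) / Real.log y) ≤ c / 2 * (y / Real.log y) :=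
    (hcardPF.trans hexc).trans hfin
  linarith

end

end Pool.Agent.J4H11.GN
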