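import Mathlib

/-!
# The ring generated by a root of an irreducible polynomial
-/

set_option autoImplicit false

open Polynomial

namespace Pool.Agent.J4H11.GN

/-- the evaluation at a root is injective -/
theorem inj2 {R K F : Type} [CommRing R] [IsDomain R] [Field K] [Field F] (ι : R →+* K)
    (hι : Function.Injective ι) (j : R →+* F) (hj : Function.Injective j) (g : R[X])
    (hg : g.Monic) (hirr : Irreducible (g.map j)) (θ : K) (hθ : g.eval₂ ι θ = 0) :
    Function.Injective (AdjoinRoot.lift ι θ hθ) := by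
  rw [injective_iff_map_eq_zero]
  intro x hx
  obtain ⟨f, rfl⟩ := AdjoinRoot.mk_surjective x
  rw [AdjoinRoot.lift_mk] at hx
  set h := f %ₘ g with hh
  have hfh : f = h + g * (f /ₘ g) := (modByMonic_add_div f g).symm
  have hh0 : eval₂ ι θ h = 0 := by
    rw [hfh, eval₂_add, eval₂_mul, hθ, zero_mul, add_zero] at hx
    exact hx
  let K1 := FractionRing R
  let j1 : K1 →+* F := IsFractionRing.lift hj
  let ι1 : K1 →+* K := IsFractionRing.lift hι
  have hj1 : j1.comp (algebraMap R K1) = j := RingHom.ext fun x => IsFractionRing.lift_algebraMap hj x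
  have hι1 : ι1.comp (algebraMap R K1) = ι :=
    RingHom.ext fun x => IsFractionRing.lift_algebraMap hι x
  set g' := g.map (algebraMap R K1) with hg'
  have hg'm : g'.Monic := hg.map _
  have hg'i : Irreducible g' := by
    apply Monic.irreducible_of_irreducible_map j1 g' hg'm
    rw [hg', Polynomial.map_map, hj1]
    exact hirr
  let _ : Algebra K1 K := ι1.toAlgebra
  have h1 : aeval θ g' = 0 := by
    rw [aeval_def, hg', eval₂_map]
    change eval₂ (ι1.comp (algebraMap R K1)) θ g = 0
    rw [hι1]
    exact hθ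
  have h2 : aeval θ (h.map (algebraMap R K1)) = 0 := by
    rw [aeval_def, eval₂_map]
    change eval₂ (ι1.comp (algebraMap R K1)) θ h = 0
    rw [hι1]
    exact hh0
  have hmin : g' = minpoly K1 θ := minpoly.eq_of_irreducible_of_monic hg'i h1 hg'm
  have hdvd : g' ∣ h.map (algebraMap R K1) := by
    rw [hmin]
    exact minpoly.dvd K1 θ h2
  have hinj : Function.Injective (algebraMap R K1) := IsFractionRing.injective R K1
  have hh' : h = 0 := by
    by_contra hne
    have hne' : h.map (algebraMap R K1) ≠ 0 := (Polynomial.map_ne_zero_iff hinj).2 hne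
    have h3 := degree_le_of_dvd hdvd hne'
    rw [degree_map_eq_of_injective hinj, degree_map_eq_of_injective hinj] at h3
    exact absurd h3 (not_le.2 (degree_modByMonic_lt f hg))
  rw [AdjoinRoot.mk_eq_zero, hfh, hh', zero_add]
  exact dvd_mul_right _ _

/-- a multiple which lies in the smaller ring -/
theorem down {R S : Type} [CommRing R] [Nontrivial R] [CommRing S] [IsDomain S] [Algebra R S]
    (s : S) (hs : s ≠ 0) (hint : IsIntegral R s) :
    ∃ (r : R) (t : S), r ≠ 0 ∧ algebraMap R S r = s * t := by
  have h1 := Ideal.comap_ne_bot_of_integral_mem (I := Ideal.span {s}) hs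
    (Ideal.mem_span_singleton_self s) hint
  obtain ⟨Ψ, hΨ1, hΨ2⟩ := Submodule.exists_mem_ne_zero_of_ne_bot h1
  rw [Ideal.mem_comap, Ideal.mem_span_singleton] at hΨ1
  obtain ⟨t, ht⟩ := hΨ1
  exact ⟨Ψ, t, hΨ2, ht⟩

end Pool.Agent.J4H11.GN
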