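import Pool.Agent.J4H11.GN.FamA
import Pool.Agent.J4H11.GN.Abs
import Pool.Agent.J4H11.SC.LocS4

/-!
# The sums of the numbers of roots over the cosets
-/

set_option autoImplicit false

open Finset Pool.Agent.J4H11.RC Pool.Agent.J4H11.GC Pool.Agent.J4H11.SC Pool.Agent.H901R3.MS
  WeierstrassCurve

namespace Pool.Agent.J4H11.GN

section
variable {A0 : Type} [CommRing A0] (a b : ℤ)

/-- the mean values given by `famA` -/
def FamP (φ1 φ2 : Polynomial (MvPolynomial (Fin 2) A0)) (s0 : A0) (m : ℕ) (Cst : ℝ) : Prop :=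
    ∀ (k : Type) [Field k] [Finite k] [DecidableEq k] (ψ0 : A0 →+* k), ψ0 s0 ≠ 0 →
    Disc (a : k) (b : k) → ∃ S : Finset k, S.card ≤ m ∧
    ∀ (h : Pt (a : k) (b : k)), h ≠ 0 → (crd h).1 ∉ S → (crd h).2 ≠ 0 →
    ∀ [Fintype {R : Pt (a : k) (b : k) // R ≠ 0 ∧ R + h ≠ 0}],
    |∑ R : {R : Pt (a : k) (b : k) // R ≠ 0 ∧ R + h ≠ 0},
      ((NE φ1 ψ0 R.1 * NE φ2 ψ0 (R.1 + h) : ℕ) : ℝ) - Nat.card k| ≤
        Cst * √(Nat.card k : ℝ)

theorem ne_le {k : Type} [Field k] (φ : Polynomial (MvPolynomial (Fin 2) A0)) (hφ : φ.Monic)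
    (ψ0 : A0 →+* k) {a' b' : k} (R : Pt a' b') : NE φ ψ0 R ≤ φ.natDegree := by
  classical
  unfold NE
  set g := φ.map (ev ψ0 (crd R).1 (crd R).2) with hg
  have hgm : g.Monic := hφ.map _
  have h1 : Nat.card {w : k // g.IsRoot w} ≤ g.roots.toFinset.card := by
    have e : {w : k // g.IsRoot w} ≃ (g.roots.toFinset : Set k) :=
      Equiv.subtypeEquivRight (fun w => by
        rw [Finset.mem_coe, Multiset.mem_toFinset, Polynomial.mem_roots hgm.ne_zero])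
    rw [Nat.card_congr e, Nat.card_coe_set_eq, Set.ncard_coe_finset]
  refine h1.trans ((Multiset.toFinset_card_le _).trans ((Polynomial.card_roots' g).trans ?_))
  rw [hg]
  exact Polynomial.natDegree_map_le

theorem ne_X {k : Type} [Field k] (ψ0 : A0 →+* k) {a' b' : k} (R : Pt a' b') :
    NE (Polynomial.X : Polynomial (MvPolynomial (Fin 2) A0)) ψ0 R = 1 := by
  unfold NE
  rw [Polynomial.map_X]
  have e : {w : k // (Polynomial.X : Polynomial k).IsRoot w} ≃ Unit :=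
    { toFun := fun _ => ()
      invFun := fun _ => ⟨0, by simp⟩
      left_inv := fun w => by
        apply Subtype.ext
        have := w.2
        rw [Polynomial.IsRoot.def, Polynomial.eval_X] at this
        exact this.symm
      right_inv := fun _ => rfl }
  rw [Nat.card_congr e]
  simp

variable {p : ℕ} [Fact p.Prime] (ψ0 : A0 →+* ZMod p)
  [Fintype (Pt (a : ZMod p) (b : ZMod p))] [DecidableEq (Pt (a : ZMod p) (b : ZMod p))]

theorem pair_a (φ1 φ2 : Polynomial (MvPolynomial (Fin 2) A0)) (s0 : A0) (m : ℕ) (Cst : ℝ)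
    (hF : FamP a b φ1 φ2 s0 m Cst) (hDp : Disc (a : ZMod p) (b : ZMod p))
    (hΨ : ψ0 s0 ≠ 0) :
    ∃ S : Finset (ZMod p), S.card ≤ m ∧ ∀ h : Pt (a : ZMod p) (b : ZMod p), h ≠ 0 →
      (crd h).1 ∉ S → (crd h).2 ≠ 0 →
      |∑ R, M0 (NE φ1 ψ0) R * M0 (NE φ2 ψ0) (R + h) - p| ≤ Cst * √(p : ℝ) := by
  classical
  obtain ⟨S, hS, hmain⟩ := hF (ZMod p) ψ0 hΨ hDp
  refine ⟨S, hS, fun h h0 hhS hh2 => ?_⟩
  have key := hmain h h0 hhS hh2
  rw [Nat.card_zmod] at key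
  set I := {R : Pt (a : ZMod p) (b : ZMod p) // R ≠ 0 ∧ R + h ≠ 0} with hI
  have e1 : ∀ R : I, ((NE φ1 ψ0 R.1 * NE φ2 ψ0 (R.1 + h) : ℕ) : ℝ) =
      M0 (NE φ1 ψ0) R.1 * M0 (NE φ2 ψ0) (R.1 + h) := by
    intro R
    unfold M0
    rw [if_pos R.2.1, if_pos R.2.2]
    push_cast
    rfl
  have e2 : ∑ R : I, M0 (NE φ1 ψ0) R.1 * M0 (NE φ2 ψ0) (R.1 + h) =
      ∑ R, M0 (NE φ1 ψ0) R * M0 (NE φ2 ψ0) (R + h) := by
    rw [← Finset.sum_subtype (univ.filter (fun R : Pt (a : ZMod p) (b : ZMod p) =>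
      R ≠ 0 ∧ R + h ≠ 0)) (fun R => by simp) (fun R => M0 (NE φ1 ψ0) R *
        M0 (NE φ2 ψ0) (R + h))]
    rw [Finset.sum_filter]
    refine Finset.sum_congr rfl fun R _ => ?_
    split_ifs with hR
    · rfl
    · unfold M0
      rw [not_and_or, not_not, not_not] at hR
      rcases hR with hR | hR
      · rw [if_neg (not_not.2 hR), zero_mul]
      · rw [if_neg (fun h : R + _ ≠ 0 => h hR), mul_zero]
  rw [Finset.sum_congr rfl fun R _ => e1 R, e2] at key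
  exact key

theorem coset_a (φ : Polynomial (MvPolynomial (Fin 2) A0)) (hφ : φ.Monic) (D : ℕ)
    (hD : 1 ≤ D) (hφD : φ.natDegree ≤ D)
    (s1 s2 : A0) (m1 m2 : ℕ) (C1 C2 : ℝ) (hC1 : 0 ≤ C1) (hC2 : 0 ≤ C2)
    (hF1 : FamP a b φ φ s1 m1 C1) (hF2 : FamP a b φ Polynomial.X s2 m2 C2)
    (hDp : Disc (a : ZMod p) (b : ZMod p)) (hp2 : p ≠ 2)
    (hΨ1 : ψ0 s1 ≠ 0) (hΨ2 : ψ0 s2 ≠ 0)
    (hbig : 3 * (m1 + m2) + 5 < Fintype.card (Pt (a : ZMod p) (b : ZMod p)))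
    (H : AddSubgroup (Pt (a : ZMod p) (b : ZMod p))) [DecidablePred (· ∈ H)]
    (P0 : Pt (a : ZMod p) (b : ZMod p)) :
    |∑ h ∈ univ.filter (· ∈ H), M0 (NE φ ψ0) (P0 + h) - (univ.filter (· ∈ H)).card| ≤
      √(((3 * (m1 + m2) + 5 : ℕ) : ℝ) * (D : ℝ) ^ 2 *
        Fintype.card (Pt (a : ZMod p) (b : ZMod p)) +
        (univ.filter (· ∈ H)).card * (4 * ((C1 + C2) * √(p : ℝ) + D + 2 * √(p : ℝ) + 1))) := by
  classical
  set N := NE φ ψ0 (a' := (a : ZMod p)) (b' := (b : ZMod p)) with hN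
  have hs0 : 0 ≤ √(p : ℝ) := Real.sqrt_nonneg _
  have hNd : ∀ R, N R ≤ D := fun R => (ne_le φ hφ ψ0 R).trans hφD
  obtain ⟨S1, hS1, k1⟩ := pair_a a b ψ0 φ φ s1 m1 C1 hF1 hDp hΨ1
  obtain ⟨S2, hS2, k2⟩ := pair_a a b ψ0 φ Polynomial.X s2 m2 C2 hF2 hDp hΨ2
  set S := S1 ∪ S2 with hS
  have hScard : S.card ≤ m1 + m2 := by
    have e1 : S.card ≤ S1.card + S2.card := card_union_le _ _
    omega
  set Bad := univ.filter (fun h : Pt (a : ZMod p) (b : ZMod p) =>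
    h = 0 ∨ (crd h).1 ∈ S ∨ (crd h).2 = 0) with hBad
  have hBadc : Bad.card ≤ 3 * (m1 + m2) + 5 := by
    have h5 : Bad.card ≤ 3 * S.card + 5 := by
      convert bad_le hDp hp2 S
    omega
  have hnb : ∀ h, h ∉ Bad → h ≠ 0 ∧ (crd h).1 ∉ S ∧ (crd h).2 ≠ 0 := by
    intro h hh
    rw [hBad, mem_filter, not_and] at hh
    have := hh (mem_univ _)
    rw [not_or, not_or] at this
    exact this
  have hm1 : ∀ z, z ∉ S → z ∉ S1 := fun z hz h => hz (by simp [hS, h])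
  have hm2 : ∀ z, z ∉ S → z ∉ S2 := fun z hz h => hz (by simp [hS, h])
  have hDR : (1 : ℝ) ≤ D := by exact_mod_cast hD
  have hM0 : ∀ R, 0 ≤ M0 N R := by
    intro R
    unfold M0
    split_ifs
    · positivity
    · exact le_rfl
  have hMd : ∀ R, M0 N R ≤ D := by
    intro R
    unfold M0
    split_ifs
    · exact_mod_cast hNd R
    · positivity
  have hC1s : 0 ≤ C1 * √(p : ℝ) := by positivity
  have hC2s : 0 ≤ C2 * √(p : ℝ) := by positivity
  -- the mean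
  obtain ⟨h0, hh0⟩ : ∃ h0, h0 ∉ Bad := by
    by_contra hcon
    push Not at hcon
    have : Bad = univ := by ext h; simp [hcon h]
    rw [this, card_univ] at hBadc
    omega
  obtain ⟨g1, g2, g3⟩ := hnb h0 hh0
  have hmean : |∑ R, M0 N R - ∑ R, M0 N R * M0 (NE Polynomial.X ψ0) (R + h0)| ≤ D := by
    rw [← sum_sub_distrib]
    have e1 : ∀ R ∈ (univ : Finset (Pt (a : ZMod p) (b : ZMod p))),
        M0 N R - M0 N R * M0 (NE Polynomial.X ψ0) (R + h0) =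
        if R = -h0 then M0 N (-h0) else 0 := by
      intro R _
      unfold M0
      by_cases hR : R = -h0
      · rw [if_pos hR]
        subst hR
        have e2 : ¬ (-h0 + h0 ≠ 0) := by simp
        rw [if_neg e2, mul_zero, sub_zero]
      · rw [if_neg hR]
        have e2 : R + h0 ≠ 0 := fun h => hR (eq_neg_of_add_eq_zero_left h)
        rw [if_pos e2, ne_X, Nat.cast_one, mul_one, sub_self]
    rw [sum_congr rfl e1, sum_ite_eq' univ (-h0), if_pos (mem_univ _), abs_of_nonneg (hM0 _)]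
    exact hMd _
  have h2 : |∑ R, M0 N R - p| ≤ (C1 + C2) * √(p : ℝ) + D + 2 * √(p : ℝ) + 1 := by
    have f2 := k2 h0 g1 (hm2 _ g2) g3
    have f3 := abs_sub_le (∑ R, M0 N R)
      (∑ R, M0 N R * M0 (NE Polynomial.X ψ0) (R + h0)) (p : ℝ)
    linarith
  have h3 : |(Fintype.card (Pt (a : ZMod p) (b : ZMod p)) : ℝ) - p| ≤
      (C1 + C2) * √(p : ℝ) + D + 2 * √(p : ℝ) + 1 := by
    have f1 := abs_le.1 (hasse hDp hp2)
    rw [Nat.card_eq_fintype_card] at f1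
    rw [abs_le]
    constructor
    · linarith [f1.1]
    · linarith [f1.2]
  refine coset_sum N D hD hNd (p : ℝ) _ _ Bad (by exact_mod_cast hBadc) ?_ h2 h3 H P0
  intro h hh
  obtain ⟨g1, g2, g3⟩ := hnb h hh
  refine (k1 h g1 (hm1 _ g2) g3).trans ?_
  linarith

end

end Pool.Agent.J4H11.GN
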