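import Pool.Agent.J4H11.GN.FamA
import Pool.Agent.J4H11.GN.Inj2
import Pool.Agent.J4H11.RC.Chev

/-!
# Roots of a polynomial which are rational functions of a root of another polynomial
-/

set_option autoImplicit false

open Polynomial Module Pool.Agent.J4H11.RC Pool.Agent.J4H11.SC Pool.Agent.H901R3.MS
  WeierstrassCurve

namespace Pool.Agent.J4H11.GN

theorem noeth_adj {R : Type} [CommRing R] [IsNoetherianRing R] (g : R[X]) :
    IsNoetherianRing (AdjoinRoot g) :=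
  isNoetherianRing_of_surjective _ _ (AdjoinRoot.mk g) AdjoinRoot.mk_surjective

/-- a root of a polynomial which splits lies in the field -/
theorem root_in {k K : Type} [Field k] [Field K] (e : k →+* K) (f : k[X]) (hf : f.Splits)
    (hf0 : f ≠ 0) (x : K) (hx : (f.map e).IsRoot x) : ∃ y : k, e y = x := by
  have h1 : x ∈ (f.map e).roots := by
    rw [mem_roots ((Polynomial.map_ne_zero_iff e.injective).2 hf0)]
    exact hx
  rw [hf.roots_map e, Multiset.mem_map] at h1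
  obtain ⟨y, -, hy⟩ := h1
  exact ⟨y, hy⟩

/-- the values of the elements of the subring generated by a subset -/
theorem val_in {S K : Type} [CommRing S] [Field K] (ψ : S →+* K) (k : Subring K) (T : Set S)
    (hT : ∀ x ∈ T, ψ x ∈ k) (x : S) (hx : x ∈ Subring.closure T) : ψ x ∈ k := by
  have h1 : Subring.closure T ≤ k.comap ψ := by
    rw [Subring.closure_le]
    intro y hy
    exact hT y hy
  exact h1 hx

theorem pairA {A0 kb F : Type} [CommRing A0] [IsDomain A0] [IsNoetherianRing A0] [Field kb]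
    [Field F] [Algebra kb F] (ι0 : A0 →+* kb) (hι0 : Function.Injective ι0) (a b : ℤ)
    (xh yh : kb) (hxh : ∀ p : A0[X], p.eval₂ ι0 xh = 0 → p = 0)
    (hyn : yh ^ 2 = xh ^ 3 + (a : kb) * xh + (b : kb))
    (X Y : F) (hE : Y ^ 2 = X ^ 3 + (a : F) * X + (b : F)) (hX : Transcendental kb X)
    (φ θp : (MvPolynomial (Fin 2) A0)[X]) (hθm : θp.Monic)
    (hirr : Irreducible (θp.map (ev ((algebraMap kb F).comp ι0) X Y)))
    (θ : kb) (hθ : (θp.map (ev ι0 xh yh)).IsRoot θ)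
    (f : ℤ[X]) (hf : f.Monic) (α : kb) (hα : aeval α f = 0)
    {ν : ℕ} (w : Fin ν → kb) (hw : Function.Injective w)
    (hroot : ∀ t, (φ.map (ev ι0 xh yh)).IsRoot (w t))
    (hgen : ∀ t, w t ∈ Subfield.closure (Set.range (hom1 ι0 xh yh hyn) ∪ {θ, α})) :
    ∃ (s0 : A0) (m : ℕ), s0 ≠ 0 ∧ ∀ (k : Type) [Field k] [Finite k]
      (ψ0 : A0 →+* k), ψ0 s0 ≠ 0 → (f.map (Int.castRingHom k)).Splits →
      ∃ S : Finset k, S.card ≤ m ∧ ∀ (R : Pt (a : k) (b : k)), R ≠ 0 → (crd R).1 ∉ S →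
        1 ≤ NE θp ψ0 R → ν ≤ NE φ ψ0 R := by
  classical
  set ι1 : A1 A0 a b →+* kb := hom1 ι0 xh yh hyn with hι1
  have hι1inj : Function.Injective ι1 := hom1_inj ι0 xh yh hxh hyn
  have hdom : IsDomain (A1 A0 a b) := hι1inj.isDomain _
  have hn1 : IsNoetherianRing (A1 A0 a b) := noeth_adj _
  set E1 : MvPolynomial (Fin 2) A0 →+* A1 A0 a b := ev (c1 A0 a b) (x1 A0 a b) (y1 A0 a b)
    with hE1
  have hEv : ∀ {S : Type} [CommRing S] (ψ : A0 →+* S) (x0 y0 : S)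
      (h : y0 ^ 2 = x0 ^ 3 + (a : S) * x0 + (b : S)),
      (hom1 ψ x0 y0 h).comp E1 = ev ψ x0 y0 := by
    intro S _ ψ x0 y0 h
    rw [hE1, ev_comp, hom1_x, hom1_y]
    congr 1
    exact RingHom.ext fun c => hom1_c ψ x0 y0 h c
  set Θ1 : (A1 A0 a b)[X] := θp.map E1 with hΘ1
  have hΘm : Θ1.Monic := hθm.map _
  set jF : A1 A0 a b →+* F := hom1 ((algebraMap kb F).comp ι0) X Y hE with hjF
  have hjFinj : Function.Injective jF := by
    refine hom1_inj _ X Y ?_ hE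
    intro p hp
    have h1 : aeval X (p.map ι0) = 0 := by
      rw [aeval_def, eval₂_map]
      exact hp
    have h2 : p.map ι0 = 0 := by
      by_contra h3
      exact hX ⟨_, h3, h1⟩
    exact (Polynomial.map_eq_zero_iff hι0).1 h2
  have hirr1 : Irreducible (Θ1.map jF) := by
    rw [hΘ1, Polynomial.map_map, hEv]
    exact hirr
  have hθ1 : Θ1.eval₂ ι1 θ = 0 := by
    rw [hΘ1, eval₂_map, hEv, ← eval_map]
    exact hθ
  set ι2 : AdjoinRoot Θ1 →+* kb := AdjoinRoot.lift ι1 θ hθ1 with hι2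
  have hι2inj : Function.Injective ι2 := inj2 ι1 hι1inj jF hjFinj Θ1 hΘm hirr1 θ hθ1
  have hdom2 : IsDomain (AdjoinRoot Θ1) := hι2inj.isDomain _
  have hn2 : IsNoetherianRing (AdjoinRoot Θ1) := noeth_adj _
  -- the roots as fractions
  have hfr : ∀ t, ∃ y ∈ Subring.closure (Set.range ι1 ∪ {θ, α}),
      ∃ z ∈ Subring.closure (Set.range ι1 ∪ {θ, α}), z ≠ 0 ∧ w t * z = y := by
    intro t
    obtain ⟨y, hy, z, hz, hyz⟩ := Subfield.mem_closure_iff.1 (hgen t)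
    by_cases h0 : z = 0
    · refine ⟨0, Subring.zero_mem _, 1, Subring.one_mem _, one_ne_zero, ?_⟩
      rw [← hyz, h0, div_zero, zero_mul]
    · refine ⟨y, hy, z, hz, h0, ?_⟩
      rw [← hyz, div_mul_cancel₀ _ h0]
  choose y hy z hz hz0 hyz using hfr
  set δ : kb := ∏ tt ∈ Finset.univ.filter (fun tt : Fin ν × Fin ν => tt.1 ≠ tt.2),
    (w tt.1 - w tt.2) with hδ
  have hδ0 : δ ≠ 0 := by
    rw [hδ, Finset.prod_ne_zero_iff]
    intro tt htt
    rw [Finset.mem_filter] at htt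
    rw [sub_ne_zero]
    exact fun h => htt.2 (hw h)
  let _ : Algebra (AdjoinRoot Θ1) kb := ι2.toAlgebra
  set Tset : Set kb := {α} ∪ (Set.range w ∪ (Set.range (fun t => (z t)⁻¹) ∪ {δ⁻¹})) with hTset
  have hTfin : Tset.Finite := (Set.finite_singleton _).union ((Set.finite_range _).union
    ((Set.finite_range _).union (Set.finite_singleton _)))
  set SS : Subalgebra (AdjoinRoot Θ1) kb := Algebra.adjoin (AdjoinRoot Θ1) Tset with hSS
  have hft : Algebra.FiniteType (AdjoinRoot Θ1) SS :=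
    (Subalgebra.fg_iff_finiteType SS).1 (Subalgebra.fg_def.2 ⟨Tset, hTfin, rfl⟩)
  have hinjS : Function.Injective (algebraMap (AdjoinRoot Θ1) SS) := by
    intro u v huv
    apply hι2inj
    exact congrArg Subtype.val huv
  obtain ⟨s2, hs2, hchev⟩ := chev hinjS
  have hfin2 : Module.Finite (A1 A0 a b) (AdjoinRoot Θ1) := hΘm.finite_adjoinRoot
  obtain ⟨s1, t1, hs1, hst⟩ := down (R := A1 A0 a b) s2 hs2 (IsIntegral.of_finite _ s2)
  obtain ⟨s0, m, hs0, helim⟩ := elim1 s1 hs1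
  refine ⟨s0, m, hs0, ?_⟩
  intro k _ _ ψ0 hψ0 hsplit
  obtain ⟨S, hS, hS2⟩ := helim k ψ0 hψ0
  refine ⟨S, hS, fun R hR hxR hN => ?_⟩
  rcases R with _ | ⟨x0, y0, hns0⟩
  · exact absurd rfl hR
  change x0 ∉ S at hxR
  set ψ1 : A1 A0 a b →+* k := hom1 ψ0 x0 y0 (eqn_of hns0) with hψ1
  have hψs1 : ψ1 s1 ≠ 0 := hS2 x0 hxR ψ1 (hom1_c ψ0 x0 y0 _) (hom1_x ψ0 x0 y0 _)
  -- the root of the second polynomial
  have hne1 : Nonempty {w : k // (θp.map (ev ψ0 x0 y0)).IsRoot w} := by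
    by_contra hcon
    rw [not_nonempty_iff] at hcon
    have h1 : NE θp ψ0 (Affine.Point.some x0 y0 hns0 : Pt (a : k) (b : k)) = 0 := by
      change Nat.card {w : k // (θp.map (ev ψ0 x0 y0)).IsRoot w} = 0
      exact Nat.card_of_isEmpty
    omega
  obtain ⟨⟨θ0, hθ0⟩⟩ := hne1
  have hEv1 : ψ1.comp E1 = ev ψ0 x0 y0 := hEv ψ0 x0 y0 _
  have hθ0' : Θ1.eval₂ ψ1 θ0 = 0 := by
    rw [hΘ1, eval₂_map, hEv1, ← eval_map]
    exact hθ0
  set ψ2 : AdjoinRoot Θ1 →+* k := AdjoinRoot.lift ψ1 θ0 hθ0' with hψ2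
  have hψ2o : ∀ c, ψ2 (algebraMap (A1 A0 a b) (AdjoinRoot Θ1) c) = ψ1 c := fun c =>
    AdjoinRoot.lift_of hθ0'
  have hψs2 : ψ2 s2 ≠ 0 := by
    intro h0
    apply hψs1
    rw [← hψ2o, hst, map_mul, h0, zero_mul]
  let kc := AlgebraicClosure k
  let e : k →+* kc := algebraMap k kc
  obtain ⟨Ψ, hΨ⟩ := hchev kc (e.comp ψ2) (fun h0 => hψs2 (e.injective (h0.trans (map_zero e).symm)))
  have hΨo : ∀ c, Ψ (algebraMap (AdjoinRoot Θ1) SS c) = e (ψ2 c) := fun c =>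
    DFunLike.congr_fun hΨ c
  -- the elements of `SS`
  have hmem : ∀ x ∈ Tset, x ∈ SS := fun x hx => Algebra.subset_adjoin hx
  have hαm : α ∈ SS := hmem _ (Or.inl rfl)
  have hwm : ∀ t, w t ∈ SS := fun t => hmem _ (Or.inr (Or.inl ⟨t, rfl⟩))
  have hzm : ∀ t, (z t)⁻¹ ∈ SS := fun t => hmem _ (Or.inr (Or.inr (Or.inl ⟨t, rfl⟩)))
  have hδm : δ⁻¹ ∈ SS := hmem _ (Or.inr (Or.inr (Or.inr rfl)))
  have h2m : ∀ c : AdjoinRoot Θ1, ι2 c ∈ SS := fun c => SS.algebraMap_mem c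
  have h1m : ∀ c, ι1 c ∈ SS := by
    intro c
    have h1 : ι1 c = ι2 (AdjoinRoot.of Θ1 c) := (AdjoinRoot.lift_of hθ1).symm
    rw [h1]
    exact h2m _
  have hθm' : θ ∈ SS := by
    have h1 : θ = ι2 (AdjoinRoot.root Θ1) := (AdjoinRoot.lift_root hθ1).symm
    rw [h1]
    exact h2m _
  have hΨ1 : ∀ c, Ψ ⟨ι1 c, h1m c⟩ = e (ψ1 c) := by
    intro c
    have h1 : (⟨ι1 c, h1m c⟩ : SS) = algebraMap (AdjoinRoot Θ1) SS (AdjoinRoot.of Θ1 c) :=
      Subtype.ext (AdjoinRoot.lift_of hθ1).symm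
    rw [h1, hΨo]
    congr 1
    exact AdjoinRoot.lift_of hθ0'
  have hΨθ : Ψ ⟨θ, hθm'⟩ = e θ0 := by
    have h1 : (⟨θ, hθm'⟩ : SS) = algebraMap (AdjoinRoot Θ1) SS (AdjoinRoot.root Θ1) :=
      Subtype.ext (AdjoinRoot.lift_root hθ1).symm
    rw [h1, hΨo]
    congr 1
    exact AdjoinRoot.lift_root hθ0'
  -- the value of `α`
  have hΨα : ∃ α0 : k, e α0 = Ψ ⟨α, hαm⟩ := by
    apply root_in e (f.map (Int.castRingHom k)) hsplit (hf.map _).ne_zero
    rw [IsRoot.def, Polynomial.map_map, eval_map]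
    have h1 : aeval (⟨α, hαm⟩ : SS) f = 0 := by
      apply Subtype.ext
      have h2 := aeval_algHom_apply (SS.val.restrictScalars ℤ) (⟨α, hαm⟩ : SS) f
      exact h2.symm.trans hα
    have h2 := congrArg Ψ h1
    rw [aeval_def, hom_eval₂, map_zero] at h2
    have h3 : (e.comp (Int.castRingHom k)) = Ψ.comp (algebraMap ℤ SS) := RingHom.ext_int _ _
    rw [h3]
    exact h2
  -- the values lie in `k`
  have hcl : ∀ x : kb, x ∈ Subring.closure (Set.range ι1 ∪ {θ, α}) → ∃ hx : x ∈ SS,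
      ∃ x0 : k, e x0 = Ψ ⟨x, hx⟩ := by
    intro x hx
    have h1 : Subring.closure (Set.range ι1 ∪ {θ, α}) ≤
        (e.range.comap Ψ).map SS.toSubring.subtype := by
      rw [Subring.closure_le]
      rintro x (⟨c, rfl⟩ | rfl | rfl)
      · exact ⟨⟨ι1 c, h1m c⟩, ⟨ψ1 c, (hΨ1 c).symm⟩, rfl⟩
      · exact ⟨⟨_, hθm'⟩, ⟨θ0, hΨθ.symm⟩, rfl⟩
      · obtain ⟨α0, hα0⟩ := hΨα
        exact ⟨⟨_, hαm⟩, ⟨α0, hα0⟩, rfl⟩
    obtain ⟨x', ⟨x0, hx0⟩, rfl⟩ := h1 hx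
    exact ⟨x'.2, x0, hx0⟩
  have hwk : ∀ t, ∃ w0 : k, e w0 = Ψ ⟨w t, hwm t⟩ := by
    intro t
    obtain ⟨hy1, y0', hy0'⟩ := hcl _ (hy t)
    obtain ⟨hz1, z0', hz0'⟩ := hcl _ (hz t)
    have h1 : (⟨z t, hz1⟩ : SS) * ⟨(z t)⁻¹, hzm t⟩ = 1 :=
      Subtype.ext (mul_inv_cancel₀ (hz0 t))
    have h2 := congrArg Ψ h1
    rw [map_mul, map_one] at h2
    have h3 : Ψ ⟨z t, hz1⟩ ≠ 0 := left_ne_zero_of_mul (by rw [h2]; exact one_ne_zero)
    have h4 : (⟨w t, hwm t⟩ : SS) * ⟨z t, hz1⟩ = ⟨y t, hy1⟩ := Subtype.ext (hyz t)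
    have h5 := congrArg Ψ h4
    rw [map_mul] at h5
    refine ⟨y0' / z0', ?_⟩
    rw [map_div₀, hy0', hz0', ← h5, mul_div_cancel_right₀ _ h3]
  choose w0 hw0 using hwk
  have hw0inj : Function.Injective w0 := by
    intro t t' htt
    by_contra hne
    have h1 : (⟨δ, by
        rw [hδ]
        exact Subalgebra.prod_mem _ fun tt _ => SS.sub_mem (hwm _) (hwm _)⟩ : SS) *
        ⟨δ⁻¹, hδm⟩ = 1 := Subtype.ext (mul_inv_cancel₀ hδ0)
    have h2 : (⟨δ, by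
        rw [hδ]
        exact Subalgebra.prod_mem _ fun tt _ => SS.sub_mem (hwm _) (hwm _)⟩ : SS) =
        ∏ tt ∈ Finset.univ.filter (fun tt : Fin ν × Fin ν => tt.1 ≠ tt.2),
          ((⟨w tt.1, hwm _⟩ : SS) - ⟨w tt.2, hwm _⟩) := by
      apply Subtype.ext
      exact (map_prod SS.val (fun tt : Fin ν × Fin ν =>
        ((⟨w tt.1, hwm _⟩ : SS) - ⟨w tt.2, hwm _⟩))
        (Finset.univ.filter (fun tt : Fin ν × Fin ν => tt.1 ≠ tt.2))).symm
    rw [h2] at h1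
    have h3 := congrArg Ψ h1
    rw [map_mul, map_prod, map_one] at h3
    have h4 : ∏ tt ∈ Finset.univ.filter (fun tt : Fin ν × Fin ν => tt.1 ≠ tt.2),
        Ψ ((⟨w tt.1, hwm _⟩ : SS) - ⟨w tt.2, hwm _⟩) = 0 := by
      apply Finset.prod_eq_zero (i := (t, t')) (Finset.mem_filter.2 ⟨Finset.mem_univ _, hne⟩)
      rw [map_sub, ← hw0, ← hw0, htt, sub_self]
    rw [h4, zero_mul] at h3
    exact zero_ne_one h3
  have hw0root : ∀ t, (φ.map (ev ψ0 x0 y0)).IsRoot (w0 t) := by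
    intro t
    rw [IsRoot.def]
    apply e.injective
    rw [map_zero, ← eval_map_apply, hw0 t, Polynomial.map_map, ← hEv ψ0 x0 y0 (eqn_of hns0)]
    let j1 : A1 A0 a b →+* SS := (algebraMap (AdjoinRoot Θ1) SS).comp (AdjoinRoot.of Θ1)
    have h1 : eval (⟨w t, hwm t⟩ : SS) ((φ.map E1).map j1) = 0 := by
      apply Subtype.ext
      have h2 : SS.val.toRingHom (eval (⟨w t, hwm t⟩ : SS) ((φ.map E1).map j1)) =
          eval (w t) (((φ.map E1).map j1).map SS.val.toRingHom) :=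
        (eval_map_apply _ _).symm
      refine h2.trans ?_
      rw [Polynomial.map_map]
      have h3 : SS.val.toRingHom.comp j1 = ι1 := RingHom.ext fun c => AdjoinRoot.lift_of hθ1
      rw [h3, Polynomial.map_map, hEv]
      exact hroot t
    have h4 := congrArg Ψ h1
    rw [map_zero, ← eval_map_apply, Polynomial.map_map] at h4
    have h5 : Ψ.comp j1 = e.comp ψ1 := RingHom.ext fun c => by
      change Ψ (algebraMap (AdjoinRoot Θ1) SS (AdjoinRoot.of Θ1 c)) = e (ψ1 c)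
      rw [hΨo]
      congr 1
      exact AdjoinRoot.lift_of hθ0'
    rw [h5, Polynomial.map_map] at h4
    exact h4
  change ν ≤ Nat.card {w : k // (φ.map (ev ψ0 x0 y0)).IsRoot w}
  have h1 : Function.Injective (fun t : Fin ν =>
      (⟨w0 t, hw0root t⟩ : {w : k // (φ.map (ev ψ0 x0 y0)).IsRoot w})) := by
    intro t t' h
    exact hw0inj (congrArg Subtype.val h)
  have h2 := Nat.card_le_card_of_injective _ h1
  rwa [Nat.card_fin] at h2

end Pool.Agent.J4H11.GN
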