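import Pool.Agent.J4H11.GN.LocA1
import Pool.Agent.J4H11.GN.PairA

/-!
# The local condition
-/

set_option autoImplicit false

open Finset Pool.Agent.J4H11.RC Pool.Agent.J4H11.GC Pool.Agent.J4H11.SC Pool.Agent.H901R3.MS
  WeierstrassCurve

namespace Pool.Agent.J4H11.GN

theorem sqrt_bd (u β D E p q C' Cs r : ℝ) (hu : u ≤ β) (hβ : 0 ≤ β) (hE0 : 0 ≤ E) (hE : E ≤ 4 * p)
    (hq : 0 ≤ q) (hr : 1 ≤ r) (hC : C' ≤ Cs) (hD : 0 ≤ D) :
    √(u * D ^ 2 * E + q * (4 * (C' * r + D + 2 * r + 1))) ≤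
      √(4 * (β * D ^ 2) * p + q * (4 * (Cs + D + 3) * r)) := by
  apply Real.sqrt_le_sqrt
  have f1 : u * D ^ 2 * E ≤ β * D ^ 2 * (4 * p) := by
    have g0 : 0 ≤ D ^ 2 := by positivity
    have g1 : u * D ^ 2 * E ≤ β * D ^ 2 * E :=
      mul_le_mul_of_nonneg_right (mul_le_mul_of_nonneg_right hu g0) hE0
    exact g1.trans (mul_le_mul_of_nonneg_left hE (mul_nonneg hβ g0))
  have g1 : C' * r ≤ Cs * r := mul_le_mul_of_nonneg_right hC (by linarith)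
  have g2 : D ≤ D * r := by nlinarith
  have f3 : C' * r + D + 2 * r + 1 ≤ (Cs + D + 3) * r := by linarith
  have f4 : q * (C' * r + D + 2 * r + 1) ≤ q * ((Cs + D + 3) * r) :=
    mul_le_mul_of_nonneg_left f3 hq
  linarith

section
variable {A0 : Type} [CommRing A0] (a b : ℤ)

open Classical in
theorem loc_fin (φ θp : Polynomial (MvPolynomial (Fin 2) A0)) (hφ : φ.Monic) (hθ : θp.Monic)
    (hθ1 : 1 ≤ θp.natDegree) (s : Fin 5 → A0) (m : Fin 5 → ℕ) (Cst : Fin 4 → ℝ)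
    (hC : ∀ t, 0 ≤ Cst t)
    (hF1 : FamP a b φ φ (s 0) (m 0) (Cst 0)) (hF2 : FamP a b φ Polynomial.X (s 1) (m 1) (Cst 1))
    (hF3 : FamP a b θp θp (s 2) (m 2) (Cst 2)) (hF4 : FamP a b θp Polynomial.X (s 3) (m 3) (Cst 3))
    (ν : ℕ) (hν : 2 ≤ ν) (sp : ℕ → Prop)
    (hpair : ∀ (p : ℕ) [Fact p.Prime] (ψ0 : A0 →+* ZMod p), ψ0 (s 4) ≠ 0 → sp p →
      ∃ S : Finset (ZMod p), S.card ≤ m 4 ∧ ∀ (R : Pt (a : ZMod p) (b : ZMod p)), R ≠ 0 →
        (crd R).1 ∉ S → 1 ≤ NE θp ψ0 R → ν ≤ NE φ ψ0 R)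
    (N : ℕ) (hN : θp.natDegree < N * (ν - 1)) (κ : ℝ) (hκ : 0 < κ) :
    ∃ T0 : ℕ, ∀ p : ℕ, T0 ≤ p → ∀ (_ : Fact p.Prime), Disc (a : ZMod p) (b : ZMod p) → sp p →
      ∀ ψ0 : A0 →+* ZMod p, (∀ t, ψ0 (s t) ≠ 0) →
      ∀ (H : AddSubgroup (Pt (a : ZMod p) (b : ZMod p))) (P0 : Pt (a : ZMod p) (b : ZMod p)),
      (p : ℝ) ^ (1 / 2 + κ) ≤ (Nat.card H : ℝ) →
      N * {h : Pt (a : ZMod p) (b : ZMod p) | h ∈ H ∧
        (P0 + h = 0 ∨ 1 ≤ NE φ ψ0 (P0 + h))}.ncard ≤ (N - 1) * Nat.card H := by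
  set n := θp.natDegree with hn
  set D := φ.natDegree + n with hD
  set M : ℕ := m 0 + m 1 + m 2 + m 3 with hM
  set β : ℕ := 3 * M + 5 with hβ
  set Z : ℕ := 3 * m 4 + 5 with hZdef
  set Cs : ℝ := Cst 0 + Cst 1 + Cst 2 + Cst 3 with hCs
  have c0 := hC 0
  have c1 := hC 1
  have c2 := hC 2
  have c3 := hC 3
  have hCs0 : 0 ≤ Cs := by rw [hCs]; linarith
  have hν1 : (2 : ℝ) ≤ ν := by exact_mod_cast hν
  have hn1 : (1 : ℝ) ≤ n := by exact_mod_cast hθ1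
  have hDR : (1 : ℝ) ≤ D := by
    have : 1 ≤ D := by omega
    exact_mod_cast this
  have hN1 : 1 ≤ N := by
    by_contra h
    have : N = 0 := by omega
    rw [this, zero_mul] at hN
    omega
  have hNR : (1 : ℝ) ≤ N := by exact_mod_cast hN1
  obtain ⟨T1, hT1⟩ := asy_loc (4 * ((β : ℝ) * (D : ℝ) ^ 2)) (4 * (Cs + D + 3))
    (N * (n + (ν - 1))) (N * (ν * n * Z)) κ (by positivity) (by positivity)
    (mul_nonneg (by linarith) (by linarith)) hκ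
  refine ⟨max T1 ((β + 2) ^ 2 + 3), fun p hp hpp hDp hsp ψ0 hψ0 H P0 hH => ?_⟩
  have hp1 : T1 ≤ p := (le_max_left _ _).trans hp
  have hp2' : (β + 2) ^ 2 + 3 ≤ p := (le_max_right _ _).trans hp
  have hp2 : p ≠ 2 := by
    have : 0 ≤ (β + 2) ^ 2 := Nat.zero_le _
    omega
  have hfin : Finite (Pt (a : ZMod p) (b : ZMod p)) := finite_pt _ _
  let _ := Fintype.ofFinite (Pt (a : ZMod p) (b : ZMod p))
  obtain ⟨S, hS, hS2⟩ := hpair p ψ0 (hψ0 4) hsp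
  set good : Pt (a : ZMod p) (b : ZMod p) → Prop := fun R => R ≠ 0 ∧ (crd R).1 ∉ S with hgood
  have hZ : (univ.filter (fun R => ¬ good R)).card ≤ Z := by
    have h1 : (univ.filter (fun R => ¬ good R)).card ≤
        (univ.filter (fun h : Pt (a : ZMod p) (b : ZMod p) =>
          h = 0 ∨ (crd h).1 ∈ S ∨ (crd h).2 = 0)).card := by
      apply card_le_card
      intro R hR
      rw [mem_filter] at hR ⊢
      refine ⟨hR.1, ?_⟩
      have h2 := hR.2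
      rw [hgood, not_and_or, not_not, not_not] at h2
      rcases h2 with h2 | h2
      · exact Or.inl h2
      · exact Or.inr (Or.inl h2)
    have h2 : (univ.filter (fun h : Pt (a : ZMod p) (b : ZMod p) =>
          h = 0 ∨ (crd h).1 ∈ S ∨ (crd h).2 = 0)).card ≤ 3 * S.card + 5 := by
      convert bad_le hDp hp2 S
    omega
  have hhasse := abs_le.1 (hasse hDp hp2)
  rw [Nat.card_eq_fintype_card] at hhasse
  set E : ℝ := (Fintype.card (Pt (a : ZMod p) (b : ZMod p)) : ℝ) with hE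
  have hpR : (1 : ℝ) ≤ p := by exact_mod_cast hpp.out.one_le
  set r : ℝ := √(p : ℝ) with hr
  have hr1 : 1 ≤ r := by rw [hr]; exact Real.one_le_sqrt.2 hpR
  have hrr : r * r = p := Real.mul_self_sqrt (by linarith)
  have hbig : β < Fintype.card (Pt (a : ZMod p) (b : ZMod p)) := by
    have e1 : ((β : ℝ) + 2) ^ 2 ≤ p := by
      have : (β + 2) ^ 2 ≤ p := by omega
      exact_mod_cast this
    have e2 : (β : ℝ) + 2 ≤ r := Real.le_sqrt_of_sq_le e1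
    have e3 : (β : ℝ) < E := by
      have e4 : ((β : ℝ) + 1) ^ 2 ≤ (r - 1) ^ 2 :=
        pow_le_pow_left₀ (by positivity) (by linarith) 2
      have e5 : (0 : ℝ) ≤ β := Nat.cast_nonneg _
      nlinarith [hhasse.1]
    rw [hE] at e3
    exact_mod_cast e3
  have hE0 : 0 ≤ E := Nat.cast_nonneg _
  have hE4 : E ≤ 4 * p := by nlinarith [hhasse.2]
  set q : ℕ := Nat.card H with hq
  have hHcard : (univ.filter (· ∈ H)).card = q := by
    rw [hq, Nat.card_eq_fintype_card, Fintype.card_subtype]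
  have hq0 : (0 : ℝ) ≤ q := Nat.cast_nonneg _
  set δ : ℝ := √(4 * ((β : ℝ) * (D : ℝ) ^ 2) * p + q * (4 * (Cs + D + 3) * r)) with hδ
  have hsq : ∀ (m' : ℕ) (C' : ℝ), m' ≤ M → C' ≤ Cs →
      √(((3 * m' + 5 : ℕ) : ℝ) * (D : ℝ) ^ 2 * E + q * (4 * (C' * r + D + 2 * r + 1))) ≤ δ := by
    intro m' C' hm' hC's
    refine sqrt_bd _ β D E p q C' Cs r ?_ (Nat.cast_nonneg _) hE0 hE4 hq0 hr1 hC's (by linarith)
    have : 3 * m' + 5 ≤ β := by omega
    exact_mod_cast this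
  have k1 := coset_a a b ψ0 φ hφ D (by omega) (by omega) (s 0) (s 1) (m 0) (m 1) (Cst 0) (Cst 1)
    c0 c1 hF1 hF2 hDp hp2 (hψ0 0) (hψ0 1) (by omega) H P0
  have k2 := coset_a a b ψ0 θp hθ D (by omega) (by omega) (s 2) (s 3) (m 2) (m 3) (Cst 2) (Cst 3)
    c2 c3 hF3 hF4 hDp hp2 (hψ0 2) (hψ0 3) (by omega) H P0
  rw [hHcard, ← hr, ← hE] at k1 k2
  have hs1 := hsq (m 0 + m 1) (Cst 0 + Cst 1) (by omega) (by
    rw [hCs]; linarith)
  have hs2 := hsq (m 2 + m 3) (Cst 2 + Cst 3) (by omega) (by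
    rw [hCs]; linarith)
  have k1' := k1.trans hs1
  have k2' := k2.trans hs2
  have key := loc_two (NE φ ψ0) (NE θp ψ0) good n ν hθ1 hν (fun R => ne_le θp hθ ψ0 R)
    (fun R hR => hR.1) (fun R hR h1 => hS2 R hR.1 hR.2 h1) δ δ Z (by exact_mod_cast hZ) H P0
    (by rw [hHcard]; exact k1') (by rw [hHcard]; exact k2')
  rw [hHcard] at key
  have has := hT1 p hp1 q hH
  set T := univ.filter (fun h => h ∈ H ∧ (¬ good (P0 + h) ∨ 1 ≤ NE φ ψ0 (P0 + h))) with hT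
  have hTc : (N : ℝ) * T.card ≤ (N - 1) * q := by
    have h1 : (N : ℝ) * (n * T.card) ≤ N * ((n - (ν - 1)) * q + (n * δ + (ν - 1) * δ) + ν * n * Z) :=
      mul_le_mul_of_nonneg_left key (by linarith)
    have h2 : (n : ℝ) + 1 ≤ N * (ν - 1) := by
      obtain ⟨ν', hν'⟩ : ∃ ν', ν = ν' + 1 := ⟨ν - 1, by omega⟩
      have h3 : (ν : ℝ) - 1 = ν' := by rw [hν']; push_cast; ring
      rw [h3]
      have h4 : n + 1 ≤ N * ν' := by
        rw [hν', Nat.add_sub_cancel] at hN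
        exact hN
      exact_mod_cast h4
    have h3 : ((n : ℝ) + 1) * q ≤ N * (ν - 1) * q := mul_le_mul_of_nonneg_right h2 hq0
    have h4 : (n : ℝ) * (N * T.card) ≤ n * ((N - 1) * q) := by
      have h5 : (N : ℝ) * (n + (ν - 1)) * δ + N * (ν * n * Z) ≤ q := has
      linarith
    exact le_of_mul_le_mul_left h4 (by linarith)
  have hsub : {h : Pt (a : ZMod p) (b : ZMod p) | h ∈ H ∧
        (P0 + h = 0 ∨ 1 ≤ NE φ ψ0 (P0 + h))} ⊆ (T : Set _) := by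
    rintro h ⟨hh, h0⟩
    rw [mem_coe, hT, mem_filter]
    refine ⟨mem_univ _, hh, ?_⟩
    rcases h0 with h0 | h0
    · left
      exact fun hg => hg.1 h0
    · exact Or.inr h0
  have h5 : {h : Pt (a : ZMod p) (b : ZMod p) | h ∈ H ∧
        (P0 + h = 0 ∨ 1 ≤ NE φ ψ0 (P0 + h))}.ncard ≤ T.card := by
    rw [← Set.ncard_coe_finset]
    exact Set.ncard_le_ncard hsub (Finset.finite_toSet _)
  obtain ⟨N', hN'⟩ : ∃ N', N = N' + 1 := ⟨N - 1, by omega⟩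
  have h6 : N * T.card ≤ (N - 1) * q := by
    rw [hN', Nat.add_sub_cancel]
    have e1 : (N : ℝ) = N' + 1 := by exact_mod_cast hN'
    rw [e1, add_sub_cancel_right] at hTc
    exact_mod_cast hTc
  exact (Nat.mul_le_mul_left _ h5).trans h6

end

end Pool.Agent.J4H11.GN
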