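import Pool.Agent.J4H11.GN.LocA2

/-!
# The local condition: conclusion
-/

set_option autoImplicit false

open Polynomial Pool.Agent.J4H11.RC Pool.Agent.J4H11.GC Pool.Agent.J4H11.SC
  Pool.Agent.H901R3.MS WeierstrassCurve

namespace Pool.Agent.J4H11.GN

/-- the slope of the line through the generic point and a point -/
noncomputable def tL (a' b' xh yh : ℂ) : FFd a' b' :=
  (gY a' b' - algebraMap ℂ (FFd a' b') yh) / (gX a' b' - algebraMap ℂ (FFd a' b') xh)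

/-- the coordinate `x` of the translate of the generic point -/
noncomputable def tX (a' b' xh yh : ℂ) : FFd a' b' :=
  tL a' b' xh yh ^ 2 - gX a' b' - algebraMap ℂ (FFd a' b') xh

/-- the coordinate `y` of the translate of the generic point -/
noncomputable def tY (a' b' xh yh : ℂ) : FFd a' b' :=
  -(algebraMap ℂ (FFd a' b') yh + tL a' b' xh yh *
    (tX a' b' xh yh - algebraMap ℂ (FFd a' b') xh))

section
variable {A0 : Type} [CommRing A0] (ι0 : A0 →+* ℂ) (a b : ℤ)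

/-- the polynomial over the function field, at the generic point -/
noncomputable def GI (φ : (MvPolynomial (Fin 2) A0)[X]) : (FFd (a : ℂ) (b : ℂ))[X] :=
  φ.map (ev ((algebraMap ℂ (FFd (a : ℂ) (b : ℂ))).comp ι0) (gX (a : ℂ) (b : ℂ))
    (gY (a : ℂ) (b : ℂ)))

/-- the polynomial over the function field, at the translate of the generic point -/
noncomputable def GT (xh yh : ℂ) (φ : (MvPolynomial (Fin 2) A0)[X]) :
    (FFd (a : ℂ) (b : ℂ))[X] :=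
  φ.map (ev ((algebraMap ℂ (FFd (a : ℂ) (b : ℂ))).comp ι0) (tX (a : ℂ) (b : ℂ) xh yh)
    (tY (a : ℂ) (b : ℂ) xh yh))

/-- irreducible, and irreducible together with its translate -/
def TI (xh yh : ℂ) (φ : (MvPolynomial (Fin 2) A0)[X]) : Prop :=
  Irreducible (GI ι0 a b φ) ∧
    Irreducible ((GT ι0 a b xh yh φ).map (AdjoinRoot.of (GI ι0 a b φ)))

theorem famT [IsDomain A0] (xh yh : ℂ)
    (hxh : ∀ p : A0[X], p.eval₂ ι0 xh = 0 → p = 0)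
    (hyn : yh ^ 2 = xh ^ 3 + (a : ℂ) * xh + (b : ℂ)) (hyh : yh ≠ 0)
    (φ1 φ2 : (MvPolynomial (Fin 2) A0)[X]) (hφ1 : φ1.Monic) (hφ2 : φ2.Monic)
    (hirr1 : Irreducible (GI ι0 a b φ1))
    (hirr2 : Irreducible ((GT ι0 a b xh yh φ2).map (AdjoinRoot.of (GI ι0 a b φ1)))) :
    ∃ (s0 : A0) (m : ℕ) (Cst : ℝ), s0 ≠ 0 ∧ 0 ≤ Cst ∧ FamP a b φ1 φ2 s0 m Cst := by
  have hXt := g_trans (a : ℂ) (b : ℂ)
  have hE := g_onE (a : ℂ) (b : ℂ)
  have hG := g_gen (a : ℂ) (b : ℂ)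
  have hne := ne_of_trans hXt xh
  have hu : gX (a : ℂ) (b : ℂ) - algebraMap ℂ (FFd (a : ℂ) (b : ℂ)) xh ≠ 0 :=
    sub_ne_zero.2 hne
  exact famA ι0 a b xh yh hxh hyn hyh (gX (a : ℂ) (b : ℂ)) (gY (a : ℂ) (b : ℂ)) hE hXt hG
    (tL (a : ℂ) (b : ℂ) xh yh) (tX (a : ℂ) (b : ℂ) xh yh) (tY (a : ℂ) (b : ℂ) xh yh)
    (div_mul_cancel₀ _ hu) rfl rfl φ1 φ2 hφ1 hφ2 hirr1 hirr2

theorem irr_X {K : Type} [Field K] (g : K[X]) (hg : Irreducible g) (h : K[X]) (hh : h = X) :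
    Irreducible (h.map (AdjoinRoot.of g)) := by
  let _ : Fact (Irreducible g) := ⟨hg⟩
  rw [hh, Polynomial.map_X]
  exact irreducible_X

theorem locA [IsDomain A0] [IsNoetherianRing A0] (hι0 : Function.Injective ι0) (xh yh : ℂ)
    (hxh : ∀ p : A0[X], p.eval₂ ι0 xh = 0 → p = 0)
    (hyn : yh ^ 2 = xh ^ 3 + (a : ℂ) * xh + (b : ℂ)) (hyh : yh ≠ 0)
    (φ θp : (MvPolynomial (Fin 2) A0)[X]) (hφ : φ.Monic) (hθm : θp.Monic)
    (hTφ : TI ι0 a b xh yh φ) (hTθ : TI ι0 a b xh yh θp)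
    (θ : ℂ) (hθ : (θp.map (ev ι0 xh yh)).IsRoot θ)
    (f : ℤ[X]) (hf : f.Monic) (α : ℂ) (hα : aeval α f = 0)
    {ν : ℕ} (hν : 2 ≤ ν) (w : Fin ν → ℂ) (hw : Function.Injective w)
    (hroot : ∀ t, (φ.map (ev ι0 xh yh)).IsRoot (w t))
    (hgen : ∀ t, w t ∈ Subfield.closure (Set.range (hom1 ι0 xh yh hyn) ∪ {θ, α}))
    (N : ℕ) (hN : θp.natDegree < N * (ν - 1)) :
    ∃ s0 : A0, s0 ≠ 0 ∧ ∀ κ : ℝ, 0 < κ → ∃ T0 : ℕ, ∀ p : ℕ, T0 ≤ p → ∀ (_ : Fact p.Prime),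
      Disc (a : ZMod p) (b : ZMod p) → (f.map (Int.castRingHom (ZMod p))).Splits →
      ∀ ψ0 : A0 →+* ZMod p, ψ0 s0 ≠ 0 →
      ∀ (H : AddSubgroup (Pt (a : ZMod p) (b : ZMod p))) (P0 : Pt (a : ZMod p) (b : ZMod p)),
      (p : ℝ) ^ (1 / 2 + κ) ≤ (Nat.card H : ℝ) →
      N * {h : Pt (a : ZMod p) (b : ZMod p) | h ∈ H ∧
        (P0 + h = 0 ∨ 1 ≤ NE φ ψ0 (P0 + h))}.ncard ≤ (N - 1) * Nat.card H := by
  have hX1 : ∀ xh' yh' : ℂ, GT ι0 a b xh' yh' (X : (MvPolynomial (Fin 2) A0)[X]) = X := by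
    intro xh' yh'
    unfold GT
    rw [Polynomial.map_X]
  obtain ⟨s1, m1, C1, h1, c1, f1⟩ := famT ι0 a b xh yh hxh hyn hyh φ φ hφ hφ hTφ.1 hTφ.2
  obtain ⟨s2, m2, C2, h2, c2, f2⟩ := famT ι0 a b xh yh hxh hyn hyh φ X hφ monic_X hTφ.1
    (irr_X _ hTφ.1 _ (hX1 xh yh))
  obtain ⟨s3, m3, C3, h3, c3, f3⟩ := famT ι0 a b xh yh hxh hyn hyh θp θp hθm hθm hTθ.1 hTθ.2
  obtain ⟨s4, m4, C4, h4, c4, f4⟩ := famT ι0 a b xh yh hxh hyn hyh θp X hθm monic_X hTθ.1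
    (irr_X _ hTθ.1 _ (hX1 xh yh))
  obtain ⟨s5, m5, h5, f5⟩ := pairA (F := FFd (a : ℂ) (b : ℂ)) ι0 hι0 a b xh yh hxh hyn
    (gX (a : ℂ) (b : ℂ)) (gY (a : ℂ) (b : ℂ)) (by
      have h := g_onE (a : ℂ) (b : ℂ)
      unfold Pool.Agent.J4H11.SC.OnE at h
      rw [map_intCast, map_intCast] at h
      exact h) (g_trans (a : ℂ) (b : ℂ)) φ θp hθm hTθ.1 θ hθ f hf α hα w hw hroot hgen
  have hθ1 : 1 ≤ θp.natDegree := by
    have h := hTθ.1.natDegree_pos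
    exact h.trans_le (natDegree_map_le)
  set s : Fin 5 → A0 := ![s1, s2, s3, s4, s5] with hs
  set m : Fin 5 → ℕ := ![m1, m2, m3, m4, m5] with hm
  set Cst : Fin 4 → ℝ := ![C1, C2, C3, C4] with hCst
  have hC : ∀ t, 0 ≤ Cst t := by
    intro t
    fin_cases t
    · exact c1
    · exact c2
    · exact c3
    · exact c4
  refine ⟨∏ t, s t, ?_, fun κ hκ => ?_⟩
  · rw [Finset.prod_ne_zero_iff]
    intro t _
    fin_cases t
    · exact h1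
    · exact h2
    · exact h3
    · exact h4
    · exact h5
  obtain ⟨T0, hT0⟩ := loc_fin a b φ θp hφ hθm hθ1 s m Cst hC f1 f2 f3 f4 ν hν
    (fun p => (f.map (Int.castRingHom (ZMod p))).Splits)
    (fun p _ ψ0 hψ0 hsp => f5 (ZMod p) ψ0 hψ0 hsp) N hN κ hκ
  refine ⟨T0, fun p hp hpp hDp hsp ψ0 hψ0 => hT0 p hp hpp hDp hsp ψ0 fun t => ?_⟩
  rw [map_prod] at hψ0
  exact (Finset.prod_ne_zero_iff.1 hψ0) t (Finset.mem_univ t)

end

end Pool.Agent.J4H11.GN
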