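import Pool.Agent.J4H11.GN.Gp2
import Pool.Agent.J4H11.GC.Tow4

/-!
# The tower sieve for a condition which implies one of finitely many conditions
-/

set_option autoImplicit false

namespace Pool.Agent.J4H11.GN

open Finset MvPolynomial WeierstrassCurve Pool.Agent.H901R3.MS Pool.Agent.J4H11.RC
  Pool.Agent.J4H11.GC

section
variable {r : ℕ} (i : Fin r) {a b : Fin r → ℤ}

/-- a family of conditions on points of `A(ℚ)` with local obstructions at the primes with `sp p` -/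
def ObstP {ι : Type} (a b : Fin r → ℤ) (sp : ℕ → Prop) (Ψ : MvPolynomial (Bi i) ℤ) (N : ℕ)
    (Lf : ι → ((j : Fin r) → Pt (a j : ℚ) (b j : ℚ)) → Prop) : Prop :=
  ∀ κ : ℝ, 0 < κ → ∃ T0 : ℕ, ∀ p : ℕ, T0 ≤ p → ∀ (_ : Fact p.Prime), sp p →
    ∀ (ld : LD a b p) (δ : ι), ∃ S : Set ((j : Fin r) → Pt (a j : ZMod p) (b j : ZMod p)),
      (∀ P, Lf δ P → (∀ j, ld.red j (P j) ≠ 0) → (fun j => ld.red j (P j)) ∈ S) ∧
      LocOK i a b Ψ N κ p S

/-- the condition implies one of at most `e` conditions, which only depend on the other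
coordinates -/
def Fin1 {ι : Type} (Lf0 : ((j : Fin r) → Pt (a j : ℚ) (b j : ℚ)) → Prop)
    (Lf : ι → ((j : Fin r) → Pt (a j : ℚ) (b j : ℚ)) → Prop) (e : ℕ) : Prop :=
  ∀ P0 : (j : Fin r) → Pt (a j : ℚ) (b j : ℚ), ∃ D : Finset ι, D.card ≤ e ∧
    ∀ P, (∀ j, j ≠ i → P j = P0 j) → Lf0 P → ∃ δ ∈ D, Lf δ P

open Classical in
theorem tower_box2 (Ψ : MvPolynomial (Bi i) ℤ) (m0 : Bi i →₀ ℕ) (N : ℕ) (hN : 1 ≤ N) (κ : ℝ) {k : ℕ}
    {ι : Type} (Lf0 : ((j : Fin r) → Pt (a j : ℚ) (b j : ℚ)) → Prop)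
    (Lf : ι → ((j : Fin r) → Pt (a j : ℚ) (b j : ℚ)) → Prop) (e0 : ℕ) (hD : Fin1 i Lf0 Lf e0)
    (c R : (j : Fin r) → Pt (a j : ℚ) (b j : ℚ)) (f : Fin k → Pt (a i : ℚ) (b i : ℚ))
    (K L : ℕ) (pr : ℕ → ℕ) (hp : ∀ m, Fact (pr m).Prime) (ld : ∀ m, LD a b (pr m))
    (S : ι → ∀ m, Set ((j : Fin r) → Pt (a j : ZMod (pr m)) (b j : ZMod (pr m))))
    (hS : ∀ δ, ∀ m < K, ∀ P, Lf δ P → (∀ j, (ld m).red j (P j) ≠ 0) →
      (fun j => (ld m).red j (P j)) ∈ S δ m)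
    (hloc : ∀ δ, ∀ m < K, LocOK i a b Ψ N κ (pr m) (S δ m)) (sz : ℕ → ℕ)
    (hsz : ∀ m < K, ((pr m : ℕ) : ℝ) ^ (1 / 2 + κ) ≤ (((sz m + 1) ^ k : ℕ) : ℝ))
    (hrel : ∀ m < K, ∀ v : Fin k → ℤ, (∀ t, |v t| ≤ sz m) → v ≠ 0 →
      ∑ t, v t • ((∏ j ∈ range m, Nat.card (Pt (a i : ZMod (pr j)) (b i : ZMod (pr j)))) •
        (ld m).red i (f t)) ≠ 0)
    (hm0 : ∀ m < K, ((Ψ.coeff m0 : ℤ) : ZMod (pr m)) ≠ 0) (z : ℕ → ℕ) (hz : ∀ m < K, 1 ≤ z m)
    (hzL : ∀ m < K, z m ≤ L) (ho : ∀ m < K, ∀ j, z m ≤ addOrderOf ((ld m).red j (R j))) :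
    (((Fintype.piFinset (fun _ : Fin r => range L)) ×ˢ
        (Fintype.piFinset (fun _ : Fin k => range L))).filter
      (fun nz => Lf0 (bp i c R f nz.1 nz.2))).card ≤
      (L : ℝ) ^ r * (e0 * ((1 - 1 / (N : ℝ)) ^ K *
        ((L : ℝ) + ∏ j ∈ range K, (Nat.card (Pt (a i : ZMod (pr j)) (b i : ZMod (pr j))) : ℝ)) ^ k)) +
      (∑ m ∈ range K, ((2 * r + 6 * Ψ.totalDegree : ℕ) : ℝ) / z m) * (L : ℝ) ^ r * (L : ℝ) ^ k := by
  set box := Fintype.piFinset (fun _ : Fin r => range L) with hbox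
  set boz := Fintype.piFinset (fun _ : Fin k => range L) with hboz
  set bad := box.filter (fun n => ∃ m < K, Bdp i Ψ (ld m).red c R n) with hbad
  have hN0 : (0 : ℝ) < N := by exact_mod_cast hN
  have hbc : (box.card : ℝ) = (L : ℝ) ^ r := by
    rw [hbox, Fintype.card_piFinset]
    simp
  have hbz : (boz.card : ℝ) = (L : ℝ) ^ k := by
    rw [hboz, Fintype.card_piFinset]
    simp
  have h1 : ((box ×ˢ boz).filter (fun nz => Lf0 (bp i c R f nz.1 nz.2))).card ≤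
      ∑ n ∈ box, (boz.filter (fun z => Lf0 (bp i c R f n z))).card := by
    rw [← card_sigma]
    refine card_le_card_of_injOn (fun nz => ⟨nz.1, nz.2⟩) ?_ ?_
    · intro nz h
      rw [mem_coe, mem_filter, mem_product] at h
      rw [mem_coe, mem_sigma, mem_filter]
      exact ⟨h.1.1, h.1.2, h.2⟩
    · intro nz _ nz' _ h
      simp only [Sigma.mk.injEq, heq_eq_eq] at h
      exact Prod.ext h.1 h.2
  set X : ℝ := (1 - 1 / (N : ℝ)) ^ K *
        ((L : ℝ) + ∏ j ∈ range K, (Nat.card (Pt (a i : ZMod (pr j)) (b i : ZMod (pr j))) : ℝ)) ^ k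
    with hX
  have hX0 : 0 ≤ X := by
    have : (0 : ℝ) ≤ 1 - 1 / (N : ℝ) := by
      rw [sub_nonneg, div_le_one hN0]
      exact_mod_cast hN
    positivity
  have h2 : ∀ n ∈ box, n ∉ bad →
      ((boz.filter (fun z => Lf0 (bp i c R f n z))).card : ℝ) ≤ e0 * X := by
    intro n hn hnb
    have h3 : ∀ m < K, ¬ Bdp i Ψ (ld m).red c R n := by
      intro m hm h
      exact hnb (mem_filter.2 ⟨hn, m, hm, h⟩)
    obtain ⟨D, hDc, hD2⟩ := hD (bp i c R f n (fun _ => 0))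
    have hsub : boz.filter (fun z => Lf0 (bp i c R f n z)) ⊆
        D.biUnion (fun δ => boz.filter (fun z => Lf δ (bp i c R f n z))) := by
      intro z hz
      rw [mem_filter] at hz
      obtain ⟨δ, hδ, hL⟩ := hD2 (bp i c R f n z) (by
        intro j hj
        unfold bp
        rw [Function.update_of_ne hj, Function.update_of_ne hj]) hz.2
      rw [mem_biUnion]
      exact ⟨δ, hδ, mem_filter.2 ⟨hz.1, hL⟩⟩
    have h5 : ∀ δ ∈ D, ((boz.filter (fun z => Lf δ (bp i c R f n z))).card : ℝ) ≤ X := by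
      intro δ _
      have h4 := tower_line i Ψ N κ (Lf δ) c R f K L pr hp ld (S δ) (hS δ) (hloc δ) sz hsz hrel n h3
      have h5 : ((N : ℝ)) ^ K * ((boz.filter (fun z => Lf δ (bp i c R f n z))).card : ℝ) ≤
          ((N : ℝ) - 1) ^ K * ((L : ℝ) +
            ∏ j ∈ range K, (Nat.card (Pt (a i : ZMod (pr j)) (b i : ZMod (pr j))) : ℝ)) ^ k := by
        have h6 : (((N - 1 : ℕ) : ℕ) : ℝ) = (N : ℝ) - 1 := by
          rw [Nat.cast_sub hN, Nat.cast_one]
        rw [← h6]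
        exact_mod_cast h4
      rw [hX]
      have h6 : (1 - 1 / (N : ℝ)) ^ K = ((N : ℝ) - 1) ^ K / (N : ℝ) ^ K := by
        rw [← div_pow]
        congr 1
        field_simp
      rw [h6, div_mul_eq_mul_div, le_div_iff₀ (by positivity)]
      linarith
    have h6 : ((boz.filter (fun z => Lf0 (bp i c R f n z))).card : ℝ) ≤
        ∑ δ ∈ D, ((boz.filter (fun z => Lf δ (bp i c R f n z))).card : ℝ) := by
      exact_mod_cast (card_le_card hsub).trans card_biUnion_le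
    refine h6.trans ((sum_le_card_nsmul _ _ _ h5).trans ?_)
    rw [nsmul_eq_mul]
    apply mul_le_mul_of_nonneg_right _ hX0
    exact_mod_cast hDc
  have h3 : ∀ n, ((boz.filter (fun z => Lf0 (bp i c R f n z))).card : ℝ) ≤ (L : ℝ) ^ k := by
    intro n
    rw [← hbz]
    exact_mod_cast card_filter_le _ _
  have hbadc : (bad.card : ℝ) ≤ ∑ m ∈ range K,
      ((2 * r + 6 * Ψ.totalDegree : ℕ) : ℝ) / z m * (L : ℝ) ^ r := by
    have h4 : bad ⊆ (range K).biUnion (fun m => box.filter (fun n => Bdp i Ψ (ld m).red c R n)) := by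
      intro n hn
      rw [hbad, mem_filter] at hn
      obtain ⟨hn1, m, hm, hn2⟩ := hn
      rw [mem_biUnion]
      exact ⟨m, mem_range.2 hm, mem_filter.2 ⟨hn1, hn2⟩⟩
    have h5 : (bad.card : ℝ) ≤ ∑ m ∈ range K,
        ((box.filter (fun n => Bdp i Ψ (ld m).red c R n)).card : ℝ) := by
      exact_mod_cast (card_le_card h4).trans card_biUnion_le
    refine h5.trans (sum_le_sum fun m hm => ?_)
    have hm' := mem_range.1 hm
    exact bad_count i Ψ m0 (hm0 m hm') (fun j => finite_pt _ _) (ld m).red c R L (z m)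
      (hz m hm') (hzL m hm') (ho m hm')
  have h4 : (((box ×ˢ boz).filter (fun nz => Lf0 (bp i c R f nz.1 nz.2))).card : ℝ) ≤
      ∑ n ∈ box, ((boz.filter (fun z => Lf0 (bp i c R f n z))).card : ℝ) := by
    exact_mod_cast h1
  refine h4.trans ?_
  have h5 : ∑ n ∈ box, ((boz.filter (fun z => Lf0 (bp i c R f n z))).card : ℝ) ≤
      ∑ n ∈ box, (e0 * X + if n ∈ bad then (L : ℝ) ^ k else 0) := by
    refine sum_le_sum fun n hn => ?_
    by_cases hnb : n ∈ bad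
    · rw [if_pos hnb]
      have : 0 ≤ e0 * X := by positivity
      linarith [h3 n]
    · rw [if_neg hnb, add_zero]
      exact h2 n hn hnb
  refine h5.trans ?_
  rw [sum_add_distrib, sum_const, nsmul_eq_mul, hbc, ← sum_filter, sum_const, nsmul_eq_mul]
  have h6 : (((box.filter (fun n => n ∈ bad)).card : ℕ) : ℝ) ≤ bad.card := by
    have : box.filter (fun n => n ∈ bad) ⊆ bad := fun n hn => (mem_filter.1 hn).2
    exact_mod_cast card_le_card this
  have h7 : (((box.filter (fun n => n ∈ bad)).card : ℕ) : ℝ) * (L : ℝ) ^ k ≤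
      (∑ m ∈ range K, ((2 * r + 6 * Ψ.totalDegree : ℕ) : ℝ) / z m) * (L : ℝ) ^ r * (L : ℝ) ^ k := by
    apply mul_le_mul_of_nonneg_right _ (by positivity)
    refine (h6.trans hbadc).trans (le_of_eq ?_)
    rw [sum_mul]
  linarith

end

end Pool.Agent.J4H11.GN
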