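import Pool.Agent.J4H11.GN.Zp

/-!
# The coordinate of a very general point is transcendental over the ring of functions
-/

set_option autoImplicit false

open Pool.Agent.J4H11.RC Pool.Agent.J4H11.SC Polynomial

namespace Pool.Agent.J4H11.GN

section
variable {B : Type} {s : ℕ}

theorem trans_z (a b : B → ℤ) (xb yb : B → ℂ)
    (hyb : ∀ j, yb j ^ 2 = xb j ^ 3 + ((a j : ℤ) : ℂ) * xb j + ((b j : ℤ) : ℂ))
    (xh : ℂ) (htr : Transcendental (Algebra.adjoin ℚ (Set.range xb)) xh)
    (ζ : Fin s → ℂ) (hζ : ∀ t, IsIntegral (Algebra.adjoin ℤ (Set.range (pv xb yb))) (ζ t))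
    (p : (AZ xb yb ζ)[X]) (hp : p.eval₂ (zth xb yb ζ).range.subtype xh = 0) :
    p = 0 := by
  classical
  set AC := Subalgebra.algebraicClosure (Algebra.adjoin ℚ (Set.range xb)) ℂ with hAC
  have htr2 : Transcendental AC xh := htr.subalgebraAlgebraicClosure
  have hx : ∀ j, xb j ∈ AC := fun j =>
    isAlgebraic_algebraMap (⟨xb j, Algebra.subset_adjoin ⟨j, rfl⟩⟩ :
      Algebra.adjoin ℚ (Set.range xb))
  have hn : ∀ n : ℤ, ((n : ℤ) : ℂ) ∈ AC := fun n => intCast_mem AC n
  have hy : ∀ j, yb j ∈ AC := by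
    intro j
    have h1 : yb j ^ 2 ∈ AC := by
      have h2 : yb j ^ 2 = xb j ^ 3 + ((a j : ℤ) : ℂ) * xb j + ((b j : ℤ) : ℂ) := hyb j
      rw [h2]
      exact AC.add_mem (AC.add_mem (AC.pow_mem (hx j) 3) (AC.mul_mem (hn _) (hx j))) (hn _)
    have h3 : IsAlgebraic (Algebra.adjoin ℚ (Set.range xb)) (yb j ^ 2) := h1
    exact h3.of_pow two_pos
  have hpv : ∀ v, pv xb yb v ∈ AC := by
    rintro ⟨j, e⟩
    rcases fin2 e with rfl | rfl
    · exact hx j
    · exact hy j
  have hz : ∀ t, ζ t ∈ AC := by
    intro t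
    obtain ⟨P, hP, hP0⟩ := hζ t
    have hle : ∀ c ∈ Algebra.adjoin ℤ (Set.range (pv xb yb)), c ∈ AC := by
      intro c hc
      induction hc using Algebra.adjoin_induction with
      | mem c hc =>
        obtain ⟨v, rfl⟩ := hc
        exact hpv v
      | algebraMap n =>
        have : algebraMap ℤ ℂ n = ((n : ℤ) : ℂ) := rfl
        rw [this]
        exact hn n
      | add c d _ _ h1 h2 => exact AC.add_mem h1 h2
      | mul c d _ _ h1 h2 => exact AC.mul_mem h1 h2
    let g : Algebra.adjoin ℤ (Set.range (pv xb yb)) →+* AC :=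
      { toFun := fun c => ⟨c.1, hle c.1 c.2⟩
        map_one' := rfl
        map_mul' := fun _ _ => rfl
        map_zero' := rfl
        map_add' := fun _ _ => rfl }
    have h1 : IsAlgebraic AC (ζ t) := by
      refine IsIntegral.isAlgebraic ⟨P.map g, hP.map g, ?_⟩
      rw [eval₂_map]
      exact hP0
    have h2 : IsAlgebraic (Algebra.adjoin ℚ (Set.range xb)) (ζ t) :=
      IsAlgebraic.restrictScalars (Algebra.adjoin ℚ (Set.range xb)) h1
    exact h2
  have hall : ∀ G, zth xb yb ζ G ∈ AC := by
    intro G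
    induction G using MvPolynomial.induction_on with
    | C n =>
      have : zth xb yb ζ (MvPolynomial.C n) = ((n : ℤ) : ℂ) := by simp [zth]
      rw [this]
      exact hn n
    | add p q hp hq => rw [map_add]; exact AC.add_mem hp hq
    | mul_X p v hp =>
      rw [map_mul]
      refine AC.mul_mem hp ?_
      rcases v with v | t
      · have : zth xb yb ζ (MvPolynomial.X (Sum.inl v)) = pv xb yb v := MvPolynomial.aeval_X _ _
        rw [this]
        exact hpv v
      · rw [zth_z]
        exact hz t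
  let g : AZ xb yb ζ →+* AC :=
    { toFun := fun c => ⟨c.1, by
        obtain ⟨G, hG⟩ := c.2
        rw [← hG]
        exact hall G⟩
      map_one' := rfl
      map_mul' := fun _ _ => rfl
      map_zero' := rfl
      map_add' := fun _ _ => rfl }
  have hginj : Function.Injective g := by
    intro u v huv
    exact Subtype.ext (congrArg (fun c : AC => (c : ℂ)) huv)
  by_contra hne
  apply htr2
  refine ⟨p.map g, (Polynomial.map_ne_zero_iff hginj).2 hne, ?_⟩
  rw [aeval_def, eval₂_map]
  exact hp

theorem opt_trans {r : ℕ} (i : Fin r) (xx : Fin r → ℂ) (hxx : AlgebraicIndependent ℚ xx) :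
    Transcendental (Algebra.adjoin ℚ (Set.range (fun j : Bi i => xx j))) (xx i) := by
  have h1 := hxx.comp (fun o : Option (Bi i) => o.elim i (fun j => (j : Fin r))) (by
    rintro (_ | j) (_ | j') h
    · rfl
    · exact absurd h.symm j'.2
    · exact absurd h j.2
    · exact congrArg some (Subtype.ext h))
  have h2 : xx ∘ (fun o : Option (Bi i) => o.elim i (fun j => (j : Fin r))) =
      fun o : Option (Bi i) => o.elim (xx i) (fun j : Bi i => xx j) := by
    funext o
    rcases o with _ | j <;> rfl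
  rw [h2] at h1
  have hxbi : AlgebraicIndependent ℚ (fun j : Bi i => xx j) :=
    hxx.comp (fun j : Bi i => (j : Fin r)) Subtype.val_injective
  exact (hxbi.option_iff_transcendental (xx i)).1 h1

end

end Pool.Agent.J4H11.GN
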