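import Pool.Agent.J4H11.GN.Zr
import Pool.Agent.J4H11.SC.FinS

/-!
# The points of the finite cover
-/

set_option autoImplicit false

open Pool.Agent.J4H11.RC Pool.Agent.J4H11.SC Pool.Agent.H901R3.MS Polynomial

namespace Pool.Agent.J4H11.GN

section
variable {B : Type} {s : ℕ}

/-- the evaluation of polynomials in the coordinates `x_j`, `y_j` -/
noncomputable def pth {S : Type} [CommRing S] (x y : B → S) : MvPolynomial (B × Fin 2) ℤ →+* S :=
  (MvPolynomial.aeval (pv x y) : MvPolynomial (B × Fin 2) ℤ →ₐ[ℤ] S).toRingHom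

theorem zth_inl {S : Type} [CommRing S] (x y : B → S) (z : Fin s → S) :
    (zth x y z).comp (MvPolynomial.rename Sum.inl :
      MvPolynomial (B × Fin 2) ℤ →ₐ[ℤ] MvPolynomial ((B × Fin 2) ⊕ Fin s) ℤ).toRingHom =
      pth x y := by
  apply MvPolynomial.ringHom_ext
  · intro n
    simp
  · intro v
    change MvPolynomial.aeval (Sum.elim (pv x y) z) (MvPolynomial.rename Sum.inl
      (MvPolynomial.X v)) = MvPolynomial.aeval (pv x y) (MvPolynomial.X v)
    rw [MvPolynomial.rename_X, MvPolynomial.aeval_X, MvPolynomial.aeval_X]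
    rfl

theorem pth_comp {S T : Type} [CommRing S] [CommRing T] (g : S →+* T) (x y : B → S) :
    g.comp (pth x y) = pth (fun j => g (x j)) (fun j => g (y j)) := by
  apply MvPolynomial.ringHom_ext
  · intro n
    simp
  · rintro ⟨j, e⟩
    change g (MvPolynomial.aeval (pv x y) (MvPolynomial.X (j, e))) =
      MvPolynomial.aeval (pv (fun j => g (x j)) (fun j => g (y j))) (MvPolynomial.X (j, e))
    rw [MvPolynomial.aeval_X, MvPolynomial.aeval_X]
    rcases fin2 e with rfl | rfl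
    · rw [pv_zero, pv_zero]
    · rw [pv_one, pv_one]

variable {Ω : Type} [Field Ω] (x y : B → Ω) (z : Fin s → Ω)

theorem exists_M (t : Fin s)
    (hz : IsIntegral (Algebra.adjoin ℤ (Set.range (pv x y))) (z t)) :
    ∃ M : (MvPolynomial (B × Fin 2) ℤ)[X], M.Monic ∧ M.eval₂ (pth x y) (z t) = 0 := by
  obtain ⟨P, hP, hP0⟩ := hz
  have hmem : ∀ G : MvPolynomial (B × Fin 2) ℤ, pth x y G ∈ Algebra.adjoin ℤ (Set.range (pv x y)) := by
    intro G
    rw [Algebra.adjoin_range_eq_range_aeval]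
    exact ⟨G, rfl⟩
  let g : MvPolynomial (B × Fin 2) ℤ →+* Algebra.adjoin ℤ (Set.range (pv x y)) :=
    (pth x y).codRestrict _ hmem
  have hsurj : Function.Surjective g := by
    rintro ⟨c, hc⟩
    rw [Algebra.adjoin_range_eq_range_aeval] at hc
    obtain ⟨G, hG⟩ := hc
    exact ⟨G, Subtype.ext hG⟩
  have hl : P ∈ Polynomial.lifts g := by
    rw [Polynomial.lifts_iff_coeff_lifts]
    intro n
    exact hsurj _
  obtain ⟨M, hM1, -, hM3⟩ := Polynomial.lifts_and_natDegree_eq_and_monic hl hP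
  refine ⟨M, hM3, ?_⟩
  rw [← hM1, eval₂_map] at hP0
  exact hP0

theorem isZ_M (t : Fin s) (M : (MvPolynomial (B × Fin 2) ℤ)[X]) (hM : M.eval₂ (pth x y) (z t) = 0)
    {S : Type} [CommRing S] (x' y' : B → S) (z' : Fin s → S) (h : IsZ x y z x' y' z') :
    M.eval₂ (pth x' y') (z' t) = 0 := by
  set G : MvPolynomial ((B × Fin 2) ⊕ Fin s) ℤ := M.eval₂ (MvPolynomial.rename Sum.inl :
      MvPolynomial (B × Fin 2) ℤ →ₐ[ℤ] MvPolynomial ((B × Fin 2) ⊕ Fin s) ℤ).toRingHom
      (MvPolynomial.X (Sum.inr t)) with hG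
  have h1 : ∀ {T : Type} [CommRing T] (x y : B → T) (z : Fin s → T),
      zth x y z G = M.eval₂ (pth x y) (z t) := by
    intro T _ x y z
    rw [hG, hom_eval₂, zth_inl, zth_z]
  rw [← h1]
  apply h
  rw [h1]
  exact hM

theorem isZ_fin {K : Type} [Field K] (M : Fin s → (MvPolynomial (B × Fin 2) ℤ)[X])
    (hM : ∀ t, (M t).Monic) (hM0 : ∀ t, (M t).eval₂ (pth x y) (z t) = 0) (x' y' : B → K) :
    ∃ D : Finset (Fin s → K), D.card ≤ ∏ t, (M t).natDegree ∧
      ∀ z', IsZ x y z x' y' z' → z' ∈ D := by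
  classical
  refine ⟨Fintype.piFinset (fun t => ((M t).map (pth x' y')).roots.toFinset), ?_, fun z' hz' => ?_⟩
  · rw [Fintype.card_piFinset]
    refine Finset.prod_le_prod' fun t _ => ?_
    refine (Multiset.toFinset_card_le _).trans ((card_roots' _).trans ?_)
    exact natDegree_map_le
  · rw [Fintype.mem_piFinset]
    intro t
    rw [Multiset.mem_toFinset, mem_roots ((hM t).map _).ne_zero, IsRoot.def, eval_map]
    exact isZ_M x y z t (M t) (hM0 t) x' y' z' hz'

/-- the reduction of a point -/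
theorem isZ_red {K k : Type} [Field K] [Field k] (v : Place K k)
    (M : Fin s → (MvPolynomial (B × Fin 2) ℤ)[X])
    (hM : ∀ t, (M t).Monic) (hM0 : ∀ t, (M t).eval₂ (pth x y) (z t) = 0)
    (x' y' : B → K) (z' : Fin s → K) (h : IsZ x y z x' y' z') (hx : ∀ j, x' j ∈ v.A)
    (hy : ∀ j, y' j ∈ v.A) :
    (∀ t, z' t ∈ v.A) ∧
      IsZ x y z (fun j => v.r (x' j)) (fun j => v.r (y' j)) (fun t => v.r (z' t)) := by
  set xA : B → v.A := fun j => ⟨x' j, hx j⟩ with hxA
  set yA : B → v.A := fun j => ⟨y' j, hy j⟩ with hyA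
  have hz : ∀ t, z' t ∈ v.A := by
    intro t
    have h1 := isZ_M x y z t (M t) (hM0 t) x' y' z' h
    obtain ⟨h2, -⟩ := place_root v ((M t).map (pth xA yA)) ((hM t).map _) (z' t) (by
      rw [eval₂_map, pth_comp]
      exact h1)
    exact h2
  refine ⟨hz, fun G hG => ?_⟩
  set zA : Fin s → v.A := fun t => ⟨z' t, hz t⟩ with hzA
  have h1 : zth xA yA zA G = 0 := by
    apply Subtype.ext
    have h2 := DFunLike.congr_fun (zth_comp v.A.subtype xA yA zA) G
    exact h2.trans (h G hG)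
  have h3 := DFunLike.congr_fun (zth_comp v.ρ xA yA zA) G
  rw [RingHom.comp_apply, h1, map_zero] at h3
  have e1 : (fun j => v.ρ (xA j)) = fun j => v.r (x' j) := funext fun j => (v.r_of (hx j)).symm
  have e2 : (fun j => v.ρ (yA j)) = fun j => v.r (y' j) := funext fun j => (v.r_of (hy j)).symm
  have e3 : (fun t => v.ρ (zA t)) = fun t => v.r (z' t) := funext fun t => (v.r_of (hz t)).symm
  rw [e1, e2, e3] at h3
  exact h3.symm

end

end Pool.Agent.J4H11.GN
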