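import Pool.Agent.J4H11.GN.LocA3

/-!
# The ring of functions on a finite cover of a product of curves
-/

set_option autoImplicit false

open Pool.Agent.J4H11.RC Pool.Agent.J4H11.SC

namespace Pool.Agent.J4H11.GN

section
variable {B : Type} {s : ℕ}

/-- the evaluation at a point with coordinates `x_j`, `y_j` and `z_t` -/
noncomputable def zth {S : Type} [CommRing S] (x y : B → S) (z : Fin s → S) :
    MvPolynomial ((B × Fin 2) ⊕ Fin s) ℤ →+* S :=
  (MvPolynomial.aeval (Sum.elim (pv x y) z) :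
    MvPolynomial ((B × Fin 2) ⊕ Fin s) ℤ →ₐ[ℤ] S).toRingHom

theorem zth_x {S : Type} [CommRing S] (x y : B → S) (z : Fin s → S) (j : B) :
    zth x y z (MvPolynomial.X (Sum.inl (j, 0))) = x j := by
  change MvPolynomial.aeval (Sum.elim (pv x y) z) (MvPolynomial.X (Sum.inl (j, 0))) = x j
  rw [MvPolynomial.aeval_X]
  rfl

theorem zth_y {S : Type} [CommRing S] (x y : B → S) (z : Fin s → S) (j : B) :
    zth x y z (MvPolynomial.X (Sum.inl (j, 1))) = y j := by
  change MvPolynomial.aeval (Sum.elim (pv x y) z) (MvPolynomial.X (Sum.inl (j, 1))) = y j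
  rw [MvPolynomial.aeval_X]
  rfl

theorem zth_z {S : Type} [CommRing S] (x y : B → S) (z : Fin s → S) (t : Fin s) :
    zth x y z (MvPolynomial.X (Sum.inr t)) = z t := by
  change MvPolynomial.aeval (Sum.elim (pv x y) z) (MvPolynomial.X (Sum.inr t)) = z t
  rw [MvPolynomial.aeval_X]
  rfl

theorem zth_ext {S : Type} [CommRing S] (g : MvPolynomial ((B × Fin 2) ⊕ Fin s) ℤ →+* S)
    (x y : B → S) (z : Fin s → S) (hx : ∀ j, g (MvPolynomial.X (Sum.inl (j, 0))) = x j)
    (hy : ∀ j, g (MvPolynomial.X (Sum.inl (j, 1))) = y j)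
    (hz : ∀ t, g (MvPolynomial.X (Sum.inr t)) = z t) : g = zth x y z := by
  apply MvPolynomial.ringHom_ext
  · intro n
    simp
  · rintro (⟨j, e⟩ | t)
    · rcases fin2 e with rfl | rfl
      · rw [hx, zth_x]
      · rw [hy, zth_y]
    · rw [hz, zth_z]

theorem zth_comp {S T : Type} [CommRing S] [CommRing T] (g : S →+* T) (x y : B → S)
    (z : Fin s → S) :
    g.comp (zth x y z) = zth (fun j => g (x j)) (fun j => g (y j)) (fun t => g (z t)) := by
  apply zth_ext
  · intro j
    rw [RingHom.comp_apply, zth_x]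
  · intro j
    rw [RingHom.comp_apply, zth_y]
  · intro t
    rw [RingHom.comp_apply, zth_z]

section
variable {Ω : Type} [Field Ω] (x y : B → Ω) (z : Fin s → Ω)

/-- the ring of functions -/
abbrev AZ : Type := (zth x y z).range

/-- a point at which all the relations hold -/
def IsZ {S : Type} [CommRing S] (x' y' : B → S) (z' : Fin s → S) : Prop :=
  ∀ G, zth x y z G = 0 → zth x' y' z' G = 0

instance [Finite B] : IsNoetherianRing (AZ x y z) :=
  isNoetherianRing_of_surjective _ _ (zth x y z).rangeRestrict (zth x y z).rangeRestrict_surjective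

/-- the homomorphism given by a point -/
theorem zhom {S : Type} [CommRing S] (x' y' : B → S) (z' : Fin s → S)
    (h : IsZ x y z x' y' z') :
    ∃ ψ : AZ x y z →+* S, ∀ G, ψ ((zth x y z).rangeRestrict G) = zth x' y' z' G := by
  set θ := zth x y z with hθ
  set θ' := zth x' y' z' with hθ'
  have hker : RingHom.ker θ.rangeRestrict ≤ RingHom.ker θ' := by
    intro H hH
    rw [RingHom.mem_ker] at hH ⊢
    exact h H (congrArg Subtype.val hH)
  obtain ⟨φ, hφ⟩ : ∃ φ : AZ x y z →+* S, φ.comp θ.rangeRestrict = θ' :=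
    ⟨RingHom.liftOfSurjective θ.rangeRestrict θ.rangeRestrict_surjective ⟨θ', hker⟩,
      RingHom.liftOfRightInverse_comp _ _ _ _⟩
  exact ⟨φ, fun H => DFunLike.congr_fun hφ H⟩

/-- an element which is not zero is not zero at almost all points -/
theorem zelim (a b : B → ℤ) (hy : ∀ j, y j ^ 2 = x j ^ 3 + (a j : Ω) * x j + (b j : Ω))
    (hz : ∀ t, IsIntegral (Algebra.adjoin ℤ (Set.range (pv x y))) (z t))
    (s0 : AZ x y z) (hs0 : s0 ≠ 0) : ∃ Ψ : MvPolynomial B ℤ, Ψ ≠ 0 ∧
    ∀ (K : Type) [Field K] (x' y' : B → K) (z' : Fin s → K) (ψ : AZ x y z →+* K),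
      (∀ G, ψ ((zth x y z).rangeRestrict G) = zth x' y' z' G) →
      MvPolynomial.aeval x' Ψ ≠ 0 → ψ s0 ≠ 0 := by
  classical
  set θ := zth x y z with hθ
  set κ : MvPolynomial B ℤ →+* MvPolynomial ((B × Fin 2) ⊕ Fin s) ℤ :=
    (MvPolynomial.aeval (fun j => MvPolynomial.X (Sum.inl (j, 0)))).toRingHom with hκ
  have hκX : ∀ j, κ (MvPolynomial.X j) = MvPolynomial.X (Sum.inl (j, 0)) := by
    intro j
    exact MvPolynomial.aeval_X _ _
  set φP : MvPolynomial B ℤ →+* AZ x y z := θ.rangeRestrict.comp κ with hφP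
  have hφPv : ∀ Q, ((φP Q : AZ x y z) : Ω) = MvPolynomial.aeval x Q := by
    intro Q
    have h1 : ((zth x y z).range.subtype.comp φP) =
        (MvPolynomial.aeval x : MvPolynomial B ℤ →ₐ[ℤ] Ω).toRingHom := by
      apply MvPolynomial.ringHom_ext
      · intro n
        simp
      · intro j
        change zth x y z (κ (MvPolynomial.X j)) = MvPolynomial.aeval x (MvPolynomial.X j)
        rw [hκX, zth_x, MvPolynomial.aeval_X]
    exact DFunLike.congr_fun h1 Q
  let _ : Algebra (MvPolynomial B ℤ) (AZ x y z) := φP.toAlgebra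
  let _ : Algebra (MvPolynomial B ℤ) Ω :=
    (MvPolynomial.aeval x : MvPolynomial B ℤ →ₐ[ℤ] Ω).toRingHom.toAlgebra
  have hcoe : ∀ Q, algebraMap (MvPolynomial B ℤ) Ω Q = ((φP Q : AZ x y z) : Ω) := fun Q =>
    (hφPv Q).symm
  -- integrality over the ring of polynomials
  have hxi : ∀ j, IsIntegral (MvPolynomial B ℤ) (x j) := by
    intro j
    have : x j = algebraMap (MvPolynomial B ℤ) Ω (MvPolynomial.X j) := by
      rw [hcoe, hφPv, MvPolynomial.aeval_X]
    rw [this]
    exact isIntegral_algebraMap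
  have hyi : ∀ j, IsIntegral (MvPolynomial B ℤ) (y j) := by
    intro j
    refine IsIntegral.of_pow (n := 2) (by norm_num) ?_
    rw [hy j]
    have hi : ∀ n : ℤ, IsIntegral (MvPolynomial B ℤ) ((n : ℤ) : Ω) := by
      intro n
      have : ((n : ℤ) : Ω) = algebraMap (MvPolynomial B ℤ) Ω ((n : ℤ) : MvPolynomial B ℤ) := by
        rw [map_intCast]
      rw [this]
      exact isIntegral_algebraMap
    exact (((hxi j).pow 3).add ((hi _).mul (hxi j))).add (hi _)
  have hpi : ∀ v, IsIntegral (MvPolynomial B ℤ) (pv x y v) := by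
    rintro ⟨j, e⟩
    rcases fin2 e with rfl | rfl
    · exact hxi j
    · exact hyi j
  set IC : Subalgebra (MvPolynomial B ℤ) Ω := integralClosure (MvPolynomial B ℤ) Ω with hIC
  have hzi : ∀ t, IsIntegral (MvPolynomial B ℤ) (z t) := by
    intro t
    obtain ⟨P, hP, hP0⟩ := hz t
    have hle : ∀ c ∈ Algebra.adjoin ℤ (Set.range (pv x y)), c ∈ IC := by
      intro c hc
      induction hc using Algebra.adjoin_induction with
      | mem c hc =>
        obtain ⟨v, rfl⟩ := hc
        exact hpi v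
      | algebraMap n =>
        have : algebraMap ℤ Ω n = ((n : ℤ) : Ω) := rfl
        rw [this]
        exact intCast_mem IC n
      | add c d _ _ h1 h2 => exact IC.add_mem h1 h2
      | mul c d _ _ h1 h2 => exact IC.mul_mem h1 h2
    let g : Algebra.adjoin ℤ (Set.range (pv x y)) →+* IC :=
      { toFun := fun c => ⟨c.1, hle c.1 c.2⟩
        map_one' := rfl
        map_mul' := fun _ _ => rfl
        map_zero' := rfl
        map_add' := fun _ _ => rfl }
    have h1 : IsIntegral IC (z t) := by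
      refine ⟨P.map g, hP.map g, ?_⟩
      rw [Polynomial.eval₂_map]
      exact hP0
    exact isIntegral_trans (R := MvPolynomial B ℤ) (A := IC) (z t) h1
  have hall : ∀ G, IsIntegral (MvPolynomial B ℤ) (zth x y z G) := by
    intro G
    induction G using MvPolynomial.induction_on with
    | C n =>
      have : zth x y z (MvPolynomial.C n) = algebraMap (MvPolynomial B ℤ) Ω (MvPolynomial.C n) := by
        rw [hcoe, hφPv]
        simp [zth]
      rw [this]
      exact isIntegral_algebraMap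
    | add p q hp hq => rw [map_add]; exact hp.add hq
    | mul_X p v hp =>
      rw [map_mul]
      refine hp.mul ?_
      rcases v with v | t
      · have : zth x y z (MvPolynomial.X (Sum.inl v)) = pv x y v := MvPolynomial.aeval_X _ _
        rw [this]
        exact hpi v
      · rw [zth_z]
        exact hzi t
  have hsint : IsIntegral (MvPolynomial B ℤ) s0 := by
    obtain ⟨G, hG⟩ := θ.rangeRestrict_surjective s0
    obtain ⟨P, hP, hP0⟩ := hall G
    refine ⟨P, hP, ?_⟩
    apply Subtype.ext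
    have h1 := Polynomial.hom_eval₂ P (algebraMap (MvPolynomial B ℤ) (AZ x y z))
      (zth x y z).range.subtype s0
    have h2 : ((zth x y z).range.subtype).comp (algebraMap (MvPolynomial B ℤ) (AZ x y z)) =
        algebraMap (MvPolynomial B ℤ) Ω := RingHom.ext fun Q => (hcoe Q).symm
    have h3 : (zth x y z).range.subtype s0 = zth x y z G := by
      rw [← hG]
      rfl
    rw [h2, h3] at h1
    exact h1.trans hP0
  obtain ⟨Ψ, t, hΨ0, hΨ⟩ := down s0 hs0 hsint
  refine ⟨Ψ, hΨ0, fun K _ x' y' z' φ hφ2 hΨK h0 => ?_⟩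
  apply hΨK
  have h1 : φ (φP Ψ) = 0 := by
    have h2 : φP Ψ = s0 * t := hΨ
    rw [h2, map_mul, h0, zero_mul]
  have h2 : φ.comp φP = (MvPolynomial.aeval x' : MvPolynomial B ℤ →ₐ[ℤ] K).toRingHom := by
    apply MvPolynomial.ringHom_ext
    · intro n
      simp
    · intro j
      change φ (θ.rangeRestrict (κ (MvPolynomial.X j))) = MvPolynomial.aeval x' (MvPolynomial.X j)
      rw [hφ2, hκX, zth_x, MvPolynomial.aeval_X]
  have h3 := DFunLike.congr_fun h2 Ψ
  exact h3.symm.trans h1

end

end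

section
variable {r : ℕ} (i : Fin r) {s : ℕ} {Ω : Type} [Field Ω] (x y : Bi i → Ω) (z : Fin s → Ω)

open Classical in
/-- the polynomial as a polynomial in the coordinates of the curve `E_i` -/
noncomputable def part : MvPolynomial ((Fin r × Fin 2) ⊕ Fin s) ℤ →+*
    MvPolynomial (Fin 2) (AZ x y z) :=
  MvPolynomial.eval₂Hom (Int.castRingHom _) (Sum.elim
    (fun v => if h : v.1 = i then MvPolynomial.X v.2 else
      MvPolynomial.C ((zth x y z).rangeRestrict (MvPolynomial.X (Sum.inl (⟨v.1, h⟩, v.2)))))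
    (fun t => MvPolynomial.C ((zth x y z).rangeRestrict (MvPolynomial.X (Sum.inr t)))))

theorem part_ev {S : Type} [CommRing S] (ψ : AZ x y z →+* S) (x' y' : Bi i → S)
    (z' : Fin s → S) (hψ : ∀ G, ψ ((zth x y z).rangeRestrict G) = zth x' y' z' G) (x0 y0 : S) :
    (ev ψ x0 y0).comp (part i x y z) = zth (RC.ext i x' x0) (RC.ext i y' y0) z' := by
  have hv : ∀ v, part i x y z (MvPolynomial.X v) = (Sum.elim
    (fun v : Fin r × Fin 2 => if h : v.1 = i then MvPolynomial.X v.2 else
      MvPolynomial.C ((zth x y z).rangeRestrict (MvPolynomial.X (Sum.inl (⟨v.1, h⟩, v.2)))))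
    (fun t => MvPolynomial.C ((zth x y z).rangeRestrict (MvPolynomial.X (Sum.inr t)))) v :
      MvPolynomial (Fin 2) (AZ x y z)) := fun v => MvPolynomial.eval₂Hom_X' _ _ v
  have hC : ∀ c, ev ψ x0 y0 (MvPolynomial.C c) = ψ c := fun c => MvPolynomial.eval₂Hom_C _ _ c
  have hX : ∀ e, ev ψ x0 y0 (MvPolynomial.X e) = ![x0, y0] e := fun e =>
    MvPolynomial.eval₂Hom_X' _ _ e
  apply zth_ext
  · intro j
    rw [RingHom.comp_apply, hv, Sum.elim_inl]
    unfold RC.ext
    by_cases hj : j = i
    · rw [dif_pos hj, dif_pos hj, hX]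
      rfl
    · rw [dif_neg hj, dif_neg hj, hC, hψ, zth_x]
  · intro j
    rw [RingHom.comp_apply, hv, Sum.elim_inl]
    unfold RC.ext
    by_cases hj : j = i
    · rw [dif_pos hj, dif_pos hj, hX]
      rfl
    · rw [dif_neg hj, dif_neg hj, hC, hψ, zth_y]
  · intro t
    rw [RingHom.comp_apply, hv, Sum.elim_inr, hC, hψ, zth_z]

end

end Pool.Agent.J4H11.GN
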